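import Pool.Agent.Lib.MP_cd3201_co.Dense.Spec

/-!
# Distinct circumradii: module Ann (Lemma 6 and (6b))

Annulus count by comparing areas of discs.
-/

set_option autoImplicit false

open Finset MeasureTheory
open scoped Real

namespace Pool.Agent.Lib.MP_cd3201_co.Dense.AnnM

lemma area_closedBall (y : ℂ) {R : ℝ} (hR : 0 ≤ R) :
    volume.real (Metric.closedBall y R) = π * R ^ 2 := by
  rw [measureReal_def, Complex.volume_closedBall, ENNReal.toReal_mul, ENNReal.toReal_pow,
    ENNReal.toReal_ofReal hR]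
  simp [mul_comm]

lemma area_ball (y : ℂ) {R : ℝ} (hR : 0 ≤ R) :
    volume.real (Metric.ball y R) = π * R ^ 2 := by
  rw [measureReal_def, Complex.volume_ball, ENNReal.toReal_mul, ENNReal.toReal_pow,
    ENNReal.toReal_ofReal hR]
  simp [mul_comm]

lemma fin_closedBall (y : ℂ) (R : ℝ) : volume (Metric.closedBall y R) ≠ ⊤ :=
  (isCompact_closedBall y R).measure_lt_top.ne

lemma area_ann (y : ℂ) {ρ h : ℝ} (hρ : 0 ≤ ρ) (hh : 0 ≤ h) :
    volume.real (Metric.closedBall y (ρ + h) \ Metric.ball y (ρ - h)) ≤ 4 * π * (ρ + h) * h := by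
  have hpi := Real.pi_pos
  rcases le_or_gt ρ h with hle | hlt
  · have h1 : volume.real (Metric.closedBall y (ρ + h) \ Metric.ball y (ρ - h)) ≤
        volume.real (Metric.closedBall y (ρ + h)) :=
      measureReal_mono Set.sdiff_subset (fin_closedBall y _)
    rw [area_closedBall y (by linarith)] at h1
    refine h1.trans ?_
    have h2 : (ρ + h) ^ 2 ≤ 4 * (ρ + h) * h := by nlinarith
    nlinarith [mul_le_mul_of_nonneg_left h2 hpi.le]
  · have hsub : Metric.ball y (ρ - h) ⊆ Metric.closedBall y (ρ + h) :=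
      (Metric.ball_subset_ball (by linarith)).trans Metric.ball_subset_closedBall
    rw [measureReal_sdiff hsub measurableSet_ball (fin_closedBall y _),
      area_closedBall y (by linarith), area_ball y (by linarith)]
    nlinarith [mul_nonneg hpi.le (mul_nonneg hh hh)]

/-- **Lemma 6** -/
theorem specAnn : SpecAnn := by
  intro ι s A x K σ ρ ω y hH hK hσ hσ1 hρ hρ1 hω hA hp
  classical
  have hpi := Real.pi_pos
  have hn : (0 : ℝ) ≤ s.card := Nat.cast_nonneg _
  have hω0 : 0 < ω := lt_of_lt_of_le hσ hω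
  rcases le_or_gt 1 ω with hω1 | hω1
  · have h1 : (A.card : ℝ) ≤ s.card := by exact_mod_cast card_le_card hA
    have h2 : (1 : ℝ) ≤ 24 * K * ω := by nlinarith
    calc (A.card : ℝ) ≤ s.card := h1
      _ ≤ s.card * (24 * K * ω) := by nlinarith
      _ = 24 * K * s.card * ω := by ring
  set T : Set ℂ := Metric.closedBall y (ρ + (ω + σ)) \ Metric.ball y (ρ - (ω + σ)) with hT
  set c : ℝ := K * σ ^ 2 * s.card with hc
  have hc0 : 0 ≤ c := by positivity
  have hTm : MeasurableSet T := measurableSet_closedBall.diff measurableSet_ball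
  have hTfin : volume T ≠ ⊤ :=
    ne_top_of_le_ne_top (fin_closedBall y _) (measure_mono Set.sdiff_subset)
  have hball : ∀ p, Integrable ((Metric.closedBall (x p) σ).indicator fun _ => (1 : ℝ)) volume :=
    fun p => (integrable_indicator_iff measurableSet_closedBall).mpr
      (integrableOn_const (fin_closedBall (x p) σ))
  have hTi : Integrable (T.indicator fun _ => c) volume := by
    rw [integrable_indicator_iff hTm]
    exact integrableOn_const hTfin
  have hpt : ∀ z : ℂ, ∑ p ∈ A, (Metric.closedBall (x p) σ).indicator (fun _ => (1 : ℝ)) z ≤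
      T.indicator (fun _ => c) z := by
    intro z
    by_cases hz : z ∈ T
    · rw [Set.indicator_of_mem hz]
      have h1 : ∑ p ∈ A, (Metric.closedBall (x p) σ).indicator (fun _ => (1 : ℝ)) z =
          ((A.filter fun p => z ∈ Metric.closedBall (x p) σ).card : ℝ) := by
        rw [card_filter]
        push_cast
        exact sum_congr rfl fun p _ => by
          by_cases hh : z ∈ Metric.closedBall (x p) σ <;> simp [hh]
      rw [h1]
      have h2 : (A.filter fun p => z ∈ Metric.closedBall (x p) σ).card ≤ cnt s x z σ := by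
        unfold cnt
        apply card_le_card
        intro p hp'
        rw [mem_filter] at hp' ⊢
        refine ⟨hA hp'.1, ?_⟩
        have := hp'.2
        rw [Metric.mem_closedBall, dist_comm, dist_eq_norm] at this
        exact this
      have h3 := hH z σ le_rfl hσ1
      rw [Real.rpow_two] at h3
      calc _ ≤ (cnt s x z σ : ℝ) := by exact_mod_cast h2
        _ ≤ _ := h3
    · rw [Set.indicator_of_notMem hz]
      apply le_of_eq
      apply sum_eq_zero
      intro p hpA
      apply Set.indicator_of_notMem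
      intro hmem
      apply hz
      rw [Metric.mem_closedBall, dist_eq_norm] at hmem
      have h1 := abs_le.mp (hp p hpA)
      have h2 : ‖z - y‖ ≤ ‖z - x p‖ + ‖x p - y‖ := norm_sub_le_norm_sub_add_norm_sub _ _ _
      have h3 : ‖x p - y‖ ≤ ‖x p - z‖ + ‖z - y‖ := norm_sub_le_norm_sub_add_norm_sub _ _ _
      rw [norm_sub_rev (x p) z] at h3
      rw [hT]
      constructor
      · rw [Metric.mem_closedBall, dist_eq_norm]; linarith
      · rw [Metric.mem_ball, dist_eq_norm]; push Not; linarith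
  have hint := integral_mono (integrable_finsetSum A fun p _ => hball p) hTi hpt
  rw [integral_finsetSum A fun p _ => hball p] at hint
  simp only [integral_indicator_const _ measurableSet_closedBall, integral_indicator_const _ hTm,
    smul_eq_mul, mul_one] at hint
  rw [sum_congr rfl fun p _ => area_closedBall (x p) hσ.le, sum_const, nsmul_eq_mul] at hint
  have harea := area_ann y hρ (by linarith : 0 ≤ ω + σ)
  rw [← hT] at harea
  have h1 : (A.card : ℝ) * (π * σ ^ 2) ≤ (4 * π * (ρ + (ω + σ)) * (ω + σ)) * c :=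
    hint.trans (mul_le_mul_of_nonneg_right harea hc0)
  have h2 : 4 * π * (ρ + (ω + σ)) * (ω + σ) ≤ π * (24 * ω) := by
    have h3 : (ρ + (ω + σ)) * (ω + σ) ≤ 3 * (2 * ω) := by
      apply mul_le_mul <;> linarith
    nlinarith [mul_le_mul_of_nonneg_left h3 hpi.le]
  have h4 : (A.card : ℝ) * (π * σ ^ 2) ≤ (24 * K * s.card * ω) * (π * σ ^ 2) := by
    refine h1.trans ((mul_le_mul_of_nonneg_right h2 hc0).trans (le_of_eq ?_))
    rw [hc]; ring
  exact le_of_mul_le_mul_right h4 (by positivity)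

/-- **(6b)** -/
theorem specThird (hAnn : SpecAnn) : SpecThird := by
  intro ι s x K σ L δ p q hx hH hK hσ hσ1 hL hδ hδ1 hσδ
  classical
  set F : Finset (ι × ι × ι) := (NR s x L δ).filter (fun a => a.2.1 = p ∧ a.2.2 = q) with hF
  have hthird : third s x L δ p q = F.card := by
    unfold third
    congr 1
  set A : Finset ι := F.image Prod.fst with hAdef
  have hcard : F.card = A.card := by
    rw [hAdef, card_image_of_injOn]
    intro a ha b hb hab
    rw [hF, coe_filter, Set.mem_ofPred_eq] at ha hb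
    obtain ⟨_, ha1, ha2⟩ := ha
    obtain ⟨_, hb1, hb2⟩ := hb
    exact Prod.ext hab (Prod.ext (ha1.trans hb1.symm) (ha2.trans hb2.symm))
  have hmem : ∀ a ∈ A, a ∈ s ∧ p ∈ s ∧ q ∈ s ∧ L ≤ ‖x p - x a‖ ∧ L ≤ ‖x q - x a‖ ∧
      |ip (x p - x a) (x q - x a)| ≤ δ * ‖x p - x a‖ * ‖x q - x a‖ := by
    intro a ha
    rw [hAdef, mem_image] at ha
    obtain ⟨⟨a', p', q'⟩, hb, rfl⟩ := ha
    rw [hF, mem_filter] at hb
    obtain ⟨hb, hp', hq'⟩ := hb
    simp only at hp' hq'
    subst hp' hq'
    unfold NR at hb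
    rw [mem_filter, mem_product, mem_product] at hb
    exact ⟨hb.1.1, hb.1.2.1, hb.1.2.2, hb.2.1, hb.2.2.1, hb.2.2.2⟩
  rw [hthird, hcard]
  rcases A.eq_empty_or_nonempty with he | ⟨a₀, ha₀⟩
  · rw [he, card_empty, Nat.cast_zero]
    positivity
  obtain ⟨_, hps, hqs, _⟩ := hmem a₀ ha₀
  have hxp := hx p hps
  have hxq := hx q hqs
  apply hAnn ι s A x K σ (‖x p - x q‖ / 2) (16 * δ / L) ((x p + x q) / 2) hH hK hσ hσ1
    (by positivity) ?_ hσδ (fun a ha => (hmem a ha).1) ?_
  · have := norm_sub_le (x p) (x q)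
    linarith
  · intro a ha
    obtain ⟨has, _, _, hLp, hLq, hip⟩ := hmem a ha
    have hxa := hx a has
    set u := x p - x a with hu
    set v := x q - x a with hv
    have hu2 : ‖u‖ ≤ 2 := (norm_sub_le _ _).trans (by linarith)
    have hv2 : ‖v‖ ≤ 2 := (norm_sub_le _ _).trans (by linarith)
    have huv : x p - x q = u - v := by rw [hu, hv]; ring
    have hm : x a - (x p + x q) / 2 = -((u + v) / 2) := by rw [hu, hv]; ring
    have hu0 := norm_nonneg u
    have hv0 := norm_nonneg v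
    have hd : ‖u - v‖ ^ 2 = ‖u‖ ^ 2 + ‖v‖ ^ 2 - 2 * ip u v := by
      rw [← ip_self, ← ip_self, ← ip_self]
      simp only [ip, Complex.sub_re, Complex.sub_im]
      ring
    have hs : ‖u + v‖ ^ 2 = ‖u‖ ^ 2 + ‖v‖ ^ 2 + 2 * ip u v := by
      rw [← ip_self, ← ip_self, ← ip_self]
      simp only [ip, Complex.add_re, Complex.add_im]
      ring
    have hip' := abs_le.mp hip
    have hprod : ‖u‖ * ‖v‖ ≤ 4 := by nlinarith
    have hprod0 : 0 ≤ ‖u‖ * ‖v‖ := by positivity
    have hdL : L ≤ ‖u - v‖ := by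
      have h1 : L ^ 2 ≤ ‖u - v‖ ^ 2 := by
        rw [hd]
        have h2 : δ * ‖u‖ * ‖v‖ ≤ 1 / 2 * (‖u‖ * ‖v‖) := by
          rw [mul_assoc]; exact mul_le_mul_of_nonneg_right hδ1 hprod0
        nlinarith [sq_nonneg (‖u‖ - ‖v‖), mul_le_mul hLp hLq hL.le hu0]
      exact (pow_le_pow_iff_left₀ hL.le (norm_nonneg _) (by norm_num)).mp h1
    rw [huv, hm, norm_neg, norm_div, RCLike.norm_ofNat]
    have h4 : |(‖u + v‖ / 2) ^ 2 - (‖u - v‖ / 2) ^ 2| ≤ 4 * δ := by
      rw [div_pow, div_pow, hd, hs]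
      rw [show (‖u‖ ^ 2 + ‖v‖ ^ 2 + 2 * ip u v) / 2 ^ 2 - (‖u‖ ^ 2 + ‖v‖ ^ 2 - 2 * ip u v) / 2 ^ 2 =
        ip u v by ring]
      refine hip.trans ?_
      rw [mul_assoc]
      nlinarith
    have h5 : |‖u + v‖ / 2 - ‖u - v‖ / 2| * (‖u + v‖ / 2 + ‖u - v‖ / 2) ≤ 4 * δ := by
      refine le_trans (le_of_eq ?_) h4
      rw [show (‖u + v‖ / 2) ^ 2 - (‖u - v‖ / 2) ^ 2 =
        (‖u + v‖ / 2 - ‖u - v‖ / 2) * (‖u + v‖ / 2 + ‖u - v‖ / 2) by ring, abs_mul,
        abs_of_nonneg (by positivity : 0 ≤ ‖u + v‖ / 2 + ‖u - v‖ / 2)]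
    rw [le_div_iff₀ hL]
    have h6 : |‖u + v‖ / 2 - ‖u - v‖ / 2| * (L / 2) ≤
        |‖u + v‖ / 2 - ‖u - v‖ / 2| * (‖u + v‖ / 2 + ‖u - v‖ / 2) := by
      apply mul_le_mul_of_nonneg_left _ (abs_nonneg _)
      have := norm_nonneg (u + v)
      linarith
    nlinarith

end Pool.Agent.Lib.MP_cd3201_co.Dense.AnnM
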