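import Mathlib
import Pool.Agent.Lib.MP_cd3201_co.Defs
import Pool.Agent.Lib.MP_cd3201_co.Radii

/-!
# Distinct circumradii of sets of dimension larger than one: basic definitions

Paper: `/team-store/MP_cd3201_co_DENSE_h3.md`. All families of points are normalised to lie in the
closed unit disc of `ℂ`.
-/

open Finset MeasureTheory
open scoped Real

namespace Pool.Agent.Lib.MP_cd3201_co.Dense

/-- The real inner product on `ℂ`. -/
def ip (u v : ℂ) : ℝ := u.re * v.re + u.im * v.im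

/-- `e s = exp (2 π i s)`. -/
noncomputable def e (s : ℝ) : ℂ := Complex.exp (2 * π * s * Complex.I)

variable {ι : Type}

/-- The exponential sum `∑ c_p e(⟨x_p, ξ⟩)` with real coefficients. -/
noncomputable def B (s : Finset ι) (x : ι → ℂ) (c : ι → ℝ) (ξ : ℂ) : ℂ :=
  ∑ p ∈ s, (c p : ℂ) * e (ip (x p) ξ)

/-- `N ξ = |∑ e(⟨x_p, ξ⟩)|²`. -/
noncomputable def N (s : Finset ι) (x : ι → ℂ) (ξ : ℂ) : ℝ := ‖B s x (fun _ => 1) ξ‖ ^ 2

/-- The Gaussian energy `∑_{p,q} exp (- π |x_p - x_q|² / a)`. -/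
noncomputable def G (s : Finset ι) (x : ι → ℂ) (a : ℝ) : ℝ :=
  ∑ p ∈ s, ∑ q ∈ s, Real.exp (-(π * ‖x p - x q‖ ^ 2 / a))

/-- The number of points of the family in the closed disc with centre `y` and radius `ρ`. -/
noncomputable def cnt (s : Finset ι) (x : ι → ℂ) (y : ℂ) (ρ : ℝ) : ℕ := by
  classical exact (s.filter (fun p => ‖x p - y‖ ≤ ρ)).card

/-- Hypothesis `(H_t)`: a disc of radius `ρ ∈ [σ, 1]` contains at most `K ρ ^ t n` points. -/
def H (s : Finset ι) (x : ι → ℂ) (t K σ : ℝ) : Prop :=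
  ∀ y : ℂ, ∀ ρ : ℝ, σ ≤ ρ → ρ ≤ 1 → (cnt s x y ρ : ℝ) ≤ K * ρ ^ t * s.card

/-- The near right triples `(s, p, q)`, the (nearly) right angle being at `s`. -/
noncomputable def NR (s : Finset ι) (x : ι → ℂ) (L δ : ℝ) : Finset (ι × ι × ι) := by
  classical exact (s ×ˢ s ×ˢ s).filter (fun a => L ≤ ‖x a.2.1 - x a.1‖ ∧ L ≤ ‖x a.2.2 - x a.1‖ ∧
    |ip (x a.2.1 - x a.1) (x a.2.2 - x a.1)| ≤ δ * ‖x a.2.1 - x a.1‖ * ‖x a.2.2 - x a.1‖)

/-- The number of pairs whose distance is within `w` of `ρ`. -/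
noncomputable def win (s : Finset ι) (x : ι → ℂ) (ρ w : ℝ) : ℕ := by
  classical exact ((s ×ˢ s).filter (fun a => |‖x a.1 - x a.2‖ - ρ| ≤ w)).card

/-- The number of quadruples `(p, q, p', q')` whose distances differ by at most `w`. -/
noncomputable def quad (s : Finset ι) (x : ι → ℂ) (w : ℝ) : ℕ := by
  classical exact (((s ×ˢ s) ×ˢ (s ×ˢ s)).filter
    (fun a => |‖x a.1.1 - x a.1.2‖ - ‖x a.2.1 - x a.2.2‖| ≤ w)).card

/-- The largest allowed number of third points: `#{s : (s, p, q) ∈ NR}`. -/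
noncomputable def third (s : Finset ι) (x : ι → ℂ) (L δ : ℝ) (p q : ι) : ℕ := by
  classical exact ((NR s x L δ).filter (fun a => a.2.1 = p ∧ a.2.2 = q)).card

/-- The normalised embedding of the plane in `ℂ`: centre `z` goes to `0` and lengths are divided
by `D`. -/
noncomputable def emb (z : Plane) (D : ℝ) (p : Plane) : ℂ := ⟨(p 0 - z 0) / D, (p 1 - z 1) / D⟩

/-! ## Basic facts -/

lemma ip_eq_inner (u v : ℂ) : ip u v = inner ℝ u v := by
  simp [ip, Complex.inner, Complex.mul_re]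
  ring

lemma ip_self (u : ℂ) : ip u u = ‖u‖ ^ 2 := by
  rw [← Complex.normSq_eq_norm_sq, Complex.normSq_apply, ip]

lemma abs_ip_le (u v : ℂ) : |ip u v| ≤ ‖u‖ * ‖v‖ := by
  rw [ip_eq_inner]; exact abs_real_inner_le_norm u v

lemma norm_e (s : ℝ) : ‖e s‖ = 1 := by
  unfold e
  rw [show (2 * π * s * Complex.I : ℂ) = ((2 * π * s : ℝ) : ℂ) * Complex.I by push_cast; ring,
    Complex.norm_exp_ofReal_mul_I]

lemma e_add (a b : ℝ) : e (a + b) = e a * e b := by
  unfold e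
  rw [← Complex.exp_add]; congr 1; push_cast; ring

lemma e_zero : e 0 = 1 := by simp [e]

lemma e_neg (a : ℝ) : e (-a) = starRingEnd ℂ (e a) := by
  unfold e
  rw [← Complex.exp_conj]; congr 1
  have h2 : (starRingEnd ℂ) (2 : ℂ) = 2 := Complex.conj_ofNat 2
  simp [h2]

lemma continuous_e : Continuous e := by unfold e; fun_prop

lemma continuous_ip_left (v : ℂ) : Continuous (fun u => ip u v) := by unfold ip; fun_prop

lemma continuous_ip_right (u : ℂ) : Continuous (fun v => ip u v) := by unfold ip; fun_prop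

lemma ip_add_left (u u' v : ℂ) : ip (u + u') v = ip u v + ip u' v := by simp [ip]; ring
lemma ip_add_right (u v v' : ℂ) : ip u (v + v') = ip u v + ip u v' := by simp [ip]; ring
lemma ip_sub_left (u u' v : ℂ) : ip (u - u') v = ip u v - ip u' v := by simp [ip]; ring
lemma ip_sub_right (u v v' : ℂ) : ip u (v - v') = ip u v - ip u v' := by simp [ip]; ring
lemma ip_neg_left (u v : ℂ) : ip (-u) v = -ip u v := by simp [ip]; ring
lemma ip_neg_right (u v : ℂ) : ip u (-v) = -ip u v := by simp [ip]; ring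
lemma ip_comm (u v : ℂ) : ip u v = ip v u := by simp [ip]; ring

/-- rotation is self-adjoint up to inversion -/
lemma ip_rot (θ : ℝ) (u v : ℂ) :
    ip (Complex.exp (θ * Complex.I) * u) v = ip u (Complex.exp (-θ * Complex.I) * v) := by
  have h : Complex.exp (-θ * Complex.I) = starRingEnd ℂ (Complex.exp (θ * Complex.I)) := by
    rw [← Complex.exp_conj]; congr 1; simp
  rw [h]
  simp [ip, Complex.mul_re, Complex.mul_im]
  ring

lemma continuous_B (s : Finset ι) (x : ι → ℂ) (c : ι → ℝ) : Continuous (B s x c) := by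
  unfold B
  refine continuous_finsetSum _ fun p _ => ?_
  exact continuous_const.mul (continuous_e.comp (continuous_ip_right _))

lemma continuous_N (s : Finset ι) (x : ι → ℂ) : Continuous (N s x) := by
  unfold N
  exact (continuous_B s x _).norm.pow 2

lemma norm_B_le (s : Finset ι) (x : ι → ℂ) (c : ι → ℝ) (ξ : ℂ) : ‖B s x c ξ‖ ≤ ∑ p ∈ s, |c p| := by
  unfold B
  refine (norm_sum_le _ _).trans (sum_le_sum fun p _ => ?_)
  rw [norm_mul, norm_e, mul_one, Complex.norm_real, Real.norm_eq_abs]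

lemma N_nonneg (s : Finset ι) (x : ι → ℂ) (ξ : ℂ) : 0 ≤ N s x ξ := by unfold N; positivity

lemma N_le (s : Finset ι) (x : ι → ℂ) (ξ : ℂ) : N s x ξ ≤ (s.card : ℝ) ^ 2 := by
  unfold N
  have h := norm_B_le s x (fun _ => 1) ξ
  simp only [abs_one, sum_const, nsmul_eq_mul, mul_one] at h
  exact pow_le_pow_left₀ (norm_nonneg _) h 2

/-- `|B ξ|²` as a double sum. -/
lemma sq_norm_B (s : Finset ι) (x : ι → ℂ) (c : ι → ℝ) (ξ : ℂ) :
    ((‖B s x c ξ‖ ^ 2 : ℝ) : ℂ) = ∑ p ∈ s, ∑ q ∈ s, (c p * c q : ℝ) * e (ip (x p - x q) ξ) := by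
  rw [← Complex.normSq_eq_norm_sq, ← Complex.mul_conj]
  unfold B
  rw [map_sum, sum_mul_sum]
  refine sum_congr rfl fun p _ => sum_congr rfl fun q _ => ?_
  rw [map_mul, Complex.conj_ofReal, ← e_neg, ip_sub_left, sub_eq_add_neg, e_add]
  push_cast
  ring

/-- Gaussians on `ℂ` are integrable. -/
lemma integrable_gauss {a : ℝ} (ha : 0 < a) : Integrable (fun v : ℂ => Real.exp (-(a * ‖v‖ ^ 2))) := by
  have h := GaussianFourier.integrable_cexp_neg_mul_sq_norm_add (V := ℂ) (b := (a : ℂ))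
    (by simpa using ha) 0 0
  have h2 := h.norm
  refine h2.congr (Filter.Eventually.of_forall fun v => ?_)
  simp only [zero_mul, add_zero, Complex.norm_exp]
  congr 1
  rw [show (-(a : ℂ) * (‖v‖ : ℂ) ^ 2) = ((-(a * ‖v‖ ^ 2) : ℝ) : ℂ) by push_cast; ring,
    Complex.ofReal_re]

lemma integral_gauss {a : ℝ} (ha : 0 < a) : ∫ v : ℂ, Real.exp (-(a * ‖v‖ ^ 2)) = π / a := by
  have h := GaussianFourier.integral_rexp_neg_mul_sq_norm (V := ℂ) ha
  rw [Complex.finrank_real_complex] at h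
  norm_num at h
  rw [← h]

/-- translated Gaussians are integrable -/
lemma integrable_gauss_sub {a : ℝ} (ha : 0 < a) (y : ℂ) :
    Integrable (fun v : ℂ => Real.exp (-(a * ‖v - y‖ ^ 2))) :=
  (integrable_gauss ha).comp_sub_right y

/-- a Gaussian times a bounded continuous real function is integrable -/
lemma integrable_gauss_mul {a : ℝ} (ha : 0 < a) (y : ℂ) {f : ℂ → ℝ} (hf : Continuous f) {C : ℝ}
    (hC : ∀ v, |f v| ≤ C) : Integrable (fun v : ℂ => Real.exp (-(a * ‖v - y‖ ^ 2)) * f v) := by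
  refine (integrable_gauss_sub ha y).mul_bdd (c := C) hf.aestronglyMeasurable ?_
  exact Filter.Eventually.of_forall fun v => by simpa using hC v

lemma integrable_gauss_mulC {a : ℝ} (ha : 0 < a) (y : ℂ) {f : ℂ → ℂ} (hf : Continuous f) {C : ℝ}
    (hC : ∀ v, ‖f v‖ ≤ C) :
    Integrable (fun v : ℂ => (Real.exp (-(a * ‖v - y‖ ^ 2)) : ℂ) * f v) := by
  refine (integrable_gauss_sub ha y).ofReal.mul_bdd (c := C) hf.aestronglyMeasurable ?_
  exact Filter.Eventually.of_forall fun v => by simpa using hC v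

/-- **(3a)** the Fourier transform of a Gaussian. -/
theorem gauss_fourier {l : ℝ} (hl : 0 < l) (y : ℂ) :
    ∫ v : ℂ, (Real.exp (-(π * l * ‖v‖ ^ 2)) : ℂ) * e (ip v y) =
      ((1 / l * Real.exp (-(π * ‖y‖ ^ 2 / l)) : ℝ) : ℂ) := by
  have hpl : 0 < π * l := by positivity
  have h := GaussianFourier.integral_cexp_neg_mul_sq_norm_add (V := ℂ) (b := ((π * l : ℝ) : ℂ))
    (by simpa using hpl) (2 * π * Complex.I) y
  rw [Complex.finrank_real_complex] at h
  have e1 : ∀ v : ℂ, (Real.exp (-(π * l * ‖v‖ ^ 2)) : ℂ) * e (ip v y) =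
      Complex.exp (-((π * l : ℝ) : ℂ) * (‖v‖ : ℂ) ^ 2 + 2 * π * Complex.I * (inner ℝ y v : ℝ)) := by
    intro v
    rw [Complex.ofReal_exp, e, ← Complex.exp_add, ip_comm, ip_eq_inner]
    congr 1
    push_cast
    ring
  simp_rw [e1]
  rw [h]
  have hl' : (l : ℂ) ≠ 0 := by exact_mod_cast hl.ne'
  have hpi : (π : ℂ) ≠ 0 := by exact_mod_cast Real.pi_ne_zero
  have hI : (Complex.I) ^ 2 = -1 := Complex.I_sq
  have e2 : (π : ℂ) / ((π * l : ℝ) : ℂ) = (l : ℂ)⁻¹ := by
    push_cast; field_simp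
  have e3 : (2 * (π : ℂ) * Complex.I) ^ 2 * (‖y‖ : ℂ) ^ 2 / (4 * ((π * l : ℝ) : ℂ)) =
      -(π * ‖y‖ ^ 2 / l) := by
    push_cast
    rw [show (2 * (π : ℂ) * Complex.I) ^ 2 = 4 * π ^ 2 * Complex.I ^ 2 by ring, hI]
    field_simp
  rw [e2, e3]
  norm_num

end Pool.Agent.Lib.MP_cd3201_co.Dense
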