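import Pool.Agent.Lib.MP_cd3201_co.Dense.Spec

/-!
# Distinct circumradii: module Bessel (4a)

Van der Corput type bound for `∫ e (l cos (θ + φ))` by one integration by parts against
`sin / (sin² + κ²)`.
-/

set_option autoImplicit false

open Finset MeasureTheory
open scoped Real

namespace Pool.Agent.Lib.MP_cd3201_co.Dense.BesselM

/-- the weight `1 / (sin² + κ²)` -/
noncomputable def w (κ θ : ℝ) : ℝ := (Real.sin θ ^ 2 + κ ^ 2)⁻¹

lemma den_pos {κ : ℝ} (hκ : 0 < κ) (θ : ℝ) : 0 < Real.sin θ ^ 2 + κ ^ 2 := by positivity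

lemma w_pos {κ : ℝ} (hκ : 0 < κ) (θ : ℝ) : 0 < w κ θ := inv_pos.mpr (den_pos hκ θ)

lemma continuous_w {κ : ℝ} (hκ : 0 < κ) : Continuous (w κ) := by
  unfold w
  exact Continuous.inv₀ (by fun_prop) fun θ => (den_pos hκ θ).ne'

lemma w_periodic (κ : ℝ) : Function.Periodic (w κ) π := by
  intro θ
  unfold w
  rw [Real.sin_add_pi]
  congr 2
  ring

/-- `∫_{-π/2}^{π/2} 1/(x² + κ²) ≤ π / κ` -/
lemma int_lorentz {κ : ℝ} (hκ : 0 < κ) :
    ∫ x in (-(π / 2))..(π / 2), (x ^ 2 + κ ^ 2)⁻¹ ≤ π / κ := by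
  have hd : ∀ x ∈ Set.uIcc (-(π / 2)) (π / 2),
      HasDerivAt (fun x : ℝ => Real.arctan (x / κ) / κ) ((x ^ 2 + κ ^ 2)⁻¹) x := by
    intro x _
    have h1 : HasDerivAt (fun x : ℝ => x / κ) (1 / κ) x := (hasDerivAt_id x).div_const κ
    have h2 := (h1.arctan).div_const κ
    refine h2.congr_deriv ?_
    have h3 : (x ^ 2 + κ ^ 2) ≠ 0 := by positivity
    have h4 : 1 + (x / κ) ^ 2 ≠ 0 := by positivity
    field_simp
    ring
  have hi : IntervalIntegrable (fun x : ℝ => (x ^ 2 + κ ^ 2)⁻¹) volume (-(π / 2)) (π / 2) := by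
    apply Continuous.intervalIntegrable
    exact Continuous.inv₀ (by fun_prop) fun x => by positivity
  rw [intervalIntegral.integral_eq_sub_of_hasDerivAt hd hi, ← sub_div]
  apply div_le_div_of_nonneg_right _ hκ.le
  have h1 := Real.arctan_lt_pi_div_two (π / 2 / κ)
  have h2 := Real.neg_pi_div_two_lt_arctan (-(π / 2) / κ)
  linarith

lemma w_le {κ : ℝ} (hκ : 0 < κ) {x : ℝ} (hx : |x| ≤ π / 2) :
    w κ x ≤ π ^ 2 / 4 * (x ^ 2 + κ ^ 2)⁻¹ := by
  have h1 : 2 / π * |x| ≤ Real.sin |x| := by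
    have := Real.mul_le_sin (abs_nonneg x) hx
    exact this
  have h2 : (2 / π * |x|) ^ 2 ≤ Real.sin x ^ 2 := by
    have h3 : Real.sin |x| ^ 2 = Real.sin x ^ 2 := by
      rcases abs_cases x with ⟨h, _⟩ | ⟨h, _⟩ <;> rw [h]
      rw [Real.sin_neg]; ring
    rw [← h3]
    exact pow_le_pow_left₀ (by positivity) h1 2
  rw [mul_pow, sq_abs] at h2
  have hpi := Real.pi_gt_three
  have h4 : (2 / π) ^ 2 * κ ^ 2 ≤ κ ^ 2 := by
    have : (2 / π) ^ 2 ≤ 1 := by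
      rw [div_pow, div_le_one (by positivity)]
      nlinarith
    nlinarith [sq_nonneg κ]
  unfold w
  have h5 : (2 / π) ^ 2 * (x ^ 2 + κ ^ 2) ≤ Real.sin x ^ 2 + κ ^ 2 := by nlinarith
  have h6 : 0 < (2 / π) ^ 2 * (x ^ 2 + κ ^ 2) := by positivity
  calc (Real.sin x ^ 2 + κ ^ 2)⁻¹ ≤ ((2 / π) ^ 2 * (x ^ 2 + κ ^ 2))⁻¹ :=
        inv_anti₀ h6 h5
    _ = π ^ 2 / 4 * (x ^ 2 + κ ^ 2)⁻¹ := by
        rw [mul_inv]
        congr 1
        field_simp
        norm_num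

lemma int_w_period {κ : ℝ} (hκ : 0 < κ) :
    ∫ x in (-(π / 2))..(-(π / 2) + π), w κ x ≤ π ^ 3 / 4 / κ := by
  have e : -(π / 2) + π = π / 2 := by ring
  rw [e]
  have hpi := Real.pi_pos
  have h1 : ∫ x in (-(π / 2))..(π / 2), w κ x ≤
      ∫ x in (-(π / 2))..(π / 2), π ^ 2 / 4 * (x ^ 2 + κ ^ 2)⁻¹ := by
    apply intervalIntegral.integral_mono_on (by linarith)
    · exact (continuous_w hκ).intervalIntegrable _ _
    · apply Continuous.intervalIntegrable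
      exact continuous_const.mul (Continuous.inv₀ (by fun_prop) fun x => by positivity)
    · intro x hx
      exact w_le hκ (abs_le.mpr ⟨hx.1, hx.2⟩)
  rw [intervalIntegral.integral_const_mul] at h1
  have h2 := mul_le_mul_of_nonneg_left (int_lorentz hκ) (by positivity : 0 ≤ π ^ 2 / 4)
  calc _ ≤ _ := h1
    _ ≤ _ := h2
    _ = π ^ 3 / 4 / κ := by ring

lemma int_w {κ : ℝ} (hκ : 0 < κ) (a : ℝ) :
    ∫ x in a..(a + 16), w κ x ≤ 3 * π ^ 3 / 2 / κ := by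
  have hpi := Real.pi_gt_three
  have hint : ∀ s t : ℝ, IntervalIntegrable (w κ) volume s t :=
    fun s t => (continuous_w hκ).intervalIntegrable s t
  have h1 : ∫ x in a..(a + 16), w κ x ≤ ∫ x in a..(a + (6 : ℤ) • π), w κ x := by
    apply intervalIntegral.integral_mono_interval le_rfl (by linarith)
    · simp only [zsmul_eq_mul]; push_cast; linarith
    · exact Filter.Eventually.of_forall fun x => (w_pos hκ x).le
    · exact hint _ _
  rw [(w_periodic κ).intervalIntegral_add_zsmul_eq 6 a hint,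
    (w_periodic κ).intervalIntegral_add_eq a (-(π / 2))] at h1
  have h2 := int_w_period hκ
  simp only [zsmul_eq_mul] at h1
  push_cast at h1
  calc _ ≤ _ := h1
    _ ≤ 6 * (π ^ 3 / 4 / κ) := by linarith
    _ = _ := by ring

/-- `F θ = exp (i Λ cos θ)` -/
noncomputable def F (Λ θ : ℝ) : ℂ := Complex.exp ((Λ * Real.cos θ : ℝ) * Complex.I)

lemma norm_F (Λ θ : ℝ) : ‖F Λ θ‖ = 1 := Complex.norm_exp_ofReal_mul_I _

lemma continuous_F (Λ : ℝ) : Continuous (F Λ) := by unfold F; fun_prop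

lemma hasDerivAt_F (Λ θ : ℝ) :
    HasDerivAt (F Λ) (F Λ θ * ((-(Λ * Real.sin θ) : ℝ) * Complex.I)) θ := by
  have h1 : HasDerivAt (fun θ : ℝ => Λ * Real.cos θ) (-(Λ * Real.sin θ)) θ := by
    exact ((Real.hasDerivAt_cos θ).const_mul Λ).congr_deriv (by ring)
  have h2 : HasDerivAt (fun θ : ℝ => ((Λ * Real.cos θ : ℝ) : ℂ)) ((-(Λ * Real.sin θ) : ℝ) : ℂ) θ :=
    h1.ofReal_comp
  exact (h2.mul_const Complex.I).cexp

/-- `g = sin / (sin² + κ²)` -/
noncomputable def g (κ θ : ℝ) : ℝ := Real.sin θ * w κ θ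

/-- its derivative -/
noncomputable def g' (κ θ : ℝ) : ℝ := Real.cos θ * (κ ^ 2 - Real.sin θ ^ 2) * w κ θ ^ 2

lemma hasDerivAt_g {κ : ℝ} (hκ : 0 < κ) (θ : ℝ) : HasDerivAt (g κ) (g' κ θ) θ := by
  have hs := Real.hasDerivAt_sin θ
  have hd : HasDerivAt (fun θ : ℝ => Real.sin θ ^ 2 + κ ^ 2) (2 * Real.sin θ * Real.cos θ) θ := by
    exact ((hs.pow 2).add_const (κ ^ 2)).congr_deriv (by norm_num)
  have hw : HasDerivAt (w κ) (-(2 * Real.sin θ * Real.cos θ) / (Real.sin θ ^ 2 + κ ^ 2) ^ 2) θ :=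
    hd.inv (den_pos hκ θ).ne'
  refine (hs.mul hw).congr_deriv ?_
  unfold g' w
  have h0 := (den_pos hκ θ).ne'
  field_simp
  ring

lemma continuous_g' {κ : ℝ} (hκ : 0 < κ) : Continuous (g' κ) := by
  unfold g'
  have := continuous_w hκ
  fun_prop

lemma abs_g_le {κ : ℝ} (hκ : 0 < κ) (θ : ℝ) : |g κ θ| ≤ 1 / (2 * κ) := by
  unfold g w
  have h := den_pos hκ θ
  rw [abs_mul, abs_of_pos (inv_pos.mpr h), ← div_eq_mul_inv, div_le_div_iff₀ h (by positivity)]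
  nlinarith [sq_nonneg (|Real.sin θ| - κ), sq_abs (Real.sin θ)]

lemma abs_g'_le {κ : ℝ} (hκ : 0 < κ) (θ : ℝ) : |g' κ θ| ≤ w κ θ := by
  unfold g'
  have hw := w_pos hκ θ
  have h1 : |κ ^ 2 - Real.sin θ ^ 2| * w κ θ ≤ 1 := by
    have : |κ ^ 2 - Real.sin θ ^ 2| ≤ Real.sin θ ^ 2 + κ ^ 2 := by
      rw [abs_le]; constructor <;> nlinarith [sq_nonneg (Real.sin θ), sq_nonneg κ]
    calc _ ≤ (Real.sin θ ^ 2 + κ ^ 2) * w κ θ := mul_le_mul_of_nonneg_right this hw.le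
      _ = 1 := mul_inv_cancel₀ (den_pos hκ θ).ne'
  rw [abs_mul, abs_mul, abs_of_pos (by positivity : 0 < w κ θ ^ 2)]
  calc |Real.cos θ| * |κ ^ 2 - Real.sin θ ^ 2| * w κ θ ^ 2
      = |Real.cos θ| * (|κ ^ 2 - Real.sin θ ^ 2| * w κ θ) * w κ θ := by ring
    _ ≤ 1 * 1 * w κ θ := by
        apply mul_le_mul_of_nonneg_right _ hw.le
        exact mul_le_mul (Real.abs_cos_le_one θ) h1 (by positivity) zero_le_one
    _ = w κ θ := by ring

/-- the identity behind the integration by parts -/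
lemma split {κ Λ : ℝ} (hκ : 0 < κ) (hΛ : 0 < Λ) (θ : ℝ) :
    F Λ θ = (Complex.I / Λ) * (F Λ θ * ((-(Λ * Real.sin θ) : ℝ) * Complex.I) * (g κ θ : ℂ)
      + F Λ θ * (g' κ θ : ℂ)) - (Complex.I / Λ) * (F Λ θ * (g' κ θ : ℂ))
      + F Λ θ * ((κ ^ 2 * w κ θ : ℝ) : ℂ) := by
  have h1 : (Real.sin θ ^ 2 + κ ^ 2) * w κ θ = 1 := mul_inv_cancel₀ (den_pos hκ θ).ne'
  have h2 : ((Real.sin θ : ℂ) ^ 2 + (κ : ℂ) ^ 2) * (w κ θ : ℂ) = 1 := by exact_mod_cast h1
  have hΛ' : (Λ : ℂ) ≠ 0 := by exact_mod_cast hΛ.ne'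
  have hI : Complex.I * Complex.I = -1 := Complex.I_mul_I
  have h3 : (Complex.I / Λ) * (F Λ θ * ((-(Λ * Real.sin θ) : ℝ) * Complex.I) * (g κ θ : ℂ)) =
      F Λ θ * ((Real.sin θ : ℂ) ^ 2 * (w κ θ : ℂ)) := by
    unfold g
    push_cast
    field_simp
    rw [show Complex.I ^ 2 = -1 from Complex.I_sq]
    ring
  rw [mul_add, h3]
  have h5 : ((κ ^ 2 * w κ θ : ℝ) : ℂ) = (κ : ℂ) ^ 2 * (w κ θ : ℂ) := by push_cast; ring
  rw [h5]
  linear_combination (-(F Λ θ)) * h2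

lemma main_bound {Λ : ℝ} (hΛ : 0 < Λ) (a : ℝ) :
    ‖∫ θ in a..(a + 16), F Λ θ‖ ≤ (1 + 3 * π ^ 3) / √Λ := by
  set κ : ℝ := 1 / √Λ with hκdef
  have hs : 0 < √Λ := Real.sqrt_pos.mpr hΛ
  have hκ : 0 < κ := by positivity
  have hκ2 : κ ^ 2 = 1 / Λ := by rw [hκdef, div_pow, Real.sq_sqrt hΛ.le, one_pow]
  have hgc : Continuous (g κ) := by
    unfold g
    exact Real.continuous_sin.mul (continuous_w hκ)
  have hF := continuous_F Λ
  have hg' := continuous_g' hκ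
  have hw := continuous_w hκ
  have c1 : Continuous (fun θ : ℝ => F Λ θ * ((-(Λ * Real.sin θ) : ℝ) * Complex.I) * (g κ θ : ℂ)
      + F Λ θ * (g' κ θ : ℂ)) := by
    have h2 : Continuous (fun θ : ℝ => (g κ θ : ℂ)) := Complex.continuous_ofReal.comp hgc
    have h3 : Continuous (fun θ : ℝ => (g' κ θ : ℂ)) := Complex.continuous_ofReal.comp hg'
    have h4 : Continuous (fun θ : ℝ => ((-(Λ * Real.sin θ) : ℝ) * Complex.I : ℂ)) := by fun_prop
    exact ((hF.mul h4).mul h2).add (hF.mul h3)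
  have c2 : Continuous (fun θ : ℝ => F Λ θ * (g' κ θ : ℂ)) :=
    hF.mul (Complex.continuous_ofReal.comp hg')
  have c3 : Continuous (fun θ : ℝ => F Λ θ * ((κ ^ 2 * w κ θ : ℝ) : ℂ)) :=
    hF.mul (Complex.continuous_ofReal.comp (continuous_const.mul hw))
  have hpar : ∫ θ in a..(a + 16), (F Λ θ * ((-(Λ * Real.sin θ) : ℝ) * Complex.I) * (g κ θ : ℂ)
      + F Λ θ * (g' κ θ : ℂ)) = F Λ (a + 16) * (g κ (a + 16) : ℂ) - F Λ a * (g κ a : ℂ) := by
    apply intervalIntegral.integral_eq_sub_of_hasDerivAt (f := fun θ => F Λ θ * (g κ θ : ℂ))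
    · intro θ _
      exact (hasDerivAt_F Λ θ).mul (hasDerivAt_g hκ θ).ofReal_comp
    · exact c1.intervalIntegrable _ _
  have hsplit : ∫ θ in a..(a + 16), F Λ θ =
      (Complex.I / Λ) * (F Λ (a + 16) * (g κ (a + 16) : ℂ) - F Λ a * (g κ a : ℂ))
      - (Complex.I / Λ) * (∫ θ in a..(a + 16), F Λ θ * (g' κ θ : ℂ))
      + (∫ θ in a..(a + 16), F Λ θ * ((κ ^ 2 * w κ θ : ℝ) : ℂ)) := by
    rw [← hpar, ← intervalIntegral.integral_const_mul, ← intervalIntegral.integral_const_mul,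
      ← intervalIntegral.integral_sub, ← intervalIntegral.integral_add]
    · exact intervalIntegral.integral_congr fun θ _ => split hκ hΛ θ
    · exact ((continuous_const.mul c1).sub (continuous_const.mul c2)).intervalIntegrable _ _
    · exact c3.intervalIntegrable _ _
    · exact (continuous_const.mul c1).intervalIntegrable _ _
    · exact (continuous_const.mul c2).intervalIntegrable _ _
  have hIW := int_w hκ a
  have n1 : ‖F Λ (a + 16) * (g κ (a + 16) : ℂ) - F Λ a * (g κ a : ℂ)‖ ≤ 1 / κ := by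
    refine (norm_sub_le _ _).trans ?_
    rw [norm_mul, norm_mul, norm_F, norm_F, one_mul, one_mul, Complex.norm_real, Complex.norm_real,
      Real.norm_eq_abs, Real.norm_eq_abs]
    have e1 := abs_g_le hκ (a + 16)
    have e2 := abs_g_le hκ a
    have e3 : 1 / (2 * κ) + 1 / (2 * κ) = 1 / κ := by field_simp; norm_num
    linarith
  have n2 : ‖∫ θ in a..(a + 16), F Λ θ * (g' κ θ : ℂ)‖ ≤ 3 * π ^ 3 / 2 / κ := by
    refine le_trans ?_ hIW
    apply intervalIntegral.norm_integral_le_of_norm_le (by linarith)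
    · refine Filter.Eventually.of_forall fun θ _ => ?_
      rw [norm_mul, norm_F, one_mul, Complex.norm_real, Real.norm_eq_abs]
      exact abs_g'_le hκ θ
    · exact hw.intervalIntegrable _ _
  have n3 : ‖∫ θ in a..(a + 16), F Λ θ * ((κ ^ 2 * w κ θ : ℝ) : ℂ)‖ ≤
      κ ^ 2 * (3 * π ^ 3 / 2 / κ) := by
    have e1 : ‖∫ θ in a..(a + 16), F Λ θ * ((κ ^ 2 * w κ θ : ℝ) : ℂ)‖ ≤
        ∫ θ in a..(a + 16), κ ^ 2 * w κ θ := by
      apply intervalIntegral.norm_integral_le_of_norm_le (by linarith)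
      · refine Filter.Eventually.of_forall fun θ _ => ?_
        rw [norm_mul, norm_F, one_mul, Complex.norm_real, Real.norm_eq_abs,
          abs_of_pos (mul_pos (by positivity) (w_pos hκ θ))]
      · exact (continuous_const.mul hw).intervalIntegrable _ _
    rw [intervalIntegral.integral_const_mul] at e1
    exact e1.trans (mul_le_mul_of_nonneg_left hIW (by positivity))
  have nI : ‖(Complex.I / Λ : ℂ)‖ = 1 / Λ := by
    rw [norm_div, Complex.norm_I, Complex.norm_real, Real.norm_eq_abs, abs_of_pos hΛ]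
  rw [hsplit]
  have hfin : ‖(Complex.I / Λ) * (F Λ (a + 16) * (g κ (a + 16) : ℂ) - F Λ a * (g κ a : ℂ))
      - (Complex.I / Λ) * (∫ θ in a..(a + 16), F Λ θ * (g' κ θ : ℂ))
      + (∫ θ in a..(a + 16), F Λ θ * ((κ ^ 2 * w κ θ : ℝ) : ℂ))‖ ≤
      1 / Λ * (1 / κ) + 1 / Λ * (3 * π ^ 3 / 2 / κ) + κ ^ 2 * (3 * π ^ 3 / 2 / κ) := by
    refine (norm_add_le _ _).trans (add_le_add ((norm_sub_le _ _).trans (add_le_add ?_ ?_)) n3)
    · rw [norm_mul, nI]
      exact mul_le_mul_of_nonneg_left n1 (by positivity)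
    · rw [norm_mul, nI]
      exact mul_le_mul_of_nonneg_left n2 (by positivity)
  refine hfin.trans (le_of_eq ?_)
  rw [hκ2]
  have e1 : 1 / κ = √Λ := by rw [hκdef, one_div_one_div]
  have e2 : 3 * π ^ 3 / 2 / κ = 3 * π ^ 3 / 2 * √Λ := by rw [div_eq_mul_one_div _ κ, e1]
  rw [e1, e2]
  have e3 : 1 / Λ * √Λ = 1 / √Λ := by
    rw [div_mul_eq_mul_div, one_mul, div_eq_div_iff hΛ.ne' hs.ne', one_mul, Real.mul_self_sqrt hΛ.le]
  calc 1 / Λ * √Λ + 1 / Λ * (3 * π ^ 3 / 2 * √Λ) + 1 / Λ * (3 * π ^ 3 / 2 * √Λ)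
      = (1 + 3 * π ^ 3) * (1 / Λ * √Λ) := by ring
    _ = (1 + 3 * π ^ 3) / √Λ := by rw [e3]; ring

/-- **(4a)** -/
theorem specBessel : SpecBessel := by
  have hpi := Real.pi_pos
  refine ⟨1 + 3 * π ^ 3, by positivity, fun l φ hl _ => ?_⟩
  have h1 : ∫ θ in (-8 : ℝ)..8, e (l * Real.cos (θ + φ)) =
      ∫ θ in (-8 + φ)..(-8 + φ + 16), F (2 * π * l) θ := by
    have h2 : ∀ θ : ℝ, e (l * Real.cos (θ + φ)) = F (2 * π * l) (θ + φ) := by
      intro θ
      unfold e F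
      congr 1
      push_cast
      ring
    simp_rw [h2]
    rw [intervalIntegral.integral_comp_add_right (fun θ => F (2 * π * l) θ) φ]
    congr 1
    ring
  rw [h1]
  refine (main_bound (by positivity) _).trans ?_
  apply div_le_div_of_nonneg_left (by positivity) (Real.sqrt_pos.mpr hl)
  apply Real.sqrt_le_sqrt
  nlinarith [Real.pi_gt_three]

end Pool.Agent.Lib.MP_cd3201_co.Dense.BesselM
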