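import Pool.Agent.Lib.MP_cd3201_co.Dense.Spec

/-!
# Module Circ: lower bound for Gaussian circle averages, (4b)
-/

open Finset MeasureTheory
open scoped Real

namespace Pool.Agent.Lib.MP_cd3201_co.Dense.CircM

/-- chord length -/
lemma chord (a b : ℝ) : ‖Complex.exp (a * Complex.I) - Complex.exp (b * Complex.I)‖ ≤ |a - b| := by
  have h1 : Complex.exp (a * Complex.I) - Complex.exp (b * Complex.I) =
      Complex.exp (b * Complex.I) * (Complex.exp (Complex.I * ((a - b : ℝ) : ℂ)) - 1) := by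
    rw [mul_sub, ← Complex.exp_add, mul_one]
    congr 2
    push_cast
    ring
  rw [h1, norm_mul, Complex.norm_exp_ofReal_mul_I, one_mul]
  exact Real.norm_exp_I_mul_ofReal_sub_one_le

/-- the distance along the rotated point -/
lemma dist_rot (ξ y : ℂ) (θ : ℝ) :
    ‖y - Complex.exp (θ * Complex.I) * ξ‖ ≤
      |θ - (Complex.arg y - Complex.arg ξ)| * ‖ξ‖ + |‖y‖ - ‖ξ‖| := by
  set θ₀ : ℝ := Complex.arg y - Complex.arg ξ with hθ₀
  have e1 : Complex.exp (θ₀ * Complex.I) * ξ = (‖ξ‖ : ℂ) * Complex.exp (Complex.arg y * Complex.I) := by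
    conv_lhs => rw [← Complex.norm_mul_exp_arg_mul_I ξ]
    rw [mul_left_comm, ← Complex.exp_add]
    congr 2
    rw [hθ₀]; push_cast; ring
  have e2 : y - Complex.exp (θ₀ * Complex.I) * ξ =
      ((‖y‖ - ‖ξ‖ : ℝ) : ℂ) * Complex.exp (Complex.arg y * Complex.I) := by
    have e5 : y = (‖y‖ : ℂ) * Complex.exp (Complex.arg y * Complex.I) :=
      (Complex.norm_mul_exp_arg_mul_I y).symm
    rw [e1]
    calc y - (‖ξ‖ : ℂ) * Complex.exp (Complex.arg y * Complex.I)
        = (‖y‖ : ℂ) * Complex.exp (Complex.arg y * Complex.I) -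
          (‖ξ‖ : ℂ) * Complex.exp (Complex.arg y * Complex.I) := by rw [← e5]
      _ = _ := by push_cast; ring
  have e3 : ‖y - Complex.exp (θ₀ * Complex.I) * ξ‖ = |‖y‖ - ‖ξ‖| := by
    rw [e2, norm_mul, Complex.norm_exp_ofReal_mul_I, mul_one, Complex.norm_real, Real.norm_eq_abs]
  have e4 : y - Complex.exp (θ * Complex.I) * ξ =
      (y - Complex.exp (θ₀ * Complex.I) * ξ) -
        (Complex.exp (θ * Complex.I) - Complex.exp (θ₀ * Complex.I)) * ξ := by ring
  rw [e4]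
  refine (norm_sub_le _ _).trans ?_
  rw [e3, norm_mul, add_comm]
  gcongr
  exact chord _ _

theorem specCirc : SpecCirc := by
  intro ξ y h A hh hh1 hA
  set θ₀ : ℝ := Complex.arg y - Complex.arg ξ with hθ₀
  set c : ℝ := Real.exp (-(A * (h * ‖ξ‖ + |‖y‖ - ‖ξ‖|) ^ 2)) with hc
  set f : ℝ → ℝ := fun θ => Real.exp (-(A * ‖y - Complex.exp (θ * Complex.I) * ξ‖ ^ 2)) with hf
  have hcont : Continuous f := by
    rw [hf]; fun_prop
  have hpi := Real.pi_lt_d2
  have hy1 := Complex.arg_le_pi y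
  have hy2 := Complex.neg_pi_lt_arg y
  have hx1 := Complex.arg_le_pi ξ
  have hx2 := Complex.neg_pi_lt_arg ξ
  have h1 : (-8 : ℝ) ≤ θ₀ - h := by rw [hθ₀]; linarith
  have h2 : θ₀ + h ≤ 8 := by rw [hθ₀]; linarith
  have h3 : θ₀ - h ≤ θ₀ + h := by linarith
  have s1 : ∫ θ in (θ₀ - h)..(θ₀ + h), f θ ≤ ∫ θ in (-8 : ℝ)..8, f θ := by
    refine intervalIntegral.integral_mono_interval h1 h3 h2 ?_ (hcont.intervalIntegrable _ _)
    exact Filter.Eventually.of_forall fun θ => (Real.exp_pos _).le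
  have s2 : ∫ _θ in (θ₀ - h)..(θ₀ + h), c ≤ ∫ θ in (θ₀ - h)..(θ₀ + h), f θ := by
    refine intervalIntegral.integral_mono_on h3 (by simp) (hcont.intervalIntegrable _ _) ?_
    intro θ hθ
    rw [hc, hf]
    refine Real.exp_le_exp.2 (neg_le_neg ?_)
    refine mul_le_mul_of_nonneg_left ?_ hA
    refine pow_le_pow_left₀ (norm_nonneg _) ?_ 2
    refine (dist_rot ξ y θ).trans ?_
    have : |θ - (Complex.arg y - Complex.arg ξ)| ≤ h := by
      rw [← hθ₀, abs_le]; constructor <;> linarith [hθ.1, hθ.2]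
    gcongr
  have s3 : ∫ _θ in (θ₀ - h)..(θ₀ + h), c = 2 * h * c := by
    rw [intervalIntegral.integral_const, smul_eq_mul]; ring
  calc 2 * h * c = ∫ _θ in (θ₀ - h)..(θ₀ + h), c := s3.symm
    _ ≤ _ := s2
    _ ≤ _ := s1

end Pool.Agent.Lib.MP_cd3201_co.Dense.CircM
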