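import Pool.Agent.Lib.MP_cd3201_co.Dense.Spec

/-!
# Distinct circumradii, dimension larger than one: module Count, (1d)
-/

set_option autoImplicit false

open Finset

namespace Pool.Agent.Lib.MP_cd3201_co.Dense.CountM

lemma emb_dist (z : Plane) {D : ℝ} (hD : 0 < D) (p q : Plane) :
    ‖emb z D p - emb z D q‖ = dist p q / D := by
  have h1 : ‖emb z D p - emb z D q‖ ^ 2 = (dist p q / D) ^ 2 := by
    rw [← Complex.normSq_eq_norm_sq, Complex.normSq_apply, div_pow,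
      EuclideanSpace.dist_eq, Real.sq_sqrt (by positivity), Fin.sum_univ_two]
    simp only [emb, Complex.sub_re, Complex.sub_im, Real.dist_eq, sq_abs]
    field_simp
    ring
  exact (pow_left_inj₀ (norm_nonneg _) (by positivity) (by norm_num)).1 h1

lemma mem_NR {ι : Type} {s : Finset ι} {x : ι → ℂ} {L δ : ℝ} {a : ι × ι × ι} :
    a ∈ NR s x L δ ↔ (a.1 ∈ s ∧ a.2.1 ∈ s ∧ a.2.2 ∈ s) ∧ L ≤ ‖x a.2.1 - x a.1‖ ∧
      L ≤ ‖x a.2.2 - x a.1‖ ∧
      |ip (x a.2.1 - x a.1) (x a.2.2 - x a.1)| ≤ δ * ‖x a.2.1 - x a.1‖ * ‖x a.2.2 - x a.1‖ := by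
  unfold NR
  rw [mem_filter, mem_product, mem_product]

open Classical in
/-- The circumradius of a triple. -/
noncomputable def rad (a : Plane × Plane × Plane) : ℝ :=
  if h : ∃ r, IsCircumradius {a.2.1, a.2.2, a.1} r then h.choose else 0

lemma norm_sub_sq (u v : ℂ) : ‖u - v‖ ^ 2 = ‖u‖ ^ 2 + ‖v‖ ^ 2 - 2 * ip u v := by
  rw [← ip_self, ← ip_self, ← ip_self]
  simp only [ip, Complex.sub_re, Complex.sub_im]
  ring

/-- Everything about one near right triple. -/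
lemma facts (hF : SpecFold) {P : Finset Plane} {z : Plane} {D L δ : ℝ} (hP : GeneralPosition P)
    (hD : 0 < D) (hx : ∀ p ∈ P, ‖emb z D p‖ ≤ 1) (hL : 0 < L) (hδ : 0 ≤ δ) (hδ' : δ ≤ 1 / 2)
    {a : Plane × Plane × Plane} (ha : a ∈ NR P (emb z D) L δ) :
    a.1 ∈ P ∧ a.2.1 ∈ P ∧ a.2.2 ∈ P ∧ a.1 ≠ a.2.1 ∧ a.1 ≠ a.2.2 ∧ a.2.1 ≠ a.2.2 ∧
      IsCircumradius {a.2.1, a.2.2, a.1} (rad a) ∧ rad a ∈ radii P ∧
      L ≤ ‖emb z D a.2.1 - emb z D a.2.2‖ ∧ ‖emb z D a.2.1 - emb z D a.2.2‖ ≤ 2 ∧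
      ‖emb z D a.2.1 - emb z D a.2.2‖ ≤ 2 * rad a / D ∧
      2 * rad a / D ≤ (1 + δ ^ 2) * ‖emb z D a.2.1 - emb z D a.2.2‖ := by
  rw [mem_NR] at ha
  obtain ⟨⟨hs, hp, hq⟩, h1, h2, h3⟩ := ha
  have hu : 0 < ‖emb z D a.2.1 - emb z D a.1‖ := hL.trans_le h1
  have hv : 0 < ‖emb z D a.2.2 - emb z D a.1‖ := hL.trans_le h2
  have n1 : a.1 ≠ a.2.1 := by
    intro h
    rw [← h, sub_self, norm_zero] at hu
    exact lt_irrefl _ hu
  have n2 : a.1 ≠ a.2.2 := by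
    intro h
    rw [← h, sub_self, norm_zero] at hv
    exact lt_irrefl _ hv
  have n3 : a.2.1 ≠ a.2.2 := by
    intro h
    rw [← h, ip_self, abs_of_nonneg (by positivity)] at h3
    nlinarith [mul_pos hu hu]
  have hc3 : ({a.2.1, a.2.2, a.1} : Finset Plane).card = 3 := by
    rw [card_eq_three]
    exact ⟨_, _, _, n3, n1.symm, n2.symm, rfl⟩
  have hsub : ({a.2.1, a.2.2, a.1} : Finset Plane) ⊆ P := by
    intro x hx
    simp only [mem_insert, mem_singleton] at hx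
    rcases hx with rfl | rfl | rfl
    · exact hp
    · exact hq
    · exact hs
  have hex : ∃ r, IsCircumradius {a.2.1, a.2.2, a.1} r :=
    exists_circumradius hc3 (hP.1 _ hsub hc3)
  have hr : IsCircumradius {a.2.1, a.2.2, a.1} (rad a) := by
    unfold rad
    rw [dif_pos hex]
    exact hex.choose_spec
  have hrr : rad a ∈ radii P := ⟨_, hsub, hc3, hr⟩
  set u := emb z D a.2.1 - emb z D a.1 with hu'
  set v := emb z D a.2.2 - emb z D a.1 with hv'
  have huv : emb z D a.2.1 - emb z D a.2.2 = u - v := by rw [hu', hv']; ring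
  have hd2 : L ^ 2 ≤ ‖emb z D a.2.1 - emb z D a.2.2‖ ^ 2 := by
    rw [huv, norm_sub_sq]
    have h4 := (abs_le.1 h3).2
    have h5 : δ * ‖u‖ * ‖v‖ ≤ 1 / 2 * (‖u‖ * ‖v‖) := by
      rw [mul_assoc]
      exact mul_le_mul_of_nonneg_right hδ' (by positivity)
    have h6 : L ^ 2 ≤ ‖u‖ ^ 2 := pow_le_pow_left₀ hL.le h1 2
    have h7 : L ^ 2 ≤ ‖v‖ ^ 2 := pow_le_pow_left₀ hL.le h2 2
    nlinarith [sq_nonneg (‖u‖ - ‖v‖)]
  have hdL : L ≤ ‖emb z D a.2.1 - emb z D a.2.2‖ :=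
    (pow_le_pow_iff_left₀ hL.le (norm_nonneg _) (by norm_num)).1 hd2
  have hd : ‖emb z D a.2.1 - emb z D a.2.2‖ ≤ 2 := by
    have := norm_sub_le (emb z D a.2.1) (emb z D a.2.2)
    have h4 := hx _ hp
    have h5 := hx _ hq
    linarith
  obtain ⟨w, hw⟩ := hr
  have hfold := hF (emb z D a.1) (emb z D a.2.1) (emb z D a.2.2) (emb z D w) (rad a / D) δ
    (by rw [emb_dist z hD, hw _ (by simp)]) (by rw [emb_dist z hD, hw _ (by simp)])
    (by rw [emb_dist z hD, hw _ (by simp)]) hδ (by nlinarith) hu hv h3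
  refine ⟨hs, hp, hq, n1, n2, n3, ⟨w, hw⟩, hrr, hdL, hd, ?_, ?_⟩
  · rw [mul_div_assoc]
    exact hfold.1
  · rw [mul_div_assoc]
    exact hfold.2

lemma facts_win {L δ d ρ : ℝ} (hδ : 0 ≤ δ) (hδ' : δ ≤ 1 / 2) (hL : L ≤ d)
    (hL0 : 0 < L) (hd : d ≤ 2) (h1 : d ≤ ρ) (h2 : ρ ≤ (1 + δ ^ 2) * d) :
    L / 2 ≤ ρ ∧ ρ ≤ 4 ∧ |d - ρ| ≤ 2 * δ ^ 2 := by
  have hδ2 : δ ^ 2 ≤ 1 / 4 := by nlinarith
  refine ⟨by linarith, by nlinarith, ?_⟩
  rw [abs_le]
  constructor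
  · nlinarith [sq_nonneg δ]
  · nlinarith [sq_nonneg δ]

open Classical in
lemma fiber_two (hF : SpecFold) (hT : SpecTwo) {P : Finset Plane} {z : Plane} {D L δ : ℝ}
    (hP : GeneralPosition P) (hD : 0 < D) (hx : ∀ p ∈ P, ‖emb z D p‖ ≤ 1) (hL : 0 < L)
    (hδ : 0 ≤ δ) (hδ' : δ ≤ 1 / 2) (p q : Plane) (r : ℝ) :
    ((NR P (emb z D) L δ).filter (fun a => (a.2.1 = p ∧ a.2.2 = q) ∧ rad a = r)).card ≤ 2 := by
  by_cases hne : ((NR P (emb z D) L δ).filter
      (fun a => (a.2.1 = p ∧ a.2.2 = q) ∧ rad a = r)).Nonempty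
  swap
  · rw [not_nonempty_iff_eq_empty.1 hne, card_empty]
    exact Nat.zero_le _
  obtain ⟨a0, ha0⟩ := hne
  rw [mem_filter] at ha0
  obtain ⟨ha0, ⟨rfl, rfl⟩, hr0⟩ := ha0
  obtain ⟨_, hp, hq, _, _, hpq, _⟩ := facts hF hP hD hx hL hδ hδ' ha0
  have h1 : ((NR P (emb z D) L δ).filter
      (fun a => (a.2.1 = a0.2.1 ∧ a.2.2 = a0.2.2) ∧ rad a = r)).card
      ≤ (((NR P (emb z D) L δ).filter
      (fun a => (a.2.1 = a0.2.1 ∧ a.2.2 = a0.2.2) ∧ rad a = r)).image (fun a => a.1)).card := by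
    rw [card_image_of_injOn]
    intro a ha b hb hab
    rw [mem_coe, mem_filter] at ha hb
    obtain ⟨_, ⟨h1, h2⟩, _⟩ := ha
    obtain ⟨_, ⟨h3, h4⟩, _⟩ := hb
    exact Prod.ext hab (Prod.ext (h1.trans h3.symm) (h2.trans h4.symm))
  refine h1.trans (hT P hP _ hp _ hq hpq r _ ?_ ?_)
  · intro s hs
    rw [mem_image] at hs
    obtain ⟨a, ha, rfl⟩ := hs
    exact (facts hF hP hD hx hL hδ hδ' (mem_filter.1 ha).1).1
  · intro s hs
    rw [mem_image] at hs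
    obtain ⟨a, ha, rfl⟩ := hs
    rw [mem_filter] at ha
    obtain ⟨ha, ⟨h1, h2⟩, h3⟩ := ha
    obtain ⟨_, _, _, n1, n2, _, hr, _⟩ := facts hF hP hD hx hL hδ hδ' ha
    rw [h1, h2, h3] at hr
    exact ⟨by rw [← h1]; exact n1, by rw [← h2]; exact n2, hr⟩

/-- **(1d)(A)** -/
theorem specA' (hF : SpecFold) (hT : SpecTwo) (P : Finset Plane) (z : Plane) (D L δ W : ℝ)
    (hP : GeneralPosition P) (hD : 0 < D) (hx : ∀ p ∈ P, ‖emb z D p‖ ≤ 1) (hL : 0 < L)
    (hL1 : L ≤ 1) (hδ : 0 ≤ δ) (hδ' : δ ≤ 1 / 2)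
    (hW : ∀ ρ : ℝ, L / 2 ≤ ρ → ρ ≤ 4 → (win P (emb z D) ρ (2 * δ ^ 2) : ℝ) ≤ W) :
    ((NR P (emb z D) L δ).card : ℝ) ≤ 2 * (radii P).ncard * W := by
  classical
  have hW0 : 0 ≤ W := le_trans (Nat.cast_nonneg _) (hW 4 (by linarith) le_rfl)
  have hfin := radii_finite P
  have hmaps : ∀ a ∈ NR P (emb z D) L δ, rad a ∈ hfin.toFinset := by
    intro a ha
    rw [Set.Finite.mem_toFinset]
    exact (facts hF hP hD hx hL hδ hδ' ha).2.2.2.2.2.2.2.1
  rw [card_eq_sum_card_fiberwise hmaps]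
  push_cast
  have hb : ∀ r ∈ hfin.toFinset,
      (((NR P (emb z D) L δ).filter (fun a => rad a = r)).card : ℝ) ≤ 2 * W := by
    intro r _
    by_cases hne : ((NR P (emb z D) L δ).filter (fun a => rad a = r)).Nonempty
    swap
    · rw [not_nonempty_iff_eq_empty.1 hne, card_empty]
      push_cast
      positivity
    obtain ⟨a0, ha0⟩ := hne
    rw [mem_filter] at ha0
    obtain ⟨_, _, _, _, _, _, _, _, g1, g2, g3, g4⟩ := facts hF hP hD hx hL hδ hδ' ha0.1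
    rw [ha0.2] at g3 g4
    have g5 := facts_win hδ hδ' g1 hL g2 g3 g4
    have h1 : ∀ a ∈ (NR P (emb z D) L δ).filter (fun a => rad a = r),
        (a.2.1, a.2.2) ∈ ((P ×ˢ P).filter
          (fun b => |‖emb z D b.1 - emb z D b.2‖ - 2 * r / D| ≤ 2 * δ ^ 2)) := by
      intro a ha
      rw [mem_filter] at ha
      obtain ⟨_, hp, hq, _, _, _, _, _, k1, k2, k3, k4⟩ := facts hF hP hD hx hL hδ hδ' ha.1
      rw [ha.2] at k3 k4
      rw [mem_filter, mem_product]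
      exact ⟨⟨hp, hq⟩, (facts_win hδ hδ' k1 hL k2 k3 k4).2.2⟩
    have h2 := card_le_mul_card_image_of_maps_to h1 2 (by
      intro b _
      refine le_trans (card_le_card ?_) (fiber_two hF hT hP hD hx hL hδ hδ' b.1 b.2 r)
      intro a ha
      rw [mem_filter, mem_filter] at ha
      rw [mem_filter]
      obtain ⟨⟨ha1, ha2⟩, ha3⟩ := ha
      have e1 : a.2.1 = b.1 := by rw [← ha3]
      have e2 : a.2.2 = b.2 := by rw [← ha3]
      exact ⟨ha1, ⟨e1, e2⟩, ha2⟩)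
    have h3 := hW (2 * r / D) g5.1 g5.2.1
    unfold win at h3
    calc (((NR P (emb z D) L δ).filter (fun a => rad a = r)).card : ℝ)
        ≤ ((2 * ((P ×ˢ P).filter
          (fun b => |‖emb z D b.1 - emb z D b.2‖ - 2 * r / D| ≤ 2 * δ ^ 2)).card : ℕ) : ℝ) := by
          exact_mod_cast h2
      _ ≤ 2 * W := by
          push_cast
          have : (((P ×ˢ P).filter
            (fun b => |‖emb z D b.1 - emb z D b.2‖ - 2 * r / D| ≤ 2 * δ ^ 2)).card : ℝ) ≤ W := by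
            convert h3
          linarith
  refine (sum_le_sum hb).trans ?_
  rw [sum_const, nsmul_eq_mul, ← Set.ncard_eq_toFinset_card _ hfin]
  apply le_of_eq
  ring

/-- **(1d)(B)** -/
theorem specB (hF : SpecFold) (hT : SpecTwo) : SpecB := by
  classical
  intro P z D L δ M hP hD hx hL hδ hδ' hM
  have hfin := radii_finite P
  set T := NR P (emb z D) L δ with hTdef
  let H : Finset (Plane × Plane × ℝ) := T.image (fun a => (a.2.1, a.2.2, rad a))
  have hH : ∀ h ∈ H, ∃ a ∈ T, a.2.1 = h.1 ∧ a.2.2 = h.2.1 ∧ rad a = h.2.2 := by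
    intro h hh
    obtain ⟨a, ha, rfl⟩ := mem_image.1 hh
    exact ⟨a, ha, rfl, rfl, rfl⟩
  -- `#T ≤ 2 #H`
  have h1 : T.card ≤ 2 * H.card := by
    refine card_le_mul_card_image T 2 ?_
    intro b _
    refine le_trans (card_le_card ?_) (fiber_two hF hT hP hD hx hL hδ hδ' b.1 b.2.1 b.2.2)
    intro a ha
    rw [mem_filter] at ha ⊢
    obtain ⟨ha1, ha3⟩ := ha
    have e1 : a.2.1 = b.1 := by rw [← ha3]
    have e2 : a.2.2 = b.2.1 := by rw [← ha3]
    have e3 : rad a = b.2.2 := by rw [← ha3]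
    exact ⟨ha1, ⟨e1, e2⟩, e3⟩
  -- the pairs with the same radius
  let K : Finset ((Plane × Plane × ℝ) × (Plane × Plane × ℝ)) :=
    (H ×ˢ H).filter (fun k => k.1.2.2 = k.2.2.2)
  have hmapsH : ∀ h ∈ H, h.2.2 ∈ hfin.toFinset := by
    intro h hh
    obtain ⟨a, ha, _, _, e⟩ := hH h hh
    rw [Set.Finite.mem_toFinset, ← e]
    exact (facts hF hP hD hx hL hδ hδ' ha).2.2.2.2.2.2.2.1
  have h2 : H.card ^ 2 ≤ (radii P).ncard * K.card := by
    have e1 : H.card = ∑ r ∈ hfin.toFinset, (H.filter (fun h => h.2.2 = r)).card :=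
      card_eq_sum_card_fiberwise hmapsH
    have e2 : K.card = ∑ r ∈ hfin.toFinset, (H.filter (fun h => h.2.2 = r)).card ^ 2 := by
      have hmapsK : ∀ k ∈ K, k.1.2.2 ∈ hfin.toFinset := by
        intro k hk
        exact hmapsH _ (mem_product.1 (mem_filter.1 hk).1).1
      rw [card_eq_sum_card_fiberwise hmapsK]
      refine sum_congr rfl fun r _ => ?_
      rw [sq, ← card_product]
      congr 1
      ext k
      simp only [K, mem_filter, mem_product]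
      constructor
      · rintro ⟨⟨⟨a1, a2⟩, a3⟩, a4⟩
        exact ⟨⟨a1, a4⟩, a2, by rw [← a3, a4]⟩
      · rintro ⟨⟨a1, a4⟩, a2, a5⟩
        exact ⟨⟨⟨a1, a2⟩, by rw [a4, a5]⟩, a4⟩
    rw [e1, e2, Set.ncard_eq_toFinset_card _ hfin]
    exact sq_sum_le_card_mul_sum_sq
  -- they map to the quadruples
  have h3 : (K.card : ℝ) ≤ M * (quad P (emb z D) (2 * δ ^ 2) : ℝ) := by
    let φ : ((Plane × Plane × ℝ) × (Plane × Plane × ℝ)) → (Plane × Plane) × (Plane × Plane) :=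
      fun k => ((k.1.1, k.1.2.1), (k.2.1, k.2.2.1))
    let Q : Finset ((Plane × Plane) × (Plane × Plane)) := ((P ×ˢ P) ×ˢ (P ×ˢ P)).filter
      (fun a => |‖emb z D a.1.1 - emb z D a.1.2‖ - ‖emb z D a.2.1 - emb z D a.2.2‖| ≤ 2 * δ ^ 2)
    have hmapsQ : ∀ k ∈ K, φ k ∈ Q := by
      intro k hk
      obtain ⟨hk1, hk2⟩ := mem_filter.1 hk
      obtain ⟨hk3, hk4⟩ := mem_product.1 hk1
      obtain ⟨a, ha, a1, a2, a3⟩ := hH _ hk3
      obtain ⟨b, hb, b1, b2, b3⟩ := hH _ hk4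
      obtain ⟨_, p1, p2, _, _, _, _, _, p3, p4, p5, p6⟩ := facts hF hP hD hx hL hδ hδ' ha
      obtain ⟨_, q1, q2, _, _, _, _, _, q3, q4, q5, q6⟩ := facts hF hP hD hx hL hδ hδ' hb
      rw [a1, a2] at p3 p4
      rw [a1, a2, a3] at p5 p6
      rw [a1] at p1
      rw [a2] at p2
      rw [b1, b2] at q3 q4
      rw [b1, b2, b3, ← hk2] at q5 q6
      rw [b1] at q1
      rw [b2] at q2
      simp only [Q, φ, mem_filter, mem_product]
      refine ⟨⟨⟨p1, p2⟩, q1, q2⟩, ?_⟩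
      rw [abs_le]
      constructor
      · nlinarith [sq_nonneg δ]
      · nlinarith [sq_nonneg δ]
    have hQ : (quad P (emb z D) (2 * δ ^ 2) : ℝ) = (Q.card : ℝ) := by
      unfold quad
      norm_cast
    rw [hQ, card_eq_sum_card_fiberwise hmapsQ]
    push_cast
    have hb : ∀ b ∈ Q, ((K.filter (fun k => φ k = b)).card : ℝ) ≤ M := by
      intro b _
      refine le_trans ?_ (hM b.1.1 b.1.2)
      norm_cast
      have i1 : (K.filter (fun k => φ k = b)).card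
          ≤ (H.filter (fun h => h.1 = b.1.1 ∧ h.2.1 = b.1.2)).card := by
        refine card_le_card_of_injOn (fun k => k.1) ?_ ?_
        · intro k hk
          rw [mem_coe, mem_filter] at hk ⊢
          obtain ⟨hk1, hk2⟩ := hk
          refine ⟨(mem_product.1 (mem_filter.1 hk1).1).1, ?_, ?_⟩
          · rw [← hk2]
          · rw [← hk2]
        · intro k hk l hl hkl
          rw [mem_coe, mem_filter] at hk hl
          obtain ⟨hk1, hk2⟩ := hk
          obtain ⟨hl1, hl2⟩ := hl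
          have hkl' : k.1 = l.1 := hkl
          have e := hk2.trans hl2.symm
          have e1 : k.2.1 = l.2.1 := congrArg (fun b => b.2.1) e
          have e2 : k.2.2.1 = l.2.2.1 := congrArg (fun b => b.2.2) e
          have e3 : k.2.2.2 = l.2.2.2 := by
            rw [← (mem_filter.1 hk1).2, ← (mem_filter.1 hl1).2, hkl']
          exact Prod.ext hkl' (Prod.ext e1 (Prod.ext e2 e3))
      refine i1.trans ?_
      have i2 : H.filter (fun h => h.1 = b.1.1 ∧ h.2.1 = b.1.2)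
          ⊆ (T.filter (fun a => a.2.1 = b.1.1 ∧ a.2.2 = b.1.2)).image
            (fun a => (a.2.1, a.2.2, rad a)) := by
        intro h hh
        rw [mem_filter] at hh
        obtain ⟨hh1, hh2, hh3⟩ := hh
        obtain ⟨a, ha, rfl⟩ := mem_image.1 hh1
        exact mem_image.2 ⟨a, mem_filter.2 ⟨ha, hh2, hh3⟩, rfl⟩
      refine (card_le_card i2).trans (card_image_le.trans ?_)
      unfold third
      apply le_of_eq
      congr
    refine (sum_le_sum hb).trans ?_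
    rw [sum_const, nsmul_eq_mul]
    apply le_of_eq
    ring
  have h4 : (T.card : ℝ) ≤ 2 * H.card := by exact_mod_cast h1
  have h5 : (H.card : ℝ) ^ 2 ≤ (radii P).ncard * K.card := by exact_mod_cast h2
  calc (T.card : ℝ) ^ 2 ≤ (2 * H.card) ^ 2 := pow_le_pow_left₀ (Nat.cast_nonneg _) h4 2
    _ = 4 * (H.card : ℝ) ^ 2 := by ring
    _ ≤ 4 * ((radii P).ncard * K.card) := by linarith
    _ ≤ 4 * ((radii P).ncard * (M * (quad P (emb z D) (2 * δ ^ 2) : ℝ))) := by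
        have : (0 : ℝ) ≤ (radii P).ncard := Nat.cast_nonneg _
        have := mul_le_mul_of_nonneg_left h3 this
        linarith
    _ = 4 * (radii P).ncard * M * (quad P (emb z D) (2 * δ ^ 2) : ℝ) := by ring

/-- **(1d)(A)** -/
theorem specA (hF : SpecFold) (hT : SpecTwo) : SpecA :=
  fun P z D L δ W h1 h2 h3 h4 h5 h6 h7 h8 => specA' hF hT P z D L δ W h1 h2 h3 h4 h5 h6 h7 h8

end Pool.Agent.Lib.MP_cd3201_co.Dense.CountM
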