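import Pool.Agent.Lib.MP_cd3201_co.Dense.Spec

/-!
# Distinct circumradii: dense sets (part (3))
-/

open Finset MeasureTheory
open scoped Real

namespace Pool.Agent.Lib.MP_cd3201_co.Dense.DenseM

/-- A packing bound. -/
lemma packing (A : Finset Plane) (y : Plane) (R : ℝ) (hR : 0 ≤ R)
    (hsep : ∀ p ∈ A, ∀ q ∈ A, p ≠ q → 1 ≤ dist p q) (hA : ∀ p ∈ A, dist p y ≤ R) :
    (A.card : ℝ) ≤ (2 * R + 1) ^ 2 := by
  set V : ENNReal := volume (Metric.ball (0 : Plane) 1) with hV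
  have hV0 : V ≠ 0 := (Metric.measure_ball_pos volume _ one_pos).ne'
  have hVt : V ≠ ⊤ := measure_ball_lt_top.ne
  have hvol : ∀ (x : Plane) {t : ℝ}, 0 < t →
      volume (Metric.ball x t) = ENNReal.ofReal (t ^ 2) * V := by
    intro x t ht
    rw [Measure.addHaar_ball_of_pos volume x ht, finrank_plane]
  have h1 : volume (⋃ i ∈ A, Metric.ball i (1 / 2)) = ∑ i ∈ A, volume (Metric.ball i (1 / 2)) := by
    apply measure_biUnion_finset
    · intro i hi j hj hij
      apply Metric.ball_disjoint_ball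
      have := hsep i hi j hj hij
      linarith
    · intro i _
      exact measurableSet_ball
  have h2 : volume (⋃ i ∈ A, Metric.ball i (1 / 2)) ≤ volume (Metric.ball y (R + 1 / 2)) := by
    apply measure_mono
    intro x hx
    simp only [Set.mem_iUnion, exists_prop] at hx
    obtain ⟨i, hi, hx⟩ := hx
    rw [Metric.mem_ball] at hx ⊢
    have := hA i hi
    linarith [dist_triangle x i y]
  rw [h1, hvol y (by positivity), Finset.sum_congr rfl fun i _ => hvol i (by norm_num),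
    ← Finset.sum_mul, ENNReal.mul_le_mul_iff_left hV0 hVt,
    ← ENNReal.ofReal_sum_of_nonneg fun i _ => by positivity] at h2
  have h3 := (ENNReal.ofReal_le_ofReal_iff (by positivity)).1 h2
  rw [sum_const, nsmul_eq_mul] at h3
  nlinarith

theorem specDense (h : SpecDim2) : SpecDense := by
  obtain ⟨c, hc, H⟩ := h
  intro κ
  set m : ℝ := max κ 1 with hm
  have hm1 : 1 ≤ m := le_max_right _ _
  have hmκ : κ ≤ m := le_max_left _ _
  refine ⟨c / (9 * m ^ 2) ^ 8, by positivity, fun P hP h3 hsep hdiam => ?_⟩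
  set n : ℝ := (P.card : ℝ) with hn
  have hn3 : (3 : ℝ) ≤ n := by rw [hn]; exact_mod_cast h3
  have hn0 : 0 < n := by linarith
  have hsq : 0 < √n := Real.sqrt_pos.2 hn0
  have hsq1 : 1 ≤ √n := by
    rw [Real.one_le_sqrt]; linarith
  obtain ⟨z, hz⟩ : P.Nonempty := by
    rw [← Finset.card_pos]; omega
  have hσ : 0 < 1 / √n := by positivity
  have hσ1 : 1 / √n ≤ 1 := by
    rw [div_le_one hsq]; exact hsq1
  have hsp : Spread P z (m * √n) 2 (9 * m ^ 2) (1 / √n) := by
    refine ⟨fun p hp => (hdiam p hp z hz).trans (by gcongr), fun y ρ hρ hρ1 A hA hAy => ?_⟩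
    have hρ0 : 0 < ρ := hσ.trans_le hρ
    have h1 : 1 ≤ ρ * √n := by
      have := mul_le_mul_of_nonneg_right hρ hsq.le
      rwa [one_div, inv_mul_cancel₀ hsq.ne'] at this
    have h2 : 1 ≤ ρ * (m * √n) := by nlinarith
    have h4 := packing A y (ρ * (m * √n)) (by positivity)
      (fun p hp q hq hpq => hsep p (hA hp) q (hA hq) hpq) hAy
    have h5 : (2 * (ρ * (m * √n)) + 1) ^ 2 ≤ (3 * (ρ * (m * √n))) ^ 2 := by
      apply pow_le_pow_left₀ (by positivity)
      linarith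
    have h6 : (3 * (ρ * (m * √n))) ^ 2 = 9 * m ^ 2 * ρ ^ (2 : ℝ) * n := by
      rw [Real.rpow_two]
      have := Real.sq_sqrt hn0.le
      calc (3 * (ρ * (m * √n))) ^ 2 = 9 * m ^ 2 * ρ ^ 2 * √n ^ 2 := by ring
        _ = _ := by rw [this]
    linarith
  have hK : (1 : ℝ) ≤ 9 * m ^ 2 := by nlinarith
  have key := H P z (m * √n) (9 * m ^ 2) (1 / √n) hP h3 (by positivity) hK hσ hσ1 hsp
  refine le_trans (le_of_eq ?_) key
  have h7 : (1 / √n) ^ (-(3 / 4 : ℝ)) = n ^ (3 / 8 : ℝ) := by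
    rw [one_div, Real.inv_rpow hsq.le, Real.rpow_neg hsq.le, inv_inv, Real.sqrt_eq_rpow,
      ← Real.rpow_mul hn0.le]
    norm_num
  have h8 : n ^ (11 / 8 : ℝ) = n * n ^ (3 / 8 : ℝ) := by
    rw [show (11 / 8 : ℝ) = 1 + 3 / 8 by norm_num, Real.rpow_add hn0, Real.rpow_one]
  rw [h7, h8, ← hn]
  ring

end Pool.Agent.Lib.MP_cd3201_co.Dense.DenseM
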