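import Mathlib
import Pool.Agent.Lib.MP_cd3201_co.Dense.Base

/-!
# Distinct circumradii, dimension larger than one: specifications of the modules

Paper: `/team-store/MP_cd3201_co_DENSE_h3.md` (section numbers below refer to it).
Module `Dense/XXX.lean` imports this file (only) and proves `theorem specXXX (earlier specs) : SpecXXX`
in the namespace `Pool.Agent.Lib.MP_cd3201_co.Dense.XXXM`.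
-/

open Finset MeasureTheory
open scoped Real

namespace Pool.Agent.Lib.MP_cd3201_co.Dense

/-- **(1a)** With `u = b - a`, `v = c - a`: `2⟨w-a,u⟩ = |u|²`, `2⟨w-a,v⟩ = |v|²`, so with
`det = u₁v₂ - u₂v₁`, `4 r² det² = |u|²|v|²|u-v|²`, `det² = |u|²|v|² - ⟨u,v⟩²`; finally
`1/(1-y) ≤ (1+y)²` for `0 ≤ y ≤ 1/2`. -/
def SpecFold : Prop := ∀ (a b c w : ℂ) (r δ : ℝ), ‖a - w‖ = r → ‖b - w‖ = r → ‖c - w‖ = r →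
  0 ≤ δ → δ ^ 2 ≤ 1 / 2 → 0 < ‖b - a‖ → 0 < ‖c - a‖ →
  |ip (b - a) (c - a)| ≤ δ * ‖b - a‖ * ‖c - a‖ →
  ‖b - c‖ ≤ 2 * r ∧ 2 * r ≤ (1 + δ ^ 2) * ‖b - c‖

/-- **(1b)** the centre is one of at most two points (`EuclideanGeometry.eq_of_dist_eq_of_dist_eq_of_finrank_eq_two`)
and a circle through `p, q` contains at most one further point of `P` (no four concyclic). -/
def SpecTwo : Prop := ∀ (P : Finset Plane), GeneralPosition P → ∀ p ∈ P, ∀ q ∈ P, p ≠ q → ∀ r : ℝ,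
  ∀ S ⊆ P, (∀ s ∈ S, s ≠ p ∧ s ≠ q ∧ IsCircumradius {p, q, s} r) → S.card ≤ 2

/-- **(1c)** fix `p, q`; the third points give at least `(n - 2) / 2` radii. -/
def SpecTriv : Prop := ∀ (P : Finset Plane), GeneralPosition P → 3 ≤ P.card →
  (P.card : ℝ) / 6 ≤ (radii P).ncard

/-- **(1d)(A)** -/
def SpecA : Prop := ∀ (P : Finset Plane) (z : Plane) (D L δ W : ℝ), GeneralPosition P → 0 < D →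
  (∀ p ∈ P, ‖emb z D p‖ ≤ 1) → 0 < L → L ≤ 1 → 0 ≤ δ → δ ≤ 1 / 2 →
  (∀ ρ : ℝ, L / 2 ≤ ρ → ρ ≤ 4 → (win P (emb z D) ρ (2 * δ ^ 2) : ℝ) ≤ W) →
  ((NR P (emb z D) L δ).card : ℝ) ≤ 2 * (radii P).ncard * W

/-- **(1d)(B)** -/
def SpecB : Prop := ∀ (P : Finset Plane) (z : Plane) (D L δ M : ℝ), GeneralPosition P → 0 < D →
  (∀ p ∈ P, ‖emb z D p‖ ≤ 1) → 0 < L → 0 ≤ δ → δ ≤ 1 / 2 →
  (∀ p q : Plane, (third P (emb z D) L δ p q : ℝ) ≤ M) →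
  ((NR P (emb z D) L δ).card : ℝ) ^ 2 ≤
    4 * (radii P).ncard * M * (quad P (emb z D) (2 * δ ^ 2) : ℝ)

/-- **Lemma 2** -/
def SpecRows : Prop := ∀ (ι : Type) (s : Finset ι) (x : ι → ℂ) (t K σ L η : ℝ),
  (∀ p ∈ s, ‖x p‖ ≤ 1) → H s x t K σ → 1 < t → t ≤ 2 → 1 ≤ K → 0 < σ → σ ≤ 1 → 0 < L → L ≤ 1 →
  0 < η → η ≤ L / 100 → L ^ (t - 1) ≤ (t - 1) / (144000 * K) → σ ^ t ≤ η / (4800 * K) →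
  (s.card : ℝ) ^ 3 * L * η / 60000 ≤ (NR s x L (2 * η / L)).card

/-- **(3b)** expand `sq_norm_B` and use `gauss_fourier`. -/
def SpecGB : Prop := ∀ (ι : Type) (s : Finset ι) (x : ι → ℂ) (c : ι → ℝ) (l : ℝ) (y : ℂ), 0 < l →
  ∫ ξ : ℂ, Real.exp (-(π * l * ‖ξ - y‖ ^ 2)) * ‖B s x c ξ‖ ^ 2 ≤
    1 / l * ∑ p ∈ s, ∑ q ∈ s, |c p * c q| * Real.exp (-(π * ‖x p - x q‖ ^ 2 / l))

/-- **(3c)** layer cake `e^{-πs} = ∫_s^∞ π e^{-πv} dv`. -/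
def SpecGS : Prop := ∀ (ι : Type) (s : Finset ι) (x : ι → ℂ) (t K σ a : ℝ),
  (∀ p ∈ s, ‖x p‖ ≤ 1) → H s x t K σ → 0 < t → t ≤ 2 → 1 ≤ K → 0 < σ → σ ≤ 1 → 0 < a →
  G s x a ≤ 4 * K * (s.card : ℝ) ^ 2 * (a ^ (t / 2) + σ ^ t)

/-- **(4b)** with `θ₀ = arg y - arg ξ`, for `|θ - θ₀| ≤ h` the distance is at most
`h |ξ| + ||y| - |ξ||`. -/
def SpecCirc : Prop := ∀ (ξ y : ℂ) (h A : ℝ), 0 < h → h ≤ 1 → 0 ≤ A →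
  2 * h * Real.exp (-(A * (h * ‖ξ‖ + |‖y‖ - ‖ξ‖|) ^ 2)) ≤
    ∫ θ in (-8 : ℝ)..8, Real.exp (-(A * ‖y - Complex.exp (θ * Complex.I) * ξ‖ ^ 2))

/-- **(4a)** one integration by parts with `sin / (sin² + κ²)`. -/
def SpecBessel : Prop := ∃ C : ℝ, 0 < C ∧ ∀ l φ : ℝ, 0 < l → |φ| ≤ 7 →
  ‖∫ θ in (-8 : ℝ)..8, e (l * Real.cos (θ + φ))‖ ≤ C / √l

/-- the majorant in (4c): with the least `m` such that `2 ^ m ≥ 1 / σ` (here: any `m` with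
`1 / σ ≤ 2 ^ m`). -/
def SpecMajor : Prop := ∀ (σ r : ℝ) (m : ℕ), 0 < σ → 0 ≤ r → 1 / σ ≤ 2 ^ m →
  1 / √(1 + r) * Real.exp (-(2 * π * σ ^ 2 * r ^ 2)) ≤
    √2 * Real.exp π * ∑ j ∈ range (m + 1), (1 / √(2 ^ j)) * Real.exp (-(π * r ^ 2 / 4 ^ j))

/-- **(4c), first half**: the window count is at most a weighted integral of `N`. -/
def SpecWinInt : Prop := ∀ L : ℝ, 0 < L → L ≤ 1 → ∃ C : ℝ, 0 < C ∧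
  ∀ (ι : Type) (s : Finset ι) (x : ι → ℂ) (w ρ : ℝ), 0 < w → w ≤ 1 → L / 2 ≤ ρ → ρ ≤ 4 →
  (win s x ρ w : ℝ) ≤ C * w *
    ∫ ξ : ℂ, 1 / √(1 + ‖ξ‖) * Real.exp (-(2 * π * w ^ 2 * ‖ξ‖ ^ 2)) * N s x ξ

/-- **(4c)** the window bound for `1 < t < 3/2`. -/
def SpecWindow : Prop := ∀ t K L : ℝ, 1 < t → t < 3 / 2 → 1 ≤ K → 0 < L → L ≤ 1 →
  ∃ C : ℝ, 0 < C ∧ ∀ (ι : Type) (s : Finset ι) (x : ι → ℂ) (σ ρ : ℝ), (∀ p ∈ s, ‖x p‖ ≤ 1) →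
  0 < σ → σ ≤ 1 → H s x t K σ → L / 2 ≤ ρ → ρ ≤ 4 →
  (win s x ρ σ : ℝ) ≤ C * (s.card : ℝ) ^ 2 * σ ^ (t - 1 / 2)

/-- **(5a)** -/
def SpecNB : Prop := ∀ (ι : Type) (s : Finset ι) (x : ι → ℂ) (ξ : ℂ),
  N s x ξ ≤ ∫ η : ℂ, Real.exp (-(π * ‖η - ξ‖ ^ 2)) *
    ‖B s x (fun p => Real.exp (π * ‖x p‖ ^ 2)) η‖ ^ 2

/-- **(5b)** -/
def SpecInner : Prop := ∀ ξ η : ℂ,
  ∫ θ in (-8 : ℝ)..8, Real.exp (-(π * ‖η - Complex.exp (θ * Complex.I) * ξ‖ ^ 2)) ≤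
    Real.exp (-(π / 2 * (‖η‖ - ‖ξ‖) ^ 2)) * (80 / (1 + ‖ξ‖))

/-- **(5c)** -/
def SpecRing : Prop := ∃ C : ℝ, 0 < C ∧ ∀ (ι : Type) (s : Finset ι) (x : ι → ℂ) (K σ : ℝ) (ξ : ℂ),
  (∀ p ∈ s, ‖x p‖ ≤ 1) → H s x 2 K σ → 1 ≤ K → 0 < σ → σ ≤ 1 →
  ∫ η : ℂ, Real.exp (-(π / 2 * (‖η‖ - ‖ξ‖) ^ 2)) *
    ‖B s x (fun p => Real.exp (π * ‖x p‖ ^ 2)) η‖ ^ 2 ≤ C * K * (s.card : ℝ) ^ 2 * (1 + ‖ξ‖ * σ)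

/-- **(5d)** -/
def SpecMean : Prop := ∃ C : ℝ, 0 < C ∧ ∀ (ι : Type) (s : Finset ι) (x : ι → ℂ) (K σ : ℝ) (ξ : ℂ),
  (∀ p ∈ s, ‖x p‖ ≤ 1) → H s x 2 K σ → 1 ≤ K → 0 < σ → σ ≤ 1 →
  ∫ θ in (-8 : ℝ)..8, N s x (Complex.exp (θ * Complex.I) * ξ) ≤
    C * K * (s.card : ℝ) ^ 2 * (1 + ‖ξ‖ * σ) / (1 + ‖ξ‖)

/-- **(5e), (5f)** -/
def SpecTheta : Prop := ∀ (ι : Type) (s : Finset ι) (x : ι → ℂ) (w : ℝ),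
  (∀ p ∈ s, ‖x p‖ ≤ 1) → 0 < w → w ≤ 1 →
  (quad s x w : ℝ) * (w * Real.exp (-(2 * π))) ≤
    2 * w ^ 2 * ∫ ξ : ℂ, Real.exp (-(2 * π * w ^ 2 * ‖ξ‖ ^ 2)) *
      (N s x ξ * ∫ θ in (-8 : ℝ)..8, N s x (Complex.exp (θ * Complex.I) * ξ))

/-- **Lemma 5** -/
def SpecQuad : Prop := ∃ C : ℝ, 0 < C ∧ ∀ (ι : Type) (s : Finset ι) (x : ι → ℂ) (K σ w : ℝ),
  (∀ p ∈ s, ‖x p‖ ≤ 1) → H s x 2 K σ → 1 ≤ K → 0 < σ → σ ≤ 1 → 0 < w → w ≤ σ →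
  (quad s x w : ℝ) ≤ C * K ^ 2 * (s.card : ℝ) ^ 4 * (w + σ ^ 3 / w)

/-- **Lemma 6** -/
def SpecAnn : Prop := ∀ (ι : Type) (s A : Finset ι) (x : ι → ℂ) (K σ ρ ω : ℝ) (y : ℂ),
  H s x 2 K σ → 1 ≤ K → 0 < σ → σ ≤ 1 → 0 ≤ ρ → ρ ≤ 1 → σ ≤ ω → A ⊆ s →
  (∀ p ∈ A, |‖x p - y‖ - ρ| ≤ ω) → (A.card : ℝ) ≤ 24 * K * s.card * ω

/-- **(6b)** -/
def SpecThird : Prop := ∀ (ι : Type) (s : Finset ι) (x : ι → ℂ) (K σ L δ : ℝ) (p q : ι),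
  (∀ p ∈ s, ‖x p‖ ≤ 1) → H s x 2 K σ → 1 ≤ K → 0 < σ → σ ≤ 1 → 0 < L → 0 ≤ δ → δ ≤ 1 / 2 →
  σ ≤ 16 * δ / L → (third s x L δ p q : ℝ) ≤ 24 * K * s.card * (16 * δ / L)

/-- The hypothesis of the theorem in the plane: `P` lies in the closed disc with centre `z` and
radius `D`, and a disc of radius `ρ D`, `σ ≤ ρ ≤ 1`, contains at most `K ρ ^ t |P|` points. -/
def Spread (P : Finset Plane) (z : Plane) (D t K σ : ℝ) : Prop :=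
  (∀ p ∈ P, dist p z ≤ D) ∧ ∀ y : Plane, ∀ ρ : ℝ, σ ≤ ρ → ρ ≤ 1 → ∀ A ⊆ P,
    (∀ p ∈ A, dist p y ≤ ρ * D) → (A.card : ℝ) ≤ K * ρ ^ t * P.card

/-- translation of `Spread` into `H` -/
def SpecTrans : Prop := ∀ (P : Finset Plane) (z : Plane) (D t K σ : ℝ), 0 < D →
  Spread P z D t K σ → (∀ p ∈ P, ‖emb z D p‖ ≤ 1) ∧ H P (emb z D) t K σ

/-- **part (1)** -/
def SpecOne : Prop := ∀ t K : ℝ, 1 < t → t < 3 / 2 → 1 ≤ K → ∃ c : ℝ, 0 < c ∧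
  ∀ (P : Finset Plane) (z : Plane) (D σ : ℝ), GeneralPosition P → 3 ≤ P.card → 0 < D → 0 < σ →
  σ ≤ 1 → Spread P z D t K σ → c * P.card * σ ^ (-(t - 1)) ≤ (radii P).ncard

/-- **part (2)** -/
def SpecDim2 : Prop := ∃ c : ℝ, 0 < c ∧ ∀ (P : Finset Plane) (z : Plane) (D K σ : ℝ),
  GeneralPosition P → 3 ≤ P.card → 0 < D → 1 ≤ K → 0 < σ → σ ≤ 1 → Spread P z D 2 K σ →
  c * P.card * σ ^ (-(3 / 4 : ℝ)) / K ^ 8 ≤ (radii P).ncard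

/-- **part (3)** -/
def SpecDense : Prop := ∀ κ : ℝ, ∃ c : ℝ, 0 < c ∧ ∀ P : Finset Plane, GeneralPosition P →
  3 ≤ P.card → (∀ p ∈ P, ∀ q ∈ P, p ≠ q → 1 ≤ dist p q) →
  (∀ p ∈ P, ∀ q ∈ P, dist p q ≤ κ * √P.card) → c * (P.card : ℝ) ^ (11 / 8 : ℝ) ≤ (radii P).ncard

end Pool.Agent.Lib.MP_cd3201_co.Dense
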