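import Mathlib
import Pool.Agent.Lib.MP_cd3201_co.Dense.Spec

/-!
# Distinct circumradii, dimension two: the assembly (part (2))

Paper: `/team-store/MP_cd3201_co_DENSE_h3.md`.
With `σ = τ ^ 4` we use `L = 1 / (144000 K)`, `δ = τ ^ 3 / 50`, `η = δ L / 2`. If
`σ ^ 2 ≤ η / (4800 K)` the rows give many near right triples, the energy bound and the bound for
third points give few, by `SpecB`. Otherwise `K ^ 2 τ ^ 5` is bounded below and the trivial bound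
is enough.
-/

open Finset MeasureTheory
open scoped Real

namespace Pool.Agent.Lib.MP_cd3201_co.Dense.Dim2M

/-- The numerical end of the first case. -/
lemma final_step {n τ K C R A M Q X : ℝ} (hn : 0 < n) (hτ : 0 < τ) (hK : 0 < K) (hC : 0 < C)
    (hA : 0 < A) (hR : 0 ≤ R)
    (hX : n ^ 3 * τ ^ 3 / (A * K ^ 2) ≤ X) (hM : M = 1105920 * K ^ 2 * n * τ ^ 3)
    (hQ : Q ≤ 1251 * C * K ^ 2 * n ^ 4 * τ ^ 6) (hB : X ^ 2 ≤ 4 * R * M * Q) :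
    1 / (A ^ 2 * 4 * 1105920 * 1251 * C) * n / (τ ^ 3 * K ^ 8) ≤ R := by
  have h1 : (n ^ 3 * τ ^ 3 / (A * K ^ 2)) ^ 2 ≤ X ^ 2 :=
    pow_le_pow_left₀ (by positivity) hX 2
  have hM0 : 0 ≤ 4 * R * M := by rw [hM]; positivity
  have h2 : 4 * R * M * Q ≤ 4 * R * M * (1251 * C * K ^ 2 * n ^ 4 * τ ^ 6) :=
    mul_le_mul_of_nonneg_left hQ hM0
  have h3 := (h1.trans hB).trans h2
  rw [hM] at h3
  rw [div_pow, div_le_iff₀ (by positivity)] at h3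
  rw [div_le_iff₀ (by positivity), div_mul_eq_mul_div, div_le_iff₀ (by positivity)]
  have h4 : (n ^ 5 * τ ^ 6) * (1 * n) ≤
      (n ^ 5 * τ ^ 6) * (R * (τ ^ 3 * K ^ 8) * (A ^ 2 * 4 * 1105920 * 1251 * C)) := by
    calc (n ^ 5 * τ ^ 6) * (1 * n) = (n ^ 3 * τ ^ 3) ^ 2 := by ring
      _ ≤ _ := h3
      _ = _ := by ring
  exact le_of_mul_le_mul_left h4 (by positivity)

/-- The numerical end of the second case. -/
lemma second_step {n τ K c₀ R : ℝ} (hn : 0 < n) (hτ : 0 < τ) (hτ1 : τ ≤ 1) (hK : 0 < K)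
    (hc : 0 < c₀) (h : c₀ ≤ K ^ 2 * τ ^ 5) (hR : n / 6 ≤ R) :
    c₀ ^ 4 / 6 * n / (τ ^ 3 * K ^ 8) ≤ R := by
  have h1 : c₀ ^ 4 ≤ (K ^ 2 * τ ^ 5) ^ 4 := pow_le_pow_left₀ hc.le h 4
  have h2 : (K ^ 2 * τ ^ 5) ^ 4 = K ^ 8 * τ ^ 20 := by ring
  have h3 : τ ^ 20 ≤ τ ^ 3 := pow_le_pow_of_le_one hτ.le hτ1 (by norm_num)
  have h4 : c₀ ^ 4 ≤ τ ^ 3 * K ^ 8 := by
    rw [h2] at h1
    calc c₀ ^ 4 ≤ K ^ 8 * τ ^ 20 := h1
      _ ≤ K ^ 8 * τ ^ 3 := mul_le_mul_of_nonneg_left h3 (by positivity)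
      _ = _ := by ring
  refine le_trans ?_ hR
  rw [div_le_iff₀ (by positivity)]
  nlinarith [mul_le_mul_of_nonneg_left h4 (by positivity : 0 ≤ n / 6)]

/-- The main case, with `σ = τ ^ 4`. -/
lemma main_case (hB : SpecB) (hR : SpecRows) (hTh : SpecThird) {C : ℝ} (hC : 0 < C)
    (hQ : ∀ (ι : Type) (s : Finset ι) (x : ι → ℂ) (K σ w : ℝ),
      (∀ p ∈ s, ‖x p‖ ≤ 1) → H s x 2 K σ → 1 ≤ K → 0 < σ → σ ≤ 1 → 0 < w → w ≤ σ →
      (quad s x w : ℝ) ≤ C * K ^ 2 * (s.card : ℝ) ^ 4 * (w + σ ^ 3 / w))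
    {A : ℝ} (hA : A = 6 * 10 ^ 6 * 144000 ^ 2) {P : Finset Plane} {z : Plane} {D K σ τ : ℝ}
    (hGP : GeneralPosition P) (hn : (0 : ℝ) < P.card) (hD : 0 < D) (hK : 1 ≤ K) (hσ : 0 < σ)
    (hσ1 : σ ≤ 1) (hx : ∀ p ∈ P, ‖emb z D p‖ ≤ 1) (hH : H P (emb z D) 2 K σ)
    (hτ : 0 < τ) (hτ1 : τ ≤ 1) (hστ : σ = τ ^ 4) (hcase : K ^ 2 * τ ^ 5 * 69120000000 ≤ 1) :
    1 / (A ^ 2 * 4 * 1105920 * 1251 * C) * P.card / (τ ^ 3 * K ^ 8) ≤ (radii P).ncard := by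
  have hK0 : 0 < K := by linarith
  have hA0 : 0 < A := by rw [hA]; norm_num
  obtain ⟨L, hL⟩ : ∃ L : ℝ, L = 1 / (144000 * K) := ⟨_, rfl⟩
  have hL0 : 0 < L := by rw [hL]; positivity
  have hL1 : L ≤ 1 := by
    rw [hL, div_le_one (by positivity)]; linarith
  have hLK : L * K = 1 / 144000 := by
    rw [hL]; field_simp
  obtain ⟨δ, hδ⟩ : ∃ δ : ℝ, δ = τ ^ 3 / 50 := ⟨_, rfl⟩
  have hτ3 : τ ^ 3 ≤ 1 := pow_le_one₀ hτ.le hτ1
  have hδ0 : 0 < δ := by rw [hδ]; positivity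
  have hδ1 : δ ≤ 1 / 2 := by rw [hδ]; linarith
  obtain ⟨η, hη⟩ : ∃ η : ℝ, η = τ ^ 3 * L / 100 := ⟨_, rfl⟩
  have hη0 : 0 < η := by rw [hη]; positivity
  have hηL : η ≤ L / 100 := by
    rw [hη]
    have := mul_le_mul_of_nonneg_right hτ3 hL0.le
    linarith
  have hδη : 2 * η / L = δ := by
    rw [div_eq_iff hL0.ne', hη, hδ]; ring
  -- rows
  have hLt : L ^ ((2 : ℝ) - 1) ≤ ((2 : ℝ) - 1) / (144000 * K) := by
    rw [show ((2 : ℝ) - 1) = 1 by norm_num, Real.rpow_one, hL]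
  have hσt : σ ^ (2 : ℝ) ≤ η / (4800 * K) := by
    rw [Real.rpow_two, hστ, hη, le_div_iff₀ (by positivity)]
    have e1 : τ ^ 3 * L / 100 = (τ ^ 3 / 14400000) / K := by
      rw [hL]; field_simp; norm_num
    rw [e1, le_div_iff₀ hK0]
    have e2 : (τ ^ 4) ^ 2 * (4800 * K) * K =
      (τ ^ 3 / 14400000) * (K ^ 2 * τ ^ 5 * 69120000000) := by ring
    rw [e2]
    calc (τ ^ 3 / 14400000) * (K ^ 2 * τ ^ 5 * 69120000000) ≤ (τ ^ 3 / 14400000) * 1 :=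
          mul_le_mul_of_nonneg_left hcase (by positivity)
      _ = τ ^ 3 / 14400000 := by ring
  have hrow := hR Plane P (emb z D) 2 K σ L η hx hH (by norm_num) le_rfl hK hσ hσ1 hL0 hL1
    hη0 hηL hLt hσt
  rw [hδη] at hrow
  have hX : (P.card : ℝ) ^ 3 * τ ^ 3 / (A * K ^ 2) ≤ ((NR P (emb z D) L δ).card : ℝ) := by
    refine le_trans (le_of_eq ?_) hrow
    rw [hη, hA, div_eq_iff (by positivity)]
    have e1 : (P.card : ℝ) ^ 3 * L * (τ ^ 3 * L / 100) / 60000 * (6 * 10 ^ 6 * 144000 ^ 2 * K ^ 2)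
        = (P.card : ℝ) ^ 3 * τ ^ 3 * ((L * K) ^ 2 * 144000 ^ 2) := by ring
    rw [e1, hLK]; ring
  -- third points
  have h16 : 16 * δ / L = 46080 * K * τ ^ 3 := by
    rw [div_eq_iff hL0.ne', hδ]
    have e1 : 46080 * K * τ ^ 3 * L = 46080 * τ ^ 3 * (L * K) := by ring
    rw [e1, hLK]; ring
  have hσ16 : σ ≤ 16 * δ / L := by
    rw [h16, hστ]
    have e1 : τ ^ 4 ≤ τ ^ 3 := pow_le_pow_of_le_one hτ.le hτ1 (by norm_num)
    have e3 : (1 : ℝ) ≤ 46080 * K := by linarith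
    have e2 : 1 * τ ^ 3 ≤ 46080 * K * τ ^ 3 := mul_le_mul_of_nonneg_right e3 (by positivity)
    linarith
  have hthird : ∀ p q : Plane, (third P (emb z D) L δ p q : ℝ) ≤
      24 * K * P.card * (16 * δ / L) := fun p q =>
    hTh Plane P (emb z D) K σ L δ p q hx hH hK hσ hσ1 hL0 hδ0.le hδ1 hσ16
  -- energy
  have hw0 : 0 < 2 * δ ^ 2 := by positivity
  have hw : 2 * δ ^ 2 = τ ^ 6 / 1250 := by rw [hδ]; ring
  have hwσ : 2 * δ ^ 2 ≤ σ := by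
    rw [hw, hστ]
    have e1 : τ ^ 6 ≤ τ ^ 4 := pow_le_pow_of_le_one hτ.le hτ1 (by norm_num)
    have e2 : 0 < τ ^ 6 := by positivity
    linarith
  have hq := hQ Plane P (emb z D) K σ (2 * δ ^ 2) hx hH hK hσ hσ1 hw0 hwσ
  have hQ' : (quad P (emb z D) (2 * δ ^ 2) : ℝ) ≤
      1251 * C * K ^ 2 * (P.card : ℝ) ^ 4 * τ ^ 6 := by
    refine hq.trans ?_
    rw [hw, hστ]
    have e1 : τ ^ 6 / 1250 + (τ ^ 4) ^ 3 / (τ ^ 6 / 1250) ≤ 1251 * τ ^ 6 := by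
      have e2 : (τ ^ 4) ^ 3 / (τ ^ 6 / 1250) = 1250 * τ ^ 6 := by
        rw [div_eq_iff (by positivity)]; ring
      rw [e2]
      have : 0 < τ ^ 6 := by positivity
      linarith
    calc C * K ^ 2 * (P.card : ℝ) ^ 4 * (τ ^ 6 / 1250 + (τ ^ 4) ^ 3 / (τ ^ 6 / 1250))
        ≤ C * K ^ 2 * (P.card : ℝ) ^ 4 * (1251 * τ ^ 6) :=
          mul_le_mul_of_nonneg_left e1 (by positivity)
      _ = _ := by ring
  have hb := hB P z D L δ _ hGP hD hx hL0 hδ0.le hδ1 hthird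
  exact final_step hn hτ hK0 hC hA0 (Nat.cast_nonneg ((radii P).ncard)) hX
    (M := 24 * K * P.card * (16 * δ / L)) (by rw [h16]; ring) hQ' hb

/-- **part (2)** -/
theorem specDim2 (hT : SpecTriv) (hB : SpecB) (hR : SpecRows) (hQ : SpecQuad) (hTh : SpecThird)
    (hS : SpecTrans) : SpecDim2 := by
  obtain ⟨C, hC, hQ⟩ := hQ
  obtain ⟨A, hA⟩ : ∃ A : ℝ, A = 6 * 10 ^ 6 * 144000 ^ 2 := ⟨_, rfl⟩
  have hA0 : 0 < A := by rw [hA]; norm_num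
  obtain ⟨c₀, hc₀⟩ : ∃ c₀ : ℝ, c₀ * 69120000000 = 1 := ⟨1 / 69120000000, by norm_num⟩
  have hc0 : 0 < c₀ := by linarith
  obtain ⟨c₁, hc₁⟩ : ∃ c₁ : ℝ, c₁ = 1 / (A ^ 2 * 4 * 1105920 * 1251 * C) := ⟨_, rfl⟩
  have hc10 : 0 < c₁ := by rw [hc₁]; positivity
  refine ⟨min c₁ (c₀ ^ 4 / 6), lt_min hc10 (by positivity), ?_⟩
  intro P z D K σ hGP hP3 hD hK hσ hσ1 hsp
  have hn : (0 : ℝ) < P.card := by exact_mod_cast (by omega : 0 < P.card)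
  have hK0 : 0 < K := by linarith
  obtain ⟨hx, hH⟩ := hS P z D 2 K σ hD hsp
  obtain ⟨τ, hτd⟩ : ∃ τ : ℝ, τ = σ ^ (1 / 4 : ℝ) := ⟨_, rfl⟩
  have hτ : 0 < τ := by rw [hτd]; exact Real.rpow_pos_of_pos hσ _
  have hτ1 : τ ≤ 1 := by rw [hτd]; exact Real.rpow_le_one hσ.le hσ1 (by norm_num)
  have hστ : σ = τ ^ 4 := by
    rw [hτd, ← Real.rpow_natCast, ← Real.rpow_mul hσ.le]; norm_num
  have hneg : σ ^ (-(3 / 4 : ℝ)) = (τ ^ 3)⁻¹ := by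
    rw [hτd, Real.rpow_neg hσ.le, ← Real.rpow_natCast, ← Real.rpow_mul hσ.le]; norm_num
  rw [hneg]
  have hden : 0 < τ ^ 3 * K ^ 8 := by positivity
  have key : ∀ c : ℝ, c * (P.card : ℝ) / (τ ^ 3 * K ^ 8) ≤ (radii P).ncard →
      min c₁ (c₀ ^ 4 / 6) ≤ c →
      min c₁ (c₀ ^ 4 / 6) * (P.card : ℝ) * (τ ^ 3)⁻¹ / K ^ 8 ≤ (radii P).ncard := by
    intro c h1 h2
    refine le_trans ?_ h1
    rw [← div_eq_mul_inv, div_div]
    exact div_le_div_of_nonneg_right (mul_le_mul_of_nonneg_right h2 hn.le) hden.le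
  rcases le_or_gt (K ^ 2 * τ ^ 5) c₀ with hcase | hcase
  · refine key c₁ ?_ (min_le_left _ _)
    rw [hc₁]
    refine main_case hB hR hTh hC hQ hA hGP hn hD hK hσ hσ1 hx hH hτ hτ1 hστ ?_
    linarith
  · exact key _ (second_step hn hτ hτ1 hK0 hc0 hcase.le (hT P hGP hP3)) (min_le_right _ _)

end Pool.Agent.Lib.MP_cd3201_co.Dense.Dim2M
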