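import Mathlib
import Pool.Agent.Lib.MP_cd3201_co.Dense.Spec

/-! # Fold: near right triangles and their circumradius -/

namespace Pool.Agent.Lib.MP_cd3201_co.Dense.FoldM

open Pool.Agent.Lib.MP_cd3201_co.Dense

lemma sq_norm_re_im (z : ℂ) : ‖z‖ ^ 2 = z.re ^ 2 + z.im ^ 2 := by
  rw [← Complex.normSq_eq_norm_sq, Complex.normSq_apply]
  ring

lemma ident (u1 u2 v1 v2 z1 z2 : ℝ) (h1 : 2 * (z1 * u1 + z2 * u2) = u1 ^ 2 + u2 ^ 2)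
    (h2 : 2 * (z1 * v1 + z2 * v2) = v1 ^ 2 + v2 ^ 2) :
    4 * (z1 ^ 2 + z2 ^ 2) * (u1 * v2 - u2 * v1) ^ 2 =
      (u1 ^ 2 + u2 ^ 2) * (v1 ^ 2 + v2 ^ 2) * ((u1 - v1) ^ 2 + (u2 - v2) ^ 2) := by
  have e1 : 2 * z1 * (u1 * v2 - u2 * v1) = (u1 ^ 2 + u2 ^ 2) * v2 - (v1 ^ 2 + v2 ^ 2) * u2 := by
    rw [← h1, ← h2]; ring
  have e2 : 2 * z2 * (u1 * v2 - u2 * v1) = (v1 ^ 2 + v2 ^ 2) * u1 - (u1 ^ 2 + u2 ^ 2) * v1 := by
    rw [← h1, ← h2]; ring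
  calc 4 * (z1 ^ 2 + z2 ^ 2) * (u1 * v2 - u2 * v1) ^ 2
      = (2 * z1 * (u1 * v2 - u2 * v1)) ^ 2 + (2 * z2 * (u1 * v2 - u2 * v1)) ^ 2 := by ring
    _ = _ := by rw [e1, e2]; ring

theorem specFold : SpecFold := by
  intro a b c w r δ ha hb hc hδ hδ2 hu hv hip
  refine ⟨?_, ?_⟩
  · calc ‖b - c‖ = ‖(b - w) - (c - w)‖ := by rw [sub_sub_sub_cancel_right]
      _ ≤ ‖b - w‖ + ‖c - w‖ := norm_sub_le _ _
      _ = 2 * r := by rw [hb, hc]; ring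
  · have hr : 0 ≤ r := by rw [← ha]; exact norm_nonneg _
    have ha2 : (a - w).re ^ 2 + (a - w).im ^ 2 = r ^ 2 := by rw [← sq_norm_re_im, ha]
    have hb2 : (b - w).re ^ 2 + (b - w).im ^ 2 = r ^ 2 := by rw [← sq_norm_re_im, hb]
    have hc2 : (c - w).re ^ 2 + (c - w).im ^ 2 = r ^ 2 := by rw [← sq_norm_re_im, hc]
    have hU : ‖b - a‖ ^ 2 = (b - a).re ^ 2 + (b - a).im ^ 2 := sq_norm_re_im _
    have hV : ‖c - a‖ ^ 2 = (c - a).re ^ 2 + (c - a).im ^ 2 := sq_norm_re_im _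
    have hW : ‖b - c‖ ^ 2 = (b - c).re ^ 2 + (b - c).im ^ 2 := sq_norm_re_im _
    have hI : ip (b - a) (c - a) ^ 2 ≤ δ ^ 2 * (‖b - a‖ ^ 2 * ‖c - a‖ ^ 2) := by
      have h0 : 0 ≤ δ * ‖b - a‖ * ‖c - a‖ := by positivity
      have h1 := pow_le_pow_left₀ (abs_nonneg _) hip 2
      rw [sq_abs] at h1
      calc _ ≤ _ := h1
        _ = _ := by ring
    have hU2 : 0 < ‖b - a‖ ^ 2 := by positivity
    have hV2 : 0 < ‖c - a‖ ^ 2 := by positivity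
    simp only [Complex.sub_re, Complex.sub_im] at ha2 hb2 hc2 hU hV hW
    have hid := ident (b.re - a.re) (b.im - a.im) (c.re - a.re) (c.im - a.im)
      (w.re - a.re) (w.im - a.im) (by linear_combination ha2 - hb2) (by linear_combination ha2 - hc2)
    have e0 : (w.re - a.re) ^ 2 + (w.im - a.im) ^ 2 = r ^ 2 := by linear_combination ha2
    have e1 : (b.re - a.re - (c.re - a.re)) ^ 2 + (b.im - a.im - (c.im - a.im)) ^ 2 =
        ‖b - c‖ ^ 2 := by rw [hW]; ring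
    rw [e0, ← hU, ← hV, e1] at hid
    have hdet : ((b.re - a.re) * (c.im - a.im) - (b.im - a.im) * (c.re - a.re)) ^ 2 =
        ‖b - a‖ ^ 2 * ‖c - a‖ ^ 2 - ip (b - a) (c - a) ^ 2 := by
      rw [hU, hV]
      simp only [ip, Complex.sub_re, Complex.sub_im]
      ring
    rw [hdet] at hid
    set U := ‖b - a‖ ^ 2 with hUd
    set V := ‖c - a‖ ^ 2 with hVd
    set I := ip (b - a) (c - a) with hId
    have hUV : 0 < U * V := mul_pos hU2 hV2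
    -- `4 r² (1 - δ²) ≤ |b - c|²`
    have h3 : 4 * r ^ 2 * (1 - δ ^ 2) ≤ ‖b - c‖ ^ 2 := by
      have h4 : 4 * r ^ 2 * ((1 - δ ^ 2) * (U * V)) ≤ 4 * r ^ 2 * (U * V - I ^ 2) := by
        apply mul_le_mul_of_nonneg_left _ (by positivity)
        linarith
      rw [hid] at h4
      have h5 : (4 * r ^ 2 * (1 - δ ^ 2)) * (U * V) ≤ ‖b - c‖ ^ 2 * (U * V) := by
        calc (4 * r ^ 2 * (1 - δ ^ 2)) * (U * V) = 4 * r ^ 2 * ((1 - δ ^ 2) * (U * V)) := by ring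
          _ ≤ _ := h4
          _ = _ := by ring
      exact le_of_mul_le_mul_right h5 hUV
    have h6 : 1 ≤ (1 - δ ^ 2) * (1 + δ ^ 2) ^ 2 := by
      have h0 : 0 ≤ δ ^ 2 := by positivity
      nlinarith [mul_nonneg h0 (by nlinarith : (0:ℝ) ≤ 1 - δ ^ 2 - (δ ^ 2) ^ 2)]
    have h7 : (2 * r) ^ 2 ≤ ((1 + δ ^ 2) * ‖b - c‖) ^ 2 := by
      calc (2 * r) ^ 2 = 4 * r ^ 2 * 1 := by ring
        _ ≤ 4 * r ^ 2 * ((1 - δ ^ 2) * (1 + δ ^ 2) ^ 2) :=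
            mul_le_mul_of_nonneg_left h6 (by positivity)
        _ = (4 * r ^ 2 * (1 - δ ^ 2)) * (1 + δ ^ 2) ^ 2 := by ring
        _ ≤ ‖b - c‖ ^ 2 * (1 + δ ^ 2) ^ 2 := mul_le_mul_of_nonneg_right h3 (by positivity)
        _ = _ := by ring
    exact le_of_sq_le_sq h7 (by positivity)

end Pool.Agent.Lib.MP_cd3201_co.Dense.FoldM
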