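import Mathlib
import Pool.Agent.Lib.MP_cd3201_co.Dense.Spec

/-!
# Module GB: Gaussian average of `|B|²`
-/

open Finset MeasureTheory
open scoped Real

namespace Pool.Agent.Lib.MP_cd3201_co.Dense.GBM

/-- the Fourier transform of a translated Gaussian has the expected absolute value -/
lemma norm_shift {l : ℝ} (hl : 0 < l) (u y : ℂ) :
    ‖∫ ξ : ℂ, (Real.exp (-(π * l * ‖ξ - y‖ ^ 2)) : ℂ) * e (ip u ξ)‖ =
      1 / l * Real.exp (-(π * ‖u‖ ^ 2 / l)) := by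
  have h1 : ∫ ξ : ℂ, (Real.exp (-(π * l * ‖ξ - y‖ ^ 2)) : ℂ) * e (ip u ξ) =
      ∫ v : ℂ, (Real.exp (-(π * l * ‖v‖ ^ 2)) : ℂ) * e (ip u (v + y)) := by
    rw [← integral_add_right_eq_self (fun ξ : ℂ =>
      (Real.exp (-(π * l * ‖ξ - y‖ ^ 2)) : ℂ) * e (ip u ξ)) y]
    simp only [add_sub_cancel_right]
  have h2 : ∀ v : ℂ, (Real.exp (-(π * l * ‖v‖ ^ 2)) : ℂ) * e (ip u (v + y)) =
      e (ip u y) * ((Real.exp (-(π * l * ‖v‖ ^ 2)) : ℂ) * e (ip v u)) := by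
    intro v
    rw [ip_add_right, e_add, ip_comm v u]
    ring
  rw [h1]
  simp_rw [h2]
  rw [integral_const_mul, gauss_fourier hl u, norm_mul, norm_e, one_mul, Complex.norm_real,
    Real.norm_eq_abs, abs_of_nonneg (by positivity)]

theorem specGB : SpecGB := by
  intro ι s x c l y hl
  have hpl : 0 < π * l := by positivity
  have key : ((∫ ξ : ℂ, Real.exp (-(π * l * ‖ξ - y‖ ^ 2)) * ‖B s x c ξ‖ ^ 2 : ℝ) : ℂ) =
      ∑ p ∈ s, ∑ q ∈ s, ((c p * c q : ℝ) : ℂ) *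
        ∫ ξ : ℂ, (Real.exp (-(π * l * ‖ξ - y‖ ^ 2)) : ℂ) * e (ip (x p - x q) ξ) := by
    rw [← integral_complex_ofReal]
    have h1 : ∀ ξ : ℂ, ((Real.exp (-(π * l * ‖ξ - y‖ ^ 2)) * ‖B s x c ξ‖ ^ 2 : ℝ) : ℂ) =
        ∑ p ∈ s, ∑ q ∈ s, ((c p * c q : ℝ) : ℂ) *
          ((Real.exp (-(π * l * ‖ξ - y‖ ^ 2)) : ℂ) * e (ip (x p - x q) ξ)) := by
      intro ξ
      rw [Complex.ofReal_mul, sq_norm_B, mul_sum]
      refine sum_congr rfl fun p _ => ?_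
      rw [mul_sum]
      refine sum_congr rfl fun q _ => ?_
      ring
    simp_rw [h1]
    have hi : ∀ p q : ι, Integrable (fun ξ : ℂ => ((c p * c q : ℝ) : ℂ) *
        ((Real.exp (-(π * l * ‖ξ - y‖ ^ 2)) : ℂ) * e (ip (x p - x q) ξ))) := by
      intro p q
      refine Integrable.const_mul ?_ _
      exact integrable_gauss_mulC hpl y (f := fun ξ => e (ip (x p - x q) ξ))
        (continuous_e.comp (continuous_ip_right _)) (C := 1) (fun v => (norm_e _).le)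
    rw [integral_finsetSum _ fun p _ => integrable_finsetSum _ fun q _ => hi p q]
    refine sum_congr rfl fun p _ => ?_
    rw [integral_finsetSum _ fun q _ => hi p q]
    refine sum_congr rfl fun q _ => ?_
    rw [integral_const_mul]
  have hnn : 0 ≤ ∫ ξ : ℂ, Real.exp (-(π * l * ‖ξ - y‖ ^ 2)) * ‖B s x c ξ‖ ^ 2 :=
    integral_nonneg fun ξ => by positivity
  calc ∫ ξ : ℂ, Real.exp (-(π * l * ‖ξ - y‖ ^ 2)) * ‖B s x c ξ‖ ^ 2
      = ‖((∫ ξ : ℂ, Real.exp (-(π * l * ‖ξ - y‖ ^ 2)) * ‖B s x c ξ‖ ^ 2 : ℝ) : ℂ)‖ := by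
        rw [Complex.norm_real, Real.norm_eq_abs, abs_of_nonneg hnn]
    _ = ‖∑ p ∈ s, ∑ q ∈ s, ((c p * c q : ℝ) : ℂ) *
        ∫ ξ : ℂ, (Real.exp (-(π * l * ‖ξ - y‖ ^ 2)) : ℂ) * e (ip (x p - x q) ξ)‖ := by rw [key]
    _ ≤ ∑ p ∈ s, ∑ q ∈ s, |c p * c q| * (1 / l * Real.exp (-(π * ‖x p - x q‖ ^ 2 / l))) := by
        refine (norm_sum_le _ _).trans (sum_le_sum fun p _ => ?_)
        refine (norm_sum_le _ _).trans (sum_le_sum fun q _ => ?_)
        rw [norm_mul, norm_shift hl, Complex.norm_real, Real.norm_eq_abs]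
    _ = 1 / l * ∑ p ∈ s, ∑ q ∈ s, |c p * c q| * Real.exp (-(π * ‖x p - x q‖ ^ 2 / l)) := by
        rw [mul_sum]
        refine sum_congr rfl fun p _ => ?_
        rw [mul_sum]
        refine sum_congr rfl fun q _ => ?_
        ring

end Pool.Agent.Lib.MP_cd3201_co.Dense.GBM
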