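import Pool.Agent.Lib.MP_cd3201_co.Dense.Spec

/-!
# Module GS: the Gaussian energy of a family satisfying `(H_t)`
-/

open Finset MeasureTheory
open scoped Real

namespace Pool.Agent.Lib.MP_cd3201_co.Dense.GSM

variable {ι : Type}

/-- all radii -/
lemma cnt_le {s : Finset ι} {x : ι → ℂ} {t K σ : ℝ} (hH : H s x t K σ) (ht : 0 < t)
    (hK : 1 ≤ K) (hσ : 0 < σ) (hσ1 : σ ≤ 1) (y : ℂ) (ρ : ℝ) (hρ : 0 ≤ ρ) :
    (cnt s x y ρ : ℝ) ≤ K * s.card * (ρ ^ t + σ ^ t) := by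
  have hn : (0 : ℝ) ≤ s.card := Nat.cast_nonneg _
  have hρt : 0 ≤ ρ ^ t := Real.rpow_nonneg hρ t
  have hσt : 0 ≤ σ ^ t := Real.rpow_nonneg hσ.le t
  have hKn : 0 ≤ K * s.card := by positivity
  rcases lt_or_ge ρ σ with h1 | h1
  · have h2 := hH y σ le_rfl hσ1
    have h3 : (cnt s x y ρ : ℝ) ≤ (cnt s x y σ : ℝ) := by
      unfold cnt
      exact_mod_cast Finset.card_le_card (Finset.monotone_filter_right s
        (fun p _ hp => le_trans hp h1.le))
    nlinarith [mul_nonneg hKn hρt]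
  · rcases le_or_gt ρ 1 with h2 | h2
    · have h3 := hH y ρ h1 h2
      nlinarith [mul_nonneg hKn hσt]
    · have h3 : (cnt s x y ρ : ℝ) ≤ s.card := by
        unfold cnt
        exact_mod_cast Finset.card_filter_le _ _
      have h4 : 1 ≤ ρ ^ t := Real.one_le_rpow h2.le ht.le
      have h5 : (s.card : ℝ) ≤ K * s.card := by nlinarith
      nlinarith [mul_nonneg hKn hσt, mul_le_mul_of_nonneg_left h4 hKn]

lemma exp_neg_pi_le : Real.exp (-π) ≤ 1 / 4 := by
  have h1 : Real.exp (-π) ≤ Real.exp (-3) := Real.exp_le_exp.2 (by linarith [Real.pi_gt_three])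
  have h2 : (4 : ℝ) ≤ Real.exp 3 := by
    have := Real.add_one_le_exp (3 : ℝ)
    linarith
  rw [Real.exp_neg] at h1 ⊢
  rw [Real.exp_neg] at h1
  refine h1.trans ?_
  rw [one_div]
  exact inv_anti₀ (by norm_num) h2

lemma exp_pow_le (k : ℕ) : ((k : ℝ) + 1) * Real.exp (-(π * k)) ≤ (1 / 2) ^ k := by
  have h1 : Real.exp (-(π * k)) = Real.exp (-π) ^ k := by
    rw [← Real.exp_nat_mul]; congr 1; ring
  have h2 : Real.exp (-π) ^ k ≤ (1 / 4) ^ k :=
    pow_le_pow_left₀ (Real.exp_pos _).le exp_neg_pi_le k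
  have h3 : ((k : ℝ) + 1) ≤ 2 ^ k := by
    have := Nat.lt_two_pow_self (n := k)
    exact_mod_cast this
  rw [h1]
  calc ((k : ℝ) + 1) * Real.exp (-π) ^ k ≤ 2 ^ k * (1 / 4) ^ k := by
        apply mul_le_mul h3 h2 (by positivity) (by positivity)
    _ = (1 / 2) ^ k := by rw [← mul_pow]; norm_num

lemma geom_half (M : ℕ) : ∑ k ∈ range M, (1 / 2 : ℝ) ^ k ≤ 2 := by
  have h := geom_sum_eq (x := (1 / 2 : ℝ)) (by norm_num) M
  rw [h]
  have : (0 : ℝ) ≤ (1 / 2) ^ M := by positivity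
  have h2 : ((1 / 2 : ℝ) ^ M - 1) / (1 / 2 - 1) = 2 - 2 * (1 / 2) ^ M := by ring
  rw [h2]
  linarith

/-- one row of the energy -/
lemma row_le {s : Finset ι} {x : ι → ℂ} {t K σ a : ℝ} (hx : ∀ p ∈ s, ‖x p‖ ≤ 1)
    (hH : H s x t K σ) (ht : 0 < t) (ht2 : t ≤ 2)
    (hK : 1 ≤ K) (hσ : 0 < σ) (hσ1 : σ ≤ 1) (ha : 0 < a) {p : ι} (hp : p ∈ s) :
    ∑ q ∈ s, Real.exp (-(π * ‖x p - x q‖ ^ 2 / a)) ≤
      4 * K * s.card * (a ^ (t / 2) + σ ^ t) := by
  classical
  have hn : (0 : ℝ) ≤ s.card := Nat.cast_nonneg _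
  have hat : 0 ≤ a ^ (t / 2) := Real.rpow_nonneg ha.le _
  have hσt : 0 ≤ σ ^ t := Real.rpow_nonneg hσ.le t
  have hKn : 0 ≤ K * s.card := by positivity
  set M : ℕ := ⌊4 / a⌋₊ + 1 with hM
  have hpt : ∀ q ∈ s, Real.exp (-(π * ‖x p - x q‖ ^ 2 / a)) ≤
      ∑ k ∈ range M, Real.exp (-(π * k)) *
        (if ‖x q - x p‖ ≤ √(a * (k + 1)) then (1 : ℝ) else 0) := by
    intro q hq
    have hd : ‖x p - x q‖ ≤ 2 := by
      have := norm_sub_le (x p) (x q)
      linarith [hx p hp, hx q hq]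
    have hd2 : ‖x p - x q‖ ^ 2 / a ≤ 4 / a := by
      apply div_le_div_of_nonneg_right _ ha.le
      nlinarith [norm_nonneg (x p - x q)]
    set m : ℕ := ⌊‖x p - x q‖ ^ 2 / a⌋₊ with hm
    have hmM : m ∈ range M := by
      rw [mem_range, hM, hm]
      exact Nat.lt_succ_of_le (Nat.floor_le_floor hd2)
    have hm1 : (m : ℝ) ≤ ‖x p - x q‖ ^ 2 / a := Nat.floor_le (by positivity)
    have hm2 : ‖x p - x q‖ ^ 2 / a < m + 1 := Nat.lt_floor_add_one _
    have hle : ‖x q - x p‖ ≤ √(a * (m + 1)) := by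
      apply Real.le_sqrt_of_sq_le
      rw [norm_sub_rev]
      rw [div_lt_iff₀ ha] at hm2
      nlinarith
    calc Real.exp (-(π * ‖x p - x q‖ ^ 2 / a)) ≤ Real.exp (-(π * m)) := by
          apply Real.exp_le_exp.2
          have := mul_le_mul_of_nonneg_left hm1 Real.pi_pos.le
          have h3 : π * ‖x p - x q‖ ^ 2 / a = π * (‖x p - x q‖ ^ 2 / a) := by ring
          rw [h3]
          linarith
      _ = Real.exp (-(π * m)) * (if ‖x q - x p‖ ≤ √(a * (m + 1)) then (1 : ℝ) else 0) := by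
          rw [if_pos hle, mul_one]
      _ ≤ _ := Finset.single_le_sum (f := fun k : ℕ => Real.exp (-(π * k)) *
            (if ‖x q - x p‖ ≤ √(a * (k + 1)) then (1 : ℝ) else 0))
            (fun k _ => mul_nonneg (Real.exp_pos _).le (by split_ifs <;> norm_num)) hmM
  calc ∑ q ∈ s, Real.exp (-(π * ‖x p - x q‖ ^ 2 / a))
      ≤ ∑ q ∈ s, ∑ k ∈ range M, Real.exp (-(π * k)) *
        (if ‖x q - x p‖ ≤ √(a * (k + 1)) then (1 : ℝ) else 0) := sum_le_sum hpt
    _ = ∑ k ∈ range M, Real.exp (-(π * k)) * (cnt s x (x p) (√(a * (k + 1))) : ℝ) := by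
        rw [sum_comm]
        refine sum_congr rfl fun k _ => ?_
        rw [← mul_sum]
        congr 1
        unfold cnt
        rw [Finset.sum_boole]
    _ ≤ ∑ k ∈ range M, 2 * (K * s.card * (a ^ (t / 2) + σ ^ t)) * (1 / 2) ^ k := by
        refine sum_le_sum fun k _ => ?_
        have h1 := cnt_le hH ht hK hσ hσ1 (x p) (√(a * (k + 1))) (Real.sqrt_nonneg _)
        have hk1 : (1 : ℝ) ≤ (k : ℝ) + 1 := by
          have : (0 : ℝ) ≤ k := Nat.cast_nonneg _
          linarith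
        have h2 : √(a * (k + 1)) ^ t ≤ a ^ (t / 2) * (k + 1) := by
          rw [Real.sqrt_eq_rpow, ← Real.rpow_mul (by positivity),
            show (1 / 2 : ℝ) * t = t / 2 by ring, Real.mul_rpow ha.le (by positivity)]
          apply mul_le_mul_of_nonneg_left _ hat
          calc ((k : ℝ) + 1) ^ (t / 2) ≤ ((k : ℝ) + 1) ^ (1 : ℝ) :=
                Real.rpow_le_rpow_of_exponent_le hk1 (by linarith)
            _ = (k : ℝ) + 1 := Real.rpow_one _
        have h3 : (cnt s x (x p) (√(a * (k + 1))) : ℝ) ≤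
            K * s.card * (a ^ (t / 2) + σ ^ t) * (k + 1) := by
          refine h1.trans ?_
          rw [mul_assoc]
          rw [mul_assoc (K * (s.card : ℝ))] 
          rw [← mul_assoc]
          apply mul_le_mul_of_nonneg_left _ hKn
          nlinarith
        calc Real.exp (-(π * k)) * (cnt s x (x p) (√(a * (k + 1))) : ℝ)
            ≤ Real.exp (-(π * k)) * (K * s.card * (a ^ (t / 2) + σ ^ t) * (k + 1)) :=
              mul_le_mul_of_nonneg_left h3 (Real.exp_pos _).le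
          _ = (K * s.card * (a ^ (t / 2) + σ ^ t)) * (((k : ℝ) + 1) * Real.exp (-(π * k))) := by
              ring
          _ ≤ (K * s.card * (a ^ (t / 2) + σ ^ t)) * (1 / 2) ^ k :=
              mul_le_mul_of_nonneg_left (exp_pow_le k) (by positivity)
          _ ≤ 2 * (K * s.card * (a ^ (t / 2) + σ ^ t)) * (1 / 2) ^ k := by
              have : 0 ≤ (K * s.card * (a ^ (t / 2) + σ ^ t)) * (1 / 2) ^ k := by positivity
              nlinarith
    _ = 2 * (K * s.card * (a ^ (t / 2) + σ ^ t)) * ∑ k ∈ range M, (1 / 2 : ℝ) ^ k := by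
        rw [mul_sum]
    _ ≤ 2 * (K * s.card * (a ^ (t / 2) + σ ^ t)) * 2 :=
        mul_le_mul_of_nonneg_left (geom_half M) (by positivity)
    _ = _ := by ring

theorem specGS : SpecGS := by
  intro ι s x t K σ a hx hH ht ht2 hK hσ hσ1 ha
  unfold G
  calc ∑ p ∈ s, ∑ q ∈ s, Real.exp (-(π * ‖x p - x q‖ ^ 2 / a))
      ≤ ∑ _p ∈ s, 4 * K * s.card * (a ^ (t / 2) + σ ^ t) :=
        sum_le_sum fun p hp => row_le hx hH ht ht2 hK hσ hσ1 ha hp
    _ = _ := by rw [sum_const, nsmul_eq_mul]; ring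

end Pool.Agent.Lib.MP_cd3201_co.Dense.GSM
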