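import Mathlib
import Pool.Agent.Lib.MP_cd3201_co.Dense.Spec

/-!
# Distinct circumradii, module Inner: step (5b)

The angular integral of a Gaussian centred on a circle.
-/

open Finset MeasureTheory
open scoped Real

namespace Pool.Agent.Lib.MP_cd3201_co.Dense.InnerM

/-- `|η - e^{iθ}ξ|` in polar coordinates. -/
lemma norm_sq_eq (ξ η : ℂ) (θ : ℝ) :
    ‖η - Complex.exp (θ * Complex.I) * ξ‖ ^ 2 =
      ‖η‖ ^ 2 - 2 * ‖η‖ * ‖ξ‖ * Real.cos (θ + (ξ.arg - η.arg)) + ‖ξ‖ ^ 2 := by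
  have h1 : η = (‖η‖ : ℂ) * Complex.exp (η.arg * Complex.I) := (Complex.norm_mul_exp_arg_mul_I η).symm
  have h2 : ξ = (‖ξ‖ : ℂ) * Complex.exp (ξ.arg * Complex.I) := (Complex.norm_mul_exp_arg_mul_I ξ).symm
  set a := ‖η‖ with ha
  set r := ‖ξ‖ with hr
  set ψ : ℝ := θ + (ξ.arg - η.arg) with hψ
  have h3 : η - Complex.exp (θ * Complex.I) * ξ =
      Complex.exp (η.arg * Complex.I) * ((a : ℂ) - (r : ℂ) * Complex.exp (ψ * Complex.I)) := by
    have h4 : Complex.exp (θ * Complex.I) * ξ =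
        (r : ℂ) * (Complex.exp (η.arg * Complex.I) * Complex.exp (ψ * Complex.I)) := by
      rw [← Complex.exp_add]
      conv_lhs => rw [h2]
      rw [mul_left_comm, ← Complex.exp_add]
      congr 2
      rw [hψ]; push_cast; ring
    rw [h4]
    nth_rewrite 1 [h1]
    ring
  rw [h3, norm_mul, Complex.norm_exp_ofReal_mul_I, one_mul, ← Complex.normSq_eq_norm_sq,
    Complex.normSq_apply]
  have hre : ((a : ℂ) - (r : ℂ) * Complex.exp (ψ * Complex.I)).re = a - r * Real.cos ψ := by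
    simp [Complex.exp_ofReal_mul_I_re]
  have him : ((a : ℂ) - (r : ℂ) * Complex.exp (ψ * Complex.I)).im = -(r * Real.sin ψ) := by
    simp [Complex.exp_ofReal_mul_I_im]
  rw [hre, him]
  nlinarith [Real.sin_sq_add_cos_sq ψ]

lemma lower (ξ η : ℂ) (θ : ℝ) :
    (‖η‖ - ‖ξ‖) ^ 2 / 2 + ‖ξ‖ ^ 2 * Real.sin (θ + (ξ.arg - η.arg)) ^ 2 / 2 ≤
      ‖η - Complex.exp (θ * Complex.I) * ξ‖ ^ 2 := by
  rw [norm_sq_eq]
  set a := ‖η‖
  set r := ‖ξ‖
  set ψ : ℝ := θ + (ξ.arg - η.arg)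
  have ha : 0 ≤ a := norm_nonneg _
  have hr : 0 ≤ r := norm_nonneg _
  have hc : Real.cos ψ ≤ 1 := Real.cos_le_one ψ
  have h1 : 0 ≤ a * r * (1 - Real.cos ψ) := mul_nonneg (mul_nonneg ha hr) (by linarith)
  have h2 := Real.sin_sq_add_cos_sq ψ
  have h3 : 0 ≤ (a - r * Real.cos ψ) ^ 2 := sq_nonneg _
  have h4 : a ^ 2 - 2 * a * r * Real.cos ψ + r ^ 2 =
      (a - r * Real.cos ψ) ^ 2 + r ^ 2 * Real.sin ψ ^ 2 := by
    nlinarith [h2]
  nlinarith

/-- the Gaussian of the sine over sixteen units -/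
lemma sine_integral {A : ℝ} (hA : 0 < A) (φ : ℝ) :
    ∫ θ in (-8 : ℝ)..8, Real.exp (-(A * Real.sin (θ + φ) ^ 2)) ≤
      6 * √(π / (A * (2 / π) ^ 2)) := by
  have hpi := Real.pi_pos
  set F : ℝ → ℝ := fun ψ => Real.exp (-(A * Real.sin ψ ^ 2)) with hF
  have hFc : Continuous F := by rw [hF]; fun_prop
  have hper : Function.Periodic F π := by
    intro ψ
    simp only [hF, Real.sin_add_pi, neg_sq]
  have hnn : ∀ ψ, 0 ≤ F ψ := fun ψ => (Real.exp_pos _).le
  have h1 : ∫ θ in (-8 : ℝ)..8, Real.exp (-(A * Real.sin (θ + φ) ^ 2)) =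
      ∫ ψ in (-8 + φ)..(8 + φ), F ψ :=
    intervalIntegral.integral_comp_add_right (fun ψ => F ψ) φ
  have h2 : ∫ ψ in (-8 + φ)..(8 + φ), F ψ ≤ ∫ ψ in (-8 + φ)..(-8 + φ + (6 : ℤ) • π), F ψ := by
    apply intervalIntegral.integral_mono_interval le_rfl (by linarith) ?_
      (Filter.Eventually.of_forall hnn) (hFc.intervalIntegrable _ _)
    have : ((6 : ℤ) • π : ℝ) = 6 * π := by norm_num [zsmul_eq_mul]
    rw [this]
    have := Real.pi_gt_three
    linarith
  have h3 : ∫ ψ in (-8 + φ)..(-8 + φ + (6 : ℤ) • π), F ψ = (6 : ℤ) • ∫ ψ in (-8 + φ)..(-8 + φ + π), F ψ :=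
    hper.intervalIntegral_add_zsmul_eq 6 _ (fun t₁ t₂ => hFc.intervalIntegrable _ _)
  have h4 : ∫ ψ in (-8 + φ)..(-8 + φ + π), F ψ = ∫ ψ in (-(π / 2))..(-(π / 2) + π), F ψ :=
    hper.intervalIntegral_add_eq _ _
  have h5 : ∫ ψ in (-(π / 2))..(-(π / 2) + π), F ψ ≤
      ∫ ψ in (-(π / 2))..(-(π / 2) + π), Real.exp (-(A * (2 / π) ^ 2) * ψ ^ 2) := by
    apply intervalIntegral.integral_mono_on (by linarith) (hFc.intervalIntegrable _ _)
    · exact Continuous.intervalIntegrable (by fun_prop) _ _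
    · intro ψ hψ
      have habs : |ψ| ≤ π / 2 := by rw [abs_le]; constructor <;> linarith [hψ.1, hψ.2]
      have h6 := Real.mul_abs_le_abs_sin habs
      have h7 : (2 / π * |ψ|) ^ 2 ≤ |Real.sin ψ| ^ 2 := pow_le_pow_left₀ (by positivity) h6 2
      rw [mul_pow, sq_abs, sq_abs] at h7
      apply Real.exp_le_exp.mpr
      have := mul_le_mul_of_nonneg_left h7 hA.le
      linarith
  have hb : 0 < A * (2 / π) ^ 2 := by positivity
  have h8 : ∫ ψ in (-(π / 2))..(-(π / 2) + π), Real.exp (-(A * (2 / π) ^ 2) * ψ ^ 2) ≤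
      √(π / (A * (2 / π) ^ 2)) := by
    rw [← integral_gaussian, intervalIntegral.integral_of_le (by linarith)]
    exact setIntegral_le_integral (integrable_exp_neg_mul_sq hb)
      (Filter.Eventually.of_forall fun ψ => (Real.exp_pos _).le)
  rw [h1]
  refine h2.trans ?_
  rw [h3, h4, zsmul_eq_mul]
  push_cast
  exact mul_le_mul_of_nonneg_left (h5.trans h8) (by norm_num)

theorem specInner : SpecInner := by
  intro ξ η
  have hpi := Real.pi_pos
  set r := ‖ξ‖ with hr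
  set φ := ξ.arg - η.arg with hφ
  have hr0 : 0 ≤ r := norm_nonneg _
  set c := Real.exp (-(π / 2 * (‖η‖ - r) ^ 2)) with hc
  have hc0 : 0 < c := Real.exp_pos _
  have hcont : Continuous fun θ : ℝ => Real.exp (-(π * ‖η - Complex.exp (θ * Complex.I) * ξ‖ ^ 2)) := by
    fun_prop
  have hcont2 : Continuous fun θ : ℝ => c * Real.exp (-(π / 2 * r ^ 2 * Real.sin (θ + φ) ^ 2)) := by
    fun_prop
  have h1 : ∫ θ in (-8 : ℝ)..8, Real.exp (-(π * ‖η - Complex.exp (θ * Complex.I) * ξ‖ ^ 2)) ≤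
      ∫ θ in (-8 : ℝ)..8, c * Real.exp (-(π / 2 * r ^ 2 * Real.sin (θ + φ) ^ 2)) := by
    apply intervalIntegral.integral_mono_on (by norm_num) (hcont.intervalIntegrable _ _)
      (hcont2.intervalIntegrable _ _)
    intro θ _
    rw [hc, ← Real.exp_add]
    apply Real.exp_le_exp.mpr
    have := mul_le_mul_of_nonneg_left (lower ξ η θ) hpi.le
    rw [← hr, ← hφ] at this
    linarith
  rw [intervalIntegral.integral_const_mul] at h1
  refine h1.trans (mul_le_mul_of_nonneg_left ?_ hc0.le)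
  rcases le_total r 4 with h4 | h4
  · have h5 : ∫ θ in (-8 : ℝ)..8, Real.exp (-(π / 2 * r ^ 2 * Real.sin (θ + φ) ^ 2)) ≤
        ∫ _θ in (-8 : ℝ)..8, (1 : ℝ) := by
      apply intervalIntegral.integral_mono_on (by norm_num)
      · exact Continuous.intervalIntegrable (by fun_prop) _ _
      · exact Continuous.intervalIntegrable (by fun_prop) _ _
      · intro θ _
        rw [Real.exp_le_one_iff]
        have : 0 ≤ π / 2 * r ^ 2 * Real.sin (θ + φ) ^ 2 := by positivity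
        linarith
    refine h5.trans ?_
    simp only [intervalIntegral.integral_const, smul_eq_mul, mul_one]
    rw [le_div_iff₀ (by positivity)]
    linarith
  · have hA : 0 < π / 2 * r ^ 2 := by positivity
    refine (sine_integral hA φ).trans ?_
    have h6 : √(π / (π / 2 * r ^ 2 * (2 / π) ^ 2)) ≤ 8 / 3 / r := by
      apply Real.sqrt_le_iff.mpr
      refine ⟨by positivity, ?_⟩
      have h7 : π / (π / 2 * r ^ 2 * (2 / π) ^ 2) = π ^ 2 / 2 / r ^ 2 := by
        field_simp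
      rw [h7, div_pow]
      apply div_le_div_of_nonneg_right ?_ (by positivity)
      have := Real.pi_lt_d2
      nlinarith
    have hr1 : 0 < r := by linarith
    calc 6 * √(π / (π / 2 * r ^ 2 * (2 / π) ^ 2)) ≤ 6 * (8 / 3 / r) :=
          mul_le_mul_of_nonneg_left h6 (by norm_num)
      _ = 16 / r := by ring
      _ ≤ 80 / (1 + r) := by
          rw [div_le_div_iff₀ hr1 (by positivity)]
          linarith

end Pool.Agent.Lib.MP_cd3201_co.Dense.InnerM
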