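import Mathlib
import Pool.Agent.Lib.MP_cd3201_co.Dense.Spec

/-!
# The dyadic majorant of `1 / √(1 + r) * exp (- 2 π σ² r²)`
-/

open Finset MeasureTheory
open scoped Real

namespace Pool.Agent.Lib.MP_cd3201_co.Dense.MajorM

theorem specMajor : SpecMajor := by
  intro σ r m hσ hr hm
  have hpi := Real.pi_pos
  have hpos : ∀ j ∈ range (m + 1),
      0 ≤ (1 / √((2 : ℝ) ^ j)) * Real.exp (-(π * r ^ 2 / 4 ^ j)) := fun j _ => by positivity
  -- it suffices to bound by one term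
  have key : ∀ j ∈ range (m + 1), 1 / √(1 + r) * Real.exp (-(2 * π * σ ^ 2 * r ^ 2)) ≤
      √2 * Real.exp π * ((1 / √((2 : ℝ) ^ j)) * Real.exp (-(π * r ^ 2 / 4 ^ j))) →
      1 / √(1 + r) * Real.exp (-(2 * π * σ ^ 2 * r ^ 2)) ≤
    √2 * Real.exp π * ∑ j ∈ range (m + 1), (1 / √(2 ^ j)) * Real.exp (-(π * r ^ 2 / 4 ^ j)) := by
    intro j hj h
    refine h.trans ?_
    refine mul_le_mul_of_nonneg_left ?_ (by positivity)
    exact single_le_sum hpos hj
  have hE : ∀ s : ℝ, 0 ≤ s → Real.exp (-s) ≤ 1 := fun s hs => by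
    rw [Real.exp_le_one_iff]; linarith
  have h2 : (1 : ℝ) ≤ √2 := by
    rw [show (1 : ℝ) = √1 by simp]
    exact Real.sqrt_le_sqrt (by norm_num)
  rcases le_or_gt r (2 ^ m) with hrm | hrm
  · -- the least `j` with `r ≤ 2 ^ j`
    classical
    have hex : ∃ j : ℕ, r ≤ 2 ^ j := ⟨m, hrm⟩
    set j := Nat.find hex with hj
    have hj1 : r ≤ 2 ^ j := Nat.find_spec hex
    have hjm : j ≤ m := Nat.find_min' hex hrm
    refine key j (mem_range.mpr (by omega)) ?_
    have hA : 1 / √(1 + r) ≤ √2 * (1 / √((2 : ℝ) ^ j)) := by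
      have hlow : (2 : ℝ) ^ j ≤ 2 * (1 + r) := by
        rcases Nat.eq_zero_or_pos j with h0 | h0
        · rw [h0]; simp; linarith
        · have hlt : (2 : ℝ) ^ (j - 1) < r := by
            by_contra hcon
            exact Nat.find_min hex (show j - 1 < j by omega) (not_lt.mp hcon)
          have : (2 : ℝ) ^ j = 2 * 2 ^ (j - 1) := by
            rw [← pow_succ']; congr 1; omega
          rw [this]; linarith
      have hs : √((2 : ℝ) ^ j) ≤ √2 * √(1 + r) := by
        rw [← Real.sqrt_mul (by norm_num)]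
        exact Real.sqrt_le_sqrt hlow
      have hp1 : 0 < √(1 + r) := Real.sqrt_pos.mpr (by linarith)
      have hp2 : 0 < √((2 : ℝ) ^ j) := Real.sqrt_pos.mpr (by positivity)
      rw [mul_one_div, div_le_div_iff₀ hp1 hp2]
      linarith
    have hB : Real.exp (-(2 * π * σ ^ 2 * r ^ 2)) ≤ Real.exp π * Real.exp (-(π * r ^ 2 / 4 ^ j)) := by
      rw [← Real.exp_add]
      refine (hE _ (by positivity)).trans ?_
      rw [Real.one_le_exp_iff]
      have h4 : r ^ 2 ≤ 4 ^ j := by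
        calc r ^ 2 ≤ (2 ^ j) ^ 2 := pow_le_pow_left₀ hr hj1 2
          _ = 4 ^ j := by rw [← pow_mul, mul_comm, pow_mul]; norm_num
      have h5 : r ^ 2 / 4 ^ j ≤ 1 := (div_le_one (by positivity)).mpr h4
      have h6 : π * r ^ 2 / 4 ^ j ≤ π := by
        rw [mul_div_assoc]
        exact mul_le_of_le_one_right hpi.le h5
      linarith
    calc 1 / √(1 + r) * Real.exp (-(2 * π * σ ^ 2 * r ^ 2))
        ≤ (√2 * (1 / √((2 : ℝ) ^ j))) * (Real.exp π * Real.exp (-(π * r ^ 2 / 4 ^ j))) :=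
          mul_le_mul hA hB (Real.exp_pos _).le (by positivity)
      _ = _ := by ring
  · refine key m (mem_range.mpr (by omega)) ?_
    have h2m : (0 : ℝ) < 2 ^ m := by positivity
    have hA : 1 / √(1 + r) ≤ 1 / √((2 : ℝ) ^ m) := by
      refine one_div_le_one_div_of_le (Real.sqrt_pos.mpr h2m) ?_
      exact Real.sqrt_le_sqrt (by linarith)
    have hσ1 : 1 ≤ σ * 2 ^ m := by
      rw [div_le_iff₀ hσ] at hm
      linarith [mul_comm σ ((2 : ℝ) ^ m)]
    have hσ2 : 1 ≤ σ ^ 2 * 4 ^ m := by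
      have : (σ * 2 ^ m) ^ 2 = σ ^ 2 * 4 ^ m := by
        rw [mul_pow, ← pow_mul, mul_comm m 2, pow_mul]; norm_num
      rw [← this]
      nlinarith
    have hB : Real.exp (-(2 * π * σ ^ 2 * r ^ 2)) ≤ Real.exp (-(π * r ^ 2 / 4 ^ m)) := by
      rw [Real.exp_le_exp]
      have h7 : π * r ^ 2 / 4 ^ m ≤ π * r ^ 2 * σ ^ 2 := by
        rw [div_le_iff₀ (by positivity)]
        have : 0 ≤ π * r ^ 2 := by positivity
        nlinarith
      nlinarith [mul_nonneg (mul_nonneg hpi.le (sq_nonneg r)) (sq_nonneg σ)]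
    have h3 : (1 : ℝ) ≤ √2 * Real.exp π := by
      have : (1 : ℝ) ≤ Real.exp π := Real.one_le_exp hpi.le
      nlinarith
    calc 1 / √(1 + r) * Real.exp (-(2 * π * σ ^ 2 * r ^ 2))
        ≤ (1 / √((2 : ℝ) ^ m)) * Real.exp (-(π * r ^ 2 / 4 ^ m)) :=
          mul_le_mul hA hB (Real.exp_pos _).le (by positivity)
      _ ≤ √2 * Real.exp π * ((1 / √((2 : ℝ) ^ m)) * Real.exp (-(π * r ^ 2 / 4 ^ m))) :=
          le_mul_of_one_le_left (by positivity) h3

end Pool.Agent.Lib.MP_cd3201_co.Dense.MajorM
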