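import Mathlib
import Pool.Agent.Lib.MP_cd3201_co.Dense.Spec

/-!
# (5d): the circular mean of `N`
-/

open Finset MeasureTheory
open scoped Real

namespace Pool.Agent.Lib.MP_cd3201_co.Dense.MeanM

lemma sq_lower (η ζ : ℂ) (r : ℝ) (hr : ‖ζ‖ = r) : ‖η‖ ^ 2 / 2 - r ^ 2 ≤ ‖η - ζ‖ ^ 2 := by
  have h1 : ‖η‖ ≤ ‖η - ζ‖ + ‖ζ‖ := by
    calc ‖η‖ = ‖(η - ζ) + ζ‖ := by rw [sub_add_cancel]
      _ ≤ _ := norm_add_le _ _
  rw [hr] at h1
  have h2 := norm_nonneg (η - ζ)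
  have h3 := norm_nonneg η
  have h4 : 0 ≤ r := hr ▸ norm_nonneg ζ
  nlinarith [sq_nonneg (‖η - ζ‖ - r)]

lemma sq_lower' (a r : ℝ) : a ^ 2 / 2 - r ^ 2 ≤ (a - r) ^ 2 := by
  nlinarith [sq_nonneg (a - 2 * r)]

lemma norm_rot (θ : ℝ) (ξ : ℂ) : ‖Complex.exp (θ * Complex.I) * ξ‖ = ‖ξ‖ := by
  rw [norm_mul, Complex.norm_exp_ofReal_mul_I, one_mul]

/-- **(5d)** -/
theorem specMean (h1 : SpecNB) (h2 : SpecInner) (h3 : SpecRing) : SpecMean := by
  obtain ⟨C, hC, h3⟩ := h3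
  refine ⟨80 * C, by positivity, ?_⟩
  intro ι s x K σ ξ hx hH hK hσ hσ1
  set b : ℂ → ℝ := fun η => ‖B s x (fun p => Real.exp (π * ‖x p‖ ^ 2)) η‖ ^ 2 with hb
  have hbc : Continuous b := (continuous_B s x _).norm.pow 2
  have hb0 : ∀ η, 0 ≤ b η := fun η => by positivity
  set M : ℝ := (∑ p ∈ s, |Real.exp (π * ‖x p‖ ^ 2)|) ^ 2 with hM
  have hbM : ∀ η, |b η| ≤ M := fun η => by
    rw [abs_of_nonneg (hb0 η)]
    exact pow_le_pow_left₀ (norm_nonneg _) (norm_B_le s x _ η) 2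
  have hpi := Real.pi_pos
  have hint0 : Integrable (fun η : ℂ => Real.exp (-(π / 2 * ‖η - 0‖ ^ 2)) * b η) :=
    integrable_gauss_mul (by positivity) 0 hbc hbM
  have hint1 : Integrable (fun η : ℂ => Real.exp (π * ‖ξ‖ ^ 2) *
      (Real.exp (-(π / 2 * ‖η - 0‖ ^ 2)) * b η)) := hint0.const_mul _
  -- the kernel
  set F : ℝ → ℂ → ℝ := fun θ η =>
    Real.exp (-(π * ‖η - Complex.exp (θ * Complex.I) * ξ‖ ^ 2)) * b η with hFdef
  have hF0 : ∀ θ η, 0 ≤ F θ η := fun θ η => mul_nonneg (Real.exp_pos _).le (hb0 η)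
  have hFcont : Continuous (Function.uncurry F) := by
    have : Function.uncurry F = fun z : ℝ × ℂ =>
        Real.exp (-(π * ‖z.2 - Complex.exp (z.1 * Complex.I) * ξ‖ ^ 2)) * b z.2 := by
      ext z; rfl
    rw [this]
    refine Continuous.mul ?_ (hbc.comp continuous_snd)
    fun_prop
  have hFle : ∀ θ η, F θ η ≤ Real.exp (π * ‖ξ‖ ^ 2) *
      (Real.exp (-(π / 2 * ‖η - 0‖ ^ 2)) * b η) := by
    intro θ η
    rw [← mul_assoc, ← Real.exp_add, sub_zero]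
    refine mul_le_mul_of_nonneg_right (Real.exp_le_exp.2 ?_) (hb0 η)
    have := sq_lower η (Complex.exp (θ * Complex.I) * ξ) ‖ξ‖ (norm_rot θ ξ)
    nlinarith
  set μ : Measure ℝ := volume.restrict (Set.Ioc (-8 : ℝ) 8) with hμ
  have hfin : IsFiniteMeasure μ := by
    rw [hμ]; infer_instance
  have hFint : Integrable (Function.uncurry F) (μ.prod volume) := by
    have hdom : Integrable (fun z : ℝ × ℂ => (1 : ℝ) * (Real.exp (π * ‖ξ‖ ^ 2) *
      (Real.exp (-(π / 2 * ‖z.2 - 0‖ ^ 2)) * b z.2))) (μ.prod volume) :=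
      (integrable_const (1 : ℝ)).mul_prod hint1
    refine hdom.mono' hFcont.aestronglyMeasurable (Filter.Eventually.of_forall fun z => ?_)
    have h0 : 0 ≤ Function.uncurry F z := hF0 z.1 z.2
    rw [Real.norm_eq_abs, abs_of_nonneg h0, one_mul]
    exact hFle z.1 z.2
  have hFint1 : ∀ θ, Integrable (F θ) := by
    intro θ
    refine hint1.mono' ?_ (Filter.Eventually.of_forall fun z => ?_)
    · exact (hFcont.comp (Continuous.prodMk_right θ)).aestronglyMeasurable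
    · rw [Real.norm_eq_abs, abs_of_nonneg (hF0 θ z)]
      exact hFle θ z
  have hNle : ∀ θ : ℝ, N s x (Complex.exp (θ * Complex.I) * ξ) ≤ ∫ η, F θ η := fun θ =>
    h1 ι s x _
  -- step 1
  have hA : ∫ θ in (-8 : ℝ)..8, N s x (Complex.exp (θ * Complex.I) * ξ) ≤
      ∫ θ, ∫ η, F θ η ∂volume ∂μ := by
    rw [intervalIntegral.integral_of_le (by norm_num)]
    refine integral_mono ?_ hFint.integral_prod_left fun θ => hNle θ
    have hc : Continuous (fun θ : ℝ => N s x (Complex.exp (θ * Complex.I) * ξ)) := by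
      refine (continuous_N s x).comp ?_
      fun_prop
    exact (hc.integrableOn_Icc (a := (-8 : ℝ)) (b := 8)).mono_set Set.Ioc_subset_Icc_self
  -- step 2 (Fubini)
  have hB : ∫ θ, ∫ η, F θ η ∂volume ∂μ = ∫ η, ∫ θ, F θ η ∂μ ∂volume :=
    integral_integral_swap hFint
  -- step 3
  have hk : ∀ η, ∫ θ, F θ η ∂μ ≤ 80 / (1 + ‖ξ‖) *
      (Real.exp (-(π / 2 * (‖η‖ - ‖ξ‖) ^ 2)) * b η) := by
    intro η
    have e1 : ∫ θ, F θ η ∂μ = (∫ θ in (-8 : ℝ)..8,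
        Real.exp (-(π * ‖η - Complex.exp (θ * Complex.I) * ξ‖ ^ 2))) * b η := by
      rw [intervalIntegral.integral_of_le (by norm_num), ← integral_mul_const]
    rw [e1]
    calc (∫ θ in (-8 : ℝ)..8, Real.exp (-(π * ‖η - Complex.exp (θ * Complex.I) * ξ‖ ^ 2))) * b η
        ≤ (Real.exp (-(π / 2 * (‖η‖ - ‖ξ‖) ^ 2)) * (80 / (1 + ‖ξ‖))) * b η :=
          mul_le_mul_of_nonneg_right (h2 ξ η) (hb0 η)
      _ = _ := by ring
  have hint2 : Integrable (fun η : ℂ => Real.exp (-(π / 2 * (‖η‖ - ‖ξ‖) ^ 2)) * b η) := by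
    have hdom : Integrable (fun η : ℂ => Real.exp (π / 2 * ‖ξ‖ ^ 2) *
        (Real.exp (-(π / 4 * ‖η - 0‖ ^ 2)) * b η)) :=
      (integrable_gauss_mul (by positivity) 0 hbc hbM).const_mul _
    refine hdom.mono' ?_ (Filter.Eventually.of_forall fun η => ?_)
    · refine Continuous.aestronglyMeasurable (Continuous.mul ?_ hbc)
      fun_prop
    · rw [Real.norm_eq_abs, abs_of_nonneg (mul_nonneg (Real.exp_pos _).le (hb0 η)), ← mul_assoc,
        ← Real.exp_add, sub_zero]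
      refine mul_le_mul_of_nonneg_right (Real.exp_le_exp.2 ?_) (hb0 η)
      have := sq_lower' ‖η‖ ‖ξ‖
      nlinarith
  have hD : ∫ η, ∫ θ, F θ η ∂μ ∂volume ≤ 80 / (1 + ‖ξ‖) *
      ∫ η : ℂ, Real.exp (-(π / 2 * (‖η‖ - ‖ξ‖) ^ 2)) * b η := by
    rw [← integral_const_mul]
    exact integral_mono hFint.integral_prod_right (hint2.const_mul _) hk
  have hR := h3 ι s x K σ ξ hx hH hK hσ hσ1
  have hpos : 0 ≤ 80 / (1 + ‖ξ‖) := by positivity
  calc ∫ θ in (-8 : ℝ)..8, N s x (Complex.exp (θ * Complex.I) * ξ)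
      ≤ 80 / (1 + ‖ξ‖) * ∫ η : ℂ, Real.exp (-(π / 2 * (‖η‖ - ‖ξ‖) ^ 2)) * b η := by
        rw [hB] at hA; exact hA.trans hD
    _ ≤ 80 / (1 + ‖ξ‖) * (C * K * (s.card : ℝ) ^ 2 * (1 + ‖ξ‖ * σ)) :=
        mul_le_mul_of_nonneg_left hR hpos
    _ = 80 * C * K * (s.card : ℝ) ^ 2 * (1 + ‖ξ‖ * σ) / (1 + ‖ξ‖) := by ring

end Pool.Agent.Lib.MP_cd3201_co.Dense.MeanM
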