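import Pool.Agent.Lib.MP_cd3201_co.Dense.Spec

/-!
# Distinct circumradii, module NB: `N` is at most a Gaussian average of `|B|²`
-/

open Finset MeasureTheory
open scoped Real

namespace Pool.Agent.Lib.MP_cd3201_co.Dense.NBM

lemma int_gauss_sub (ξ : ℂ) : ∫ v : ℂ, Real.exp (-(π * ‖v - ξ‖ ^ 2)) = 1 := by
  rw [integral_sub_right_eq_self (fun v : ℂ => Real.exp (-(π * ‖v‖ ^ 2))) ξ,
    integral_gauss Real.pi_pos, div_self Real.pi_ne_zero]

lemma int_e (y ξ : ℂ) :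
    ∫ v : ℂ, (Real.exp (-(π * ‖v - ξ‖ ^ 2)) : ℂ) * e (ip y v) =
      e (ip y ξ) * (Real.exp (-(π * ‖y‖ ^ 2)) : ℂ) := by
  have h1 := integral_add_right_eq_self (μ := volume)
    (fun v : ℂ => (Real.exp (-(π * ‖v - ξ‖ ^ 2)) : ℂ) * e (ip y v)) ξ
  rw [← h1]
  have h2 : ∀ v : ℂ, (Real.exp (-(π * ‖v + ξ - ξ‖ ^ 2)) : ℂ) * e (ip y (v + ξ)) =
      e (ip y ξ) * ((Real.exp (-(π * 1 * ‖v‖ ^ 2)) : ℂ) * e (ip v y)) := by
    intro v
    rw [add_sub_cancel_right, ip_add_right, e_add, ip_comm y v, mul_one]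
    ring
  simp_rw [h2]
  rw [integral_const_mul, gauss_fourier one_pos y]
  congr 1
  simp

theorem specNB : SpecNB := by
  intro ι s x ξ
  set c : ι → ℝ := fun p => Real.exp (π * ‖x p‖ ^ 2) with hc
  set M : ℝ := ∑ p ∈ s, |c p| with hM
  have hM0 : 0 ≤ M := sum_nonneg fun p _ => abs_nonneg _
  have hBM : ∀ v, ‖B s x c v‖ ≤ M := fun v => norm_B_le s x c v
  have hcont : Continuous (fun v => ‖B s x c v‖) := (continuous_B s x c).norm
  have hi1 : Integrable (fun v : ℂ => Real.exp (-(π * ‖v - ξ‖ ^ 2)) * ‖B s x c v‖) :=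
    integrable_gauss_mul Real.pi_pos ξ hcont (C := M)
      (fun v => by rw [abs_of_nonneg (norm_nonneg _)]; exact hBM v)
  have hi2 : Integrable (fun v : ℂ => Real.exp (-(π * ‖v - ξ‖ ^ 2)) * ‖B s x c v‖ ^ 2) :=
    integrable_gauss_mul Real.pi_pos ξ (hcont.pow 2) (C := M ^ 2)
      (fun v => by
        rw [abs_of_nonneg (by positivity)]
        exact pow_le_pow_left₀ (norm_nonneg _) (hBM v) 2)
  have hi0 : Integrable (fun v : ℂ => Real.exp (-(π * ‖v - ξ‖ ^ 2))) :=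
    integrable_gauss_sub Real.pi_pos ξ
  -- the value as an integral
  have hval : ∫ v : ℂ, (Real.exp (-(π * ‖v - ξ‖ ^ 2)) : ℂ) * B s x c v =
      B s x (fun _ => 1) ξ := by
    have h1 : ∀ v : ℂ, (Real.exp (-(π * ‖v - ξ‖ ^ 2)) : ℂ) * B s x c v =
        ∑ p ∈ s, (c p : ℂ) * ((Real.exp (-(π * ‖v - ξ‖ ^ 2)) : ℂ) * e (ip (x p) v)) := by
      intro v
      rw [B, mul_sum]
      refine sum_congr rfl fun p _ => ?_
      ring
    simp_rw [h1]
    rw [integral_finsetSum]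
    · rw [B]
      refine sum_congr rfl fun p _ => ?_
      rw [integral_const_mul, int_e]
      rw [hc]
      simp only
      rw [← mul_assoc, mul_comm _ (e (ip (x p) ξ)), mul_assoc, ← Complex.ofReal_mul,
        ← Real.exp_add, add_neg_cancel, Real.exp_zero]
      simp
    · intro p _
      apply Integrable.const_mul
      exact integrable_gauss_mulC Real.pi_pos ξ (continuous_e.comp (continuous_ip_right _))
        (C := 1) (fun v => (norm_e _).le)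
  -- Jensen
  set m : ℝ := ∫ v : ℂ, Real.exp (-(π * ‖v - ξ‖ ^ 2)) * ‖B s x c v‖ with hm
  have hn : ‖B s x (fun _ => 1) ξ‖ ≤ m := by
    rw [← hval]
    refine (norm_integral_le_integral_norm _).trans (le_of_eq ?_)
    rw [hm]
    congr 1
    ext v
    rw [norm_mul, Complex.norm_real, Real.norm_eq_abs, abs_of_pos (Real.exp_pos _)]
  have hj : 0 ≤ ∫ v : ℂ, Real.exp (-(π * ‖v - ξ‖ ^ 2)) * (‖B s x c v‖ - m) ^ 2 :=
    integral_nonneg fun v => by positivity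
  have hexp : ∫ v : ℂ, Real.exp (-(π * ‖v - ξ‖ ^ 2)) * (‖B s x c v‖ - m) ^ 2 =
      (∫ v : ℂ, Real.exp (-(π * ‖v - ξ‖ ^ 2)) * ‖B s x c v‖ ^ 2) - 2 * m * m + m ^ 2 * 1 := by
    have h1 : ∀ v : ℂ, Real.exp (-(π * ‖v - ξ‖ ^ 2)) * (‖B s x c v‖ - m) ^ 2 =
        Real.exp (-(π * ‖v - ξ‖ ^ 2)) * ‖B s x c v‖ ^ 2 -
          2 * m * (Real.exp (-(π * ‖v - ξ‖ ^ 2)) * ‖B s x c v‖) +
          m ^ 2 * Real.exp (-(π * ‖v - ξ‖ ^ 2)) := by
      intro v
      ring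
    simp_rw [h1]
    have hs : Integrable (fun v : ℂ => Real.exp (-(π * ‖v - ξ‖ ^ 2)) * ‖B s x c v‖ ^ 2 -
        2 * m * (Real.exp (-(π * ‖v - ξ‖ ^ 2)) * ‖B s x c v‖)) := hi2.sub (hi1.const_mul _)
    rw [integral_add hs (hi0.const_mul _),
      integral_sub hi2 (hi1.const_mul _), integral_const_mul, integral_const_mul,
      int_gauss_sub]
  rw [hexp] at hj
  have hm0 : ‖B s x (fun _ => 1) ξ‖ ^ 2 ≤ m ^ 2 := pow_le_pow_left₀ (norm_nonneg _) hn 2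
  show ‖B s x (fun _ => 1) ξ‖ ^ 2 ≤ _
  nlinarith [hj, hm0]

end Pool.Agent.Lib.MP_cd3201_co.Dense.NBM
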