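import Pool.Agent.Lib.MP_cd3201_co.Dense.Spec

/-!
# Part (1): sets of dimension larger than one (helper31)
-/

open Finset MeasureTheory
open scoped Real

namespace Pool.Agent.Lib.MP_cd3201_co.Dense.OneM

/-- the scale `L` -/
lemma exists_L {t K : ℝ} (ht : 1 < t) (hK : 1 ≤ K) :
    ∃ L : ℝ, 0 < L ∧ L ≤ 1 ∧ L ^ (t - 1) ≤ (t - 1) / (144000 * K) := by
  have hq : 0 < (t - 1) / (144000 * K) := by
    have : 0 < t - 1 := by linarith
    positivity
  have ht1 : 0 < t - 1 := by linarith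
  refine ⟨min 1 (((t - 1) / (144000 * K)) ^ (1 / (t - 1))), by positivity, min_le_left _ _, ?_⟩
  calc (min 1 (((t - 1) / (144000 * K)) ^ (1 / (t - 1)))) ^ (t - 1) ≤
      (((t - 1) / (144000 * K)) ^ (1 / (t - 1))) ^ (t - 1) :=
        Real.rpow_le_rpow (by positivity) (min_le_right _ _) ht1.le
    _ = (t - 1) / (144000 * K) := by
        rw [← Real.rpow_mul hq.le, one_div, inv_mul_cancel₀ ht1.ne', Real.rpow_one]

theorem specOne (hT : SpecTriv) (hA : SpecA) (hR : SpecRows) (hW : SpecWindow) (hS : SpecTrans) :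
    SpecOne := by
  intro t K ht ht2 hK
  obtain ⟨L, hL0, hL1, hL⟩ := exists_L ht hK
  obtain ⟨C, hC0, hC⟩ := hW t K L ht ht2 hK hL0 hL1
  have hK0 : 0 < K := by linarith
  set σ₀ : ℝ := (L / (20000 * K)) ^ 2 with hσ₀
  have hσ₀0 : 0 < σ₀ := by positivity
  set c₁ : ℝ := L ^ 2 / (480000 * C) with hc₁
  set c₂ : ℝ := σ₀ ^ (t - 1) / 6 with hc₂
  have hc₁0 : 0 < c₁ := by positivity
  have hc₂0 : 0 < c₂ := by positivity
  refine ⟨min c₁ c₂, lt_min hc₁0 hc₂0, ?_⟩
  intro P z D σ hP h3 hD hσ hσ1 hsp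
  obtain ⟨hx, hH⟩ := hS P z D t K σ hD hsp
  have hn0 : (0 : ℝ) < P.card := by
    have : 0 < P.card := by omega
    exact_mod_cast this
  have ht1 : 0 < t - 1 := by linarith
  rcases le_or_gt σ σ₀ with hle | hgt
  · -- the main case
    set δ : ℝ := √(σ / 2) with hδ
    have hδ0 : 0 < δ := by positivity
    have hδ2 : δ ^ 2 = σ / 2 := Real.sq_sqrt (by positivity)
    have hLK : L / (20000 * K) ≤ 1 / 20000 := by
      rw [div_le_div_iff₀ (by positivity) (by norm_num)]
      nlinarith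
    have hsq : √σ ≤ L / (20000 * K) := by
      rw [show L / (20000 * K) = √((L / (20000 * K)) ^ 2) by rw [Real.sqrt_sq (by positivity)]]
      exact Real.sqrt_le_sqrt hle
    have hδs : δ ≤ √σ := by
      rw [hδ]
      apply Real.sqrt_le_sqrt
      linarith
    have hsδ : √σ ≤ 2 * δ := by
      rw [show 2 * δ = √(4 * (σ / 2)) by
        rw [Real.sqrt_mul (by norm_num), show (4 : ℝ) = 2 ^ 2 by norm_num, Real.sqrt_sq (by norm_num)]]
      apply Real.sqrt_le_sqrt
      linarith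
    have hδ1 : δ ≤ 1 / 20000 := hδs.trans (hsq.trans hLK)
    set η : ℝ := δ * L / 2 with hη
    have hη0 : 0 < η := by positivity
    have h2η : 2 * η / L = δ := by
      rw [hη]; field_simp
    have hσt : σ ^ t ≤ η / (4800 * K) := by
      have e1 : σ ^ t ≤ σ := by
        calc σ ^ t ≤ σ ^ (1 : ℝ) := Real.rpow_le_rpow_of_exponent_ge hσ hσ1 ht.le
          _ = σ := Real.rpow_one σ
      have e2 : σ = √σ * √σ := (Real.mul_self_sqrt hσ.le).symm
      have e3 : √σ * √σ ≤ (2 * δ) * (L / (20000 * K)) :=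
        mul_le_mul hsδ hsq (Real.sqrt_nonneg _) (by positivity)
      have e4 : (2 * δ) * (L / (20000 * K)) ≤ η / (4800 * K) := by
        rw [hη, show (2 * δ) * (L / (20000 * K)) = δ * L / (10000 * K) by field_simp; norm_num,
          show δ * L / 2 / (4800 * K) = δ * L / (9600 * K) by rw [div_div]; ring_nf]
        apply div_le_div_of_nonneg_left (by positivity) (by positivity)
        nlinarith
      linarith
    have hNR := hR Plane P (emb z D) t K σ L η hx hH ht (by linarith) hK hσ hσ1 hL0 hL1 hη0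
      (by rw [hη]; nlinarith) hL hσt
    rw [h2η] at hNR
    have hA' := hA P z D L δ (C * (P.card : ℝ) ^ 2 * σ ^ (t - 1 / 2)) hP hD hx hL0 hL1 hδ0.le
      (by linarith) (fun ρ h1 h2 => by
        rw [show 2 * δ ^ 2 = σ by rw [hδ2]; ring]
        exact hC Plane P (emb z D) σ ρ hx hσ hσ1 hH h1 h2)
    have hcomb := hNR.trans hA'
    set R : ℝ := ((radii P).ncard : ℝ) with hRdef
    have hpow : σ ^ (t - 1 / 2) = √σ * σ ^ (t - 1) := by
      rw [Real.sqrt_eq_rpow, ← Real.rpow_add hσ]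
      congr 1
      ring
    rw [hpow] at hcomb
    have hs0 : 0 < √σ := Real.sqrt_pos.mpr hσ
    have hp0 : 0 < σ ^ (t - 1) := Real.rpow_pos_of_pos hσ _
    have h1 : (P.card : ℝ) ^ 3 * L * (√σ / 4 * L) / 60000 ≤
        2 * R * (C * (P.card : ℝ) ^ 2 * (√σ * σ ^ (t - 1))) := by
      refine le_trans ?_ hcomb
      have : √σ / 4 * L ≤ η := by rw [hη]; nlinarith
      gcongr
    have h2 : c₁ * P.card ≤ R * σ ^ (t - 1) := by
      have hpos : 0 < (P.card : ℝ) ^ 2 * √σ * (2 * C) := by positivity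
      refine le_of_mul_le_mul_right ?_ hpos
      calc c₁ * P.card * ((P.card : ℝ) ^ 2 * √σ * (2 * C)) =
          (P.card : ℝ) ^ 3 * L * (√σ / 4 * L) / 60000 := by
            rw [hc₁]; field_simp; ring
        _ ≤ _ := h1
        _ = R * σ ^ (t - 1) * ((P.card : ℝ) ^ 2 * √σ * (2 * C)) := by ring
    calc min c₁ c₂ * P.card * σ ^ (-(t - 1)) ≤ c₁ * P.card * σ ^ (-(t - 1)) := by
          gcongr
          exact min_le_left _ _
      _ ≤ R * σ ^ (t - 1) * σ ^ (-(t - 1)) :=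
          mul_le_mul_of_nonneg_right h2 (Real.rpow_nonneg hσ.le _)
      _ = R := by
          rw [mul_assoc, ← Real.rpow_add hσ]
          simp
  · -- large `σ`
    have hR6 := hT P hP h3
    have e1 : σ ^ (-(t - 1)) ≤ σ₀ ^ (-(t - 1)) :=
      Real.rpow_le_rpow_of_nonpos hσ₀0 hgt.le (by linarith)
    have e2 : c₂ * σ₀ ^ (-(t - 1)) = 1 / 6 := by
      rw [hc₂, Real.rpow_neg hσ₀0.le]
      have : σ₀ ^ (t - 1) ≠ 0 := (Real.rpow_pos_of_pos hσ₀0 _).ne'
      field_simp
    calc min c₁ c₂ * P.card * σ ^ (-(t - 1)) ≤ c₂ * P.card * σ₀ ^ (-(t - 1)) := by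
          gcongr
          exact min_le_right _ _
      _ = (c₂ * σ₀ ^ (-(t - 1))) * P.card := by ring
      _ = (P.card : ℝ) / 6 := by rw [e2]; ring
      _ ≤ _ := hR6

end Pool.Agent.Lib.MP_cd3201_co.Dense.OneM
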