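import Mathlib
import Pool.Agent.Lib.MP_cd3201_co.Dense.Spec

/-!
# Lemma 5: the number of quadruples with nearly equal distances
-/

open Finset MeasureTheory
open scoped Real

namespace Pool.Agent.Lib.MP_cd3201_co.Dense.QuadM

/-- **(5g)** the weight. -/
lemma weight_le {σ r : ℝ} (hσ : 0 < σ) (hr : 0 ≤ r) :
    (1 + r * σ) / (1 + r) ≤ 2 * Real.exp π * Real.exp (-(π * σ ^ 2 * r ^ 2)) + 2 * σ := by
  have hpi := Real.pi_pos
  have h1r : 0 < 1 + r := by linarith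
  rcases le_or_gt (r * σ) 1 with h | h
  · have hA : (1 + r * σ) / (1 + r) ≤ 2 := by
      rw [div_le_iff₀ h1r]; linarith
    have hB : 1 ≤ Real.exp π * Real.exp (-(π * σ ^ 2 * r ^ 2)) := by
      rw [← Real.exp_add, Real.one_le_exp_iff]
      have h2 : (r * σ) ^ 2 ≤ 1 := by
        have : 0 ≤ r * σ := by positivity
        nlinarith
      have h3 : π * (r * σ) ^ 2 ≤ π := mul_le_of_le_one_right hpi.le h2
      nlinarith
    nlinarith
  · have hA : (1 + r * σ) / (1 + r) ≤ 2 * σ := by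
      rw [div_le_iff₀ h1r]; nlinarith
    have : 0 < 2 * Real.exp π * Real.exp (-(π * σ ^ 2 * r ^ 2)) := by positivity
    linarith

variable {ι : Type}

lemma integrable_gN (s : Finset ι) (x : ι → ℂ) {l : ℝ} (hl : 0 < l) :
    Integrable (fun ξ : ℂ => Real.exp (-(π * l * ‖ξ‖ ^ 2)) * N s x ξ) := by
  have h := integrable_gauss_mul (a := π * l) (by positivity) 0 (continuous_N s x)
    (C := (s.card : ℝ) ^ 2) (fun v => by
      rw [abs_of_nonneg (N_nonneg s x v)]; exact N_le s x v)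
  simpa using h

/-- `∫ exp (- π l |ξ|²) N ≤ G l / l`. -/
lemma int_gN_le (hGB : SpecGB) (s : Finset ι) (x : ι → ℂ) {l : ℝ} (hl : 0 < l) :
    ∫ ξ : ℂ, Real.exp (-(π * l * ‖ξ‖ ^ 2)) * N s x ξ ≤ 1 / l * G s x l := by
  have h := hGB ι s x (fun _ => 1) l 0 hl
  simp only [sub_zero, mul_one, abs_one, one_mul] at h
  exact h

theorem specQuad (hTheta : SpecTheta) (hMean : SpecMean) (hGB : SpecGB) (hGS : SpecGS) :
    SpecQuad := by
  obtain ⟨C, hC, hM⟩ := hMean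
  have hpi := Real.pi_pos
  refine ⟨32 * Real.exp (3 * π) * C, by positivity, ?_⟩
  intro ι s x K σ w hx hH hK hσ hσ1 hw hwσ
  have hK0 : 0 < K := by linarith
  have hw1 : w ≤ 1 := hwσ.trans hσ1
  set n : ℝ := (s.card : ℝ) with hn
  have hn0 : 0 ≤ n := by positivity
  have hT := hTheta ι s x w hx hw hw1
  -- the two Gaussian integrals
  have hG1 : ∫ ξ : ℂ, Real.exp (-(π * σ ^ 2 * ‖ξ‖ ^ 2)) * N s x ξ ≤ 8 * K * n ^ 2 := by
    have h1 := int_gN_le hGB s x (l := σ ^ 2) (by positivity)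
    have h2 := hGS ι s x 2 K σ (σ ^ 2) hx hH (by norm_num) le_rfl hK hσ hσ1 (by positivity)
    have e1 : ((σ ^ 2 : ℝ)) ^ ((2 : ℝ) / 2) = σ ^ 2 := by
      rw [div_self (by norm_num), Real.rpow_one]
    have e2 : σ ^ (2 : ℝ) = σ ^ 2 := by norm_cast
    rw [e1, e2] at h2
    refine h1.trans ?_
    rw [one_div, inv_mul_le_iff₀ (by positivity)]
    refine h2.trans (le_of_eq ?_)
    ring
  have hG2 : ∫ ξ : ℂ, Real.exp (-(π * (2 * w ^ 2) * ‖ξ‖ ^ 2)) * N s x ξ ≤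
      6 * K * n ^ 2 * (σ ^ 2 / w ^ 2) := by
    have h1 := int_gN_le hGB s x (l := 2 * w ^ 2) (by positivity)
    have h2 := hGS ι s x 2 K σ (2 * w ^ 2) hx hH (by norm_num) le_rfl hK hσ hσ1 (by positivity)
    have e1 : ((2 * w ^ 2 : ℝ)) ^ ((2 : ℝ) / 2) = 2 * w ^ 2 := by
      rw [div_self (by norm_num), Real.rpow_one]
    have e2 : σ ^ (2 : ℝ) = σ ^ 2 := by norm_cast
    rw [e1, e2] at h2
    refine h1.trans ?_
    rw [one_div, inv_mul_le_iff₀ (by positivity)]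
    refine h2.trans ?_
    have h3 : w ^ 2 ≤ σ ^ 2 := pow_le_pow_left₀ hw.le hwσ 2
    have h4 : 2 * w ^ 2 * (6 * K * n ^ 2 * (σ ^ 2 / w ^ 2)) = 12 * K * n ^ 2 * σ ^ 2 := by
      field_simp; ring
    rw [h4]
    have h5 : 0 ≤ K * n ^ 2 := by positivity
    nlinarith
  -- the upper bound for the integral in `SpecTheta`
  have hI : ∫ ξ : ℂ, Real.exp (-(2 * π * w ^ 2 * ‖ξ‖ ^ 2)) *
      (N s x ξ * ∫ θ in (-8 : ℝ)..8, N s x (Complex.exp (θ * Complex.I) * ξ)) ≤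
      C * K ^ 2 * n ^ 4 * (16 * Real.exp π + 12 * (σ ^ 3 / w ^ 2)) := by
    have hi1 := integrable_gN s x (l := σ ^ 2) (by positivity)
    have hi2 := integrable_gN s x (l := 2 * w ^ 2) (by positivity)
    have hi : Integrable (fun ξ : ℂ => C * K * n ^ 2 * (2 * Real.exp π) *
        (Real.exp (-(π * σ ^ 2 * ‖ξ‖ ^ 2)) * N s x ξ) + C * K * n ^ 2 * (2 * σ) *
        (Real.exp (-(π * (2 * w ^ 2) * ‖ξ‖ ^ 2)) * N s x ξ)) :=
      (hi1.const_mul _).add (hi2.const_mul _)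
    have hmono : ∫ ξ : ℂ, Real.exp (-(2 * π * w ^ 2 * ‖ξ‖ ^ 2)) *
        (N s x ξ * ∫ θ in (-8 : ℝ)..8, N s x (Complex.exp (θ * Complex.I) * ξ)) ≤
        ∫ ξ : ℂ, (C * K * n ^ 2 * (2 * Real.exp π) *
        (Real.exp (-(π * σ ^ 2 * ‖ξ‖ ^ 2)) * N s x ξ) + C * K * n ^ 2 * (2 * σ) *
        (Real.exp (-(π * (2 * w ^ 2) * ‖ξ‖ ^ 2)) * N s x ξ)) := by
      refine integral_mono_of_nonneg (Filter.Eventually.of_forall fun ξ => ?_) hi
        (Filter.Eventually.of_forall fun ξ => ?_)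
      · have h0 : 0 ≤ ∫ θ in (-8 : ℝ)..8, N s x (Complex.exp (θ * Complex.I) * ξ) :=
          intervalIntegral.integral_nonneg (by norm_num) fun θ _ => N_nonneg s x _
        have h1 := N_nonneg s x ξ
        positivity
      · have h1 := N_nonneg s x ξ
        have h2 := hM ι s x K σ ξ hx hH hK hσ hσ1
        have h3 := weight_le hσ (norm_nonneg ξ)
        have h4 : ∫ θ in (-8 : ℝ)..8, N s x (Complex.exp (θ * Complex.I) * ξ) ≤
            C * K * n ^ 2 *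
              (2 * Real.exp π * Real.exp (-(π * σ ^ 2 * ‖ξ‖ ^ 2)) + 2 * σ) := by
          refine h2.trans ?_
          rw [mul_div_assoc]
          exact mul_le_mul_of_nonneg_left h3 (by positivity)
        have hg1 : Real.exp (-(2 * π * w ^ 2 * ‖ξ‖ ^ 2)) ≤ 1 := by
          rw [Real.exp_le_one_iff]
          have : 0 ≤ 2 * π * w ^ 2 * ‖ξ‖ ^ 2 := by positivity
          linarith
        have hg0 : 0 < Real.exp (-(2 * π * w ^ 2 * ‖ξ‖ ^ 2)) := Real.exp_pos _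
        have hgeq : Real.exp (-(π * (2 * w ^ 2) * ‖ξ‖ ^ 2)) =
            Real.exp (-(2 * π * w ^ 2 * ‖ξ‖ ^ 2)) := by congr 1; ring
        show _ ≤ C * K * n ^ 2 * (2 * Real.exp π) *
          (Real.exp (-(π * σ ^ 2 * ‖ξ‖ ^ 2)) * N s x ξ) + C * K * n ^ 2 * (2 * σ) *
          (Real.exp (-(π * (2 * w ^ 2) * ‖ξ‖ ^ 2)) * N s x ξ)
        rw [hgeq]
        calc Real.exp (-(2 * π * w ^ 2 * ‖ξ‖ ^ 2)) *
              (N s x ξ * ∫ θ in (-8 : ℝ)..8, N s x (Complex.exp (θ * Complex.I) * ξ))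
            ≤ Real.exp (-(2 * π * w ^ 2 * ‖ξ‖ ^ 2)) * (N s x ξ * (C * K * n ^ 2 *
              (2 * Real.exp π * Real.exp (-(π * σ ^ 2 * ‖ξ‖ ^ 2)) + 2 * σ))) := by
              refine mul_le_mul_of_nonneg_left ?_ hg0.le
              exact mul_le_mul_of_nonneg_left h4 h1
          _ = Real.exp (-(2 * π * w ^ 2 * ‖ξ‖ ^ 2)) * (C * K * n ^ 2 * (2 * Real.exp π) *
                (Real.exp (-(π * σ ^ 2 * ‖ξ‖ ^ 2)) * N s x ξ)) + C * K * n ^ 2 * (2 * σ) *
                (Real.exp (-(2 * π * w ^ 2 * ‖ξ‖ ^ 2)) * N s x ξ) := by ring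
          _ ≤ _ := by
              refine add_le_add ?_ le_rfl
              refine mul_le_of_le_one_left ?_ hg1
              have := Real.exp_pos (-(π * σ ^ 2 * ‖ξ‖ ^ 2))
              positivity
    refine hmono.trans ?_
    rw [integral_add (hi1.const_mul _) (hi2.const_mul _), integral_const_mul, integral_const_mul]
    have hA : C * K * n ^ 2 * (2 * Real.exp π) *
        (∫ ξ : ℂ, Real.exp (-(π * σ ^ 2 * ‖ξ‖ ^ 2)) * N s x ξ) ≤
        C * K * n ^ 2 * (2 * Real.exp π) * (8 * K * n ^ 2) :=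
      mul_le_mul_of_nonneg_left hG1 (by positivity)
    have hB : C * K * n ^ 2 * (2 * σ) *
        (∫ ξ : ℂ, Real.exp (-(π * (2 * w ^ 2) * ‖ξ‖ ^ 2)) * N s x ξ) ≤
        C * K * n ^ 2 * (2 * σ) * (6 * K * n ^ 2 * (σ ^ 2 / w ^ 2)) :=
      mul_le_mul_of_nonneg_left hG2 (by positivity)
    refine (add_le_add hA hB).trans (le_of_eq ?_)
    ring
  -- conclusion
  have h2 : (quad s x w : ℝ) * (w * Real.exp (-(2 * π))) ≤
      2 * w ^ 2 * (C * K ^ 2 * n ^ 4 * (16 * Real.exp π + 12 * (σ ^ 3 / w ^ 2))) :=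
    hT.trans (mul_le_mul_of_nonneg_left hI (by positivity))
  have hE : Real.exp (2 * π) * Real.exp (-(2 * π)) = 1 := by
    rw [← Real.exp_add, add_neg_cancel, Real.exp_zero]
  have hE2 : Real.exp (2 * π) * Real.exp π = Real.exp (3 * π) := by
    rw [← Real.exp_add]; congr 1; ring
  have h3 : (quad s x w : ℝ) = Real.exp (2 * π) / w * ((quad s x w : ℝ) *
      (w * Real.exp (-(2 * π)))) := by
    calc (quad s x w : ℝ) = (quad s x w : ℝ) * (Real.exp (2 * π) * Real.exp (-(2 * π))) := by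
          rw [hE, mul_one]
      _ = _ := by field_simp
  rw [h3]
  have h4 : Real.exp (2 * π) / w * ((quad s x w : ℝ) * (w * Real.exp (-(2 * π)))) ≤
      Real.exp (2 * π) / w *
        (2 * w ^ 2 * (C * K ^ 2 * n ^ 4 * (16 * Real.exp π + 12 * (σ ^ 3 / w ^ 2)))) :=
    mul_le_mul_of_nonneg_left h2 (by positivity)
  refine h4.trans ?_
  have h5 : Real.exp (2 * π) / w *
        (2 * w ^ 2 * (C * K ^ 2 * n ^ 4 * (16 * Real.exp π + 12 * (σ ^ 3 / w ^ 2)))) =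
      C * K ^ 2 * n ^ 4 * (32 * (Real.exp (2 * π) * Real.exp π) * w +
        24 * Real.exp (2 * π) * (σ ^ 3 / w)) := by
    field_simp
    ring
  rw [h5, hE2]
  have h6 : Real.exp (2 * π) ≤ Real.exp (3 * π) := by
    rw [Real.exp_le_exp]; linarith
  have h7 : 24 * Real.exp (2 * π) * (σ ^ 3 / w) ≤ 32 * Real.exp (3 * π) * (σ ^ 3 / w) := by
    refine mul_le_mul_of_nonneg_right ?_ (by positivity)
    have := Real.exp_pos (2 * π)
    linarith
  calc C * K ^ 2 * n ^ 4 * (32 * Real.exp (3 * π) * w + 24 * Real.exp (2 * π) * (σ ^ 3 / w))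
      ≤ C * K ^ 2 * n ^ 4 * (32 * Real.exp (3 * π) * w + 32 * Real.exp (3 * π) * (σ ^ 3 / w)) :=
        mul_le_mul_of_nonneg_left (add_le_add le_rfl h7)
          (mul_nonneg (mul_nonneg hC.le (pow_nonneg hK0.le 2)) (pow_nonneg hn0 4))
    _ = _ := by ring

end Pool.Agent.Lib.MP_cd3201_co.Dense.QuadM
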