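import Pool.Agent.Lib.MP_cd3201_co.Dense.Spec

/-!
# Distinct circumradii, dimension larger than one: module Ring, (5c)
-/

open Finset MeasureTheory
open scoped Real

namespace Pool.Agent.Lib.MP_cd3201_co.Dense.RingM

/-- the rotating Gaussian weight times `f` -/
noncomputable def rotf (a : ℝ) (ξ : ℂ) (f : ℂ → ℝ) (z : ℝ × ℂ) : ℝ :=
  Real.exp (-(a * ‖z.2 - Complex.exp (z.1 * Complex.I) * ξ‖ ^ 2)) * f z.2

theorem continuous_rotf (a : ℝ) (ξ : ℂ) {f : ℂ → ℝ} (hf : Continuous f) :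
    Continuous (rotf a ξ f) := by
  unfold rotf
  refine Continuous.mul ?_ (hf.comp continuous_snd)
  refine Real.continuous_exp.comp (Continuous.neg (continuous_const.mul (Continuous.pow ?_ 2)))
  refine Continuous.norm (continuous_snd.sub (Continuous.mul ?_ continuous_const))
  exact Complex.continuous_exp.comp
    ((Complex.continuous_ofReal.comp continuous_fst).mul continuous_const)

/-- joint integrability of a rotating Gaussian times a bounded continuous function -/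
theorem integrable_rotf {a : ℝ} (ha : 0 < a) (ξ : ℂ) {f : ℂ → ℝ} (hf : Continuous f) {C : ℝ}
    (hC : ∀ v, |f v| ≤ C) :
    Integrable (rotf a ξ f) ((volume.restrict (Set.uIoc (-8 : ℝ) 8)).prod (volume : Measure ℂ)) := by
  have hcont : Continuous (rotf a ξ f) := continuous_rotf a ξ hf
  have hC0 : 0 ≤ C := (abs_nonneg _).trans (hC 0)
  have hm := hcont.aestronglyMeasurable (μ := (volume.restrict (Set.uIoc (-8 : ℝ) 8)).prod
    (volume : Measure ℂ))
  have hi : ∀ θ : ℝ, Integrable (fun η : ℂ => rotf a ξ f (θ, η)) := fun θ =>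
    integrable_gauss_mul ha (Complex.exp (θ * Complex.I) * ξ) hf hC
  rw [integrable_prod_iff hm]
  refine ⟨Filter.Eventually.of_forall fun θ => hi θ, ?_⟩
  have h2 : AEStronglyMeasurable (fun θ : ℝ => ∫ η : ℂ, ‖rotf a ξ f (θ, η)‖)
      (volume.restrict (Set.uIoc (-8 : ℝ) 8)) := hm.norm.integral_prod_right'
  haveI : IsFiniteMeasure (volume.restrict (Set.uIoc (-8 : ℝ) 8)) := by
    refine ⟨?_⟩
    rw [Measure.restrict_apply_univ, Set.uIoc_of_le (by norm_num), Real.volume_Ioc]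
    exact ENNReal.ofReal_lt_top
  refine Integrable.of_bound h2 (C * (π / a)) (Filter.Eventually.of_forall fun θ => ?_)
  rw [Real.norm_eq_abs, abs_of_nonneg (integral_nonneg fun _ => norm_nonneg _)]
  have h3 : ∀ η : ℂ, ‖rotf a ξ f (θ, η)‖ ≤
      C * Real.exp (-(a * ‖η - Complex.exp (θ * Complex.I) * ξ‖ ^ 2)) := by
    intro η
    have e1 : ‖rotf a ξ f (θ, η)‖ =
        Real.exp (-(a * ‖η - Complex.exp (θ * Complex.I) * ξ‖ ^ 2)) * |f η| := by
      unfold rotf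
      rw [Real.norm_eq_abs, abs_mul, Real.abs_exp]
    rw [e1, mul_comm]
    exact mul_le_mul_of_nonneg_right (hC η) (Real.exp_nonneg _)
  have h4 : Integrable (fun η : ℂ => C *
      Real.exp (-(a * ‖η - Complex.exp (θ * Complex.I) * ξ‖ ^ 2))) :=
    (integrable_gauss_sub ha _).const_mul C
  have h5 : ∫ η : ℂ, ‖rotf a ξ f (θ, η)‖ ≤
      ∫ η : ℂ, C * Real.exp (-(a * ‖η - Complex.exp (θ * Complex.I) * ξ‖ ^ 2)) :=
    integral_mono_of_nonneg (Filter.Eventually.of_forall fun _ => norm_nonneg _) h4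
      (Filter.Eventually.of_forall h3)
  have h6 : ∫ η : ℂ, Real.exp (-(a * ‖η - Complex.exp (θ * Complex.I) * ξ‖ ^ 2)) = π / a := by
    rw [← integral_gauss ha]
    exact integral_sub_right_eq_self (fun v : ℂ => Real.exp (-(a * ‖v‖ ^ 2)))
      (Complex.exp (θ * Complex.I) * ξ)
  rw [integral_const_mul, h6] at h5
  exact h5

/-- Fubini for the rotating Gaussian -/
theorem swap_rotf {a : ℝ} (ha : 0 < a) (ξ : ℂ) {f : ℂ → ℝ} (hf : Continuous f) {C : ℝ}
    (hC : ∀ v, |f v| ≤ C) :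
    ∫ η : ℂ, (∫ θ in (-8 : ℝ)..8, rotf a ξ f (θ, η)) =
      ∫ θ in (-8 : ℝ)..8, ∫ η : ℂ, rotf a ξ f (θ, η) :=
  (intervalIntegral_integral_swap (f := fun θ η => rotf a ξ f (θ, η))
    (integrable_rotf ha ξ hf hC)).symm

/-- the inner integral is integrable -/
theorem integrable_inner {a : ℝ} (ha : 0 < a) (ξ : ℂ) {f : ℂ → ℝ} (hf : Continuous f) {C : ℝ}
    (hC : ∀ v, |f v| ≤ C) :
    Integrable (fun η : ℂ => ∫ θ in (-8 : ℝ)..8, rotf a ξ f (θ, η)) := by
  have h := (integrable_rotf ha ξ hf hC).integral_prod_right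
  refine h.congr (Filter.Eventually.of_forall fun η => ?_)
  show _ = ∫ θ in (-8 : ℝ)..8, rotf a ξ f (θ, η)
  rw [intervalIntegral.integral_of_le (by norm_num), Set.uIoc_of_le (by norm_num)]

theorem specRing (hC : SpecCirc) (hG : SpecGB) (hS : SpecGS) : SpecRing := by
  refine ⟨160 * Real.exp (5 * π / 2), by positivity, ?_⟩
  intro ι s x K σ ξ hx hH hK hσ hσ1
  set c : ι → ℝ := fun p => Real.exp (π * ‖x p‖ ^ 2) with hc
  set r : ℝ := ‖ξ‖ with hr
  have hr0 : 0 ≤ r := norm_nonneg _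
  have hq : 0 < 1 + r * σ := by positivity
  set l : ℝ := σ ^ 2 / 4 with hl
  have hl0 : 0 < l := by positivity
  have hpl : 0 < π * l := by positivity
  -- the pointwise bound of `B`
  set M : ℝ := (∑ p ∈ s, |c p|) ^ 2 with hM
  have hF : Continuous (fun η : ℂ => ‖B s x c η‖ ^ 2) := (continuous_B s x c).norm.pow 2
  have hFM : ∀ η : ℂ, |‖B s x c η‖ ^ 2| ≤ M := fun η => by
    rw [abs_of_nonneg (by positivity)]
    exact pow_le_pow_left₀ (norm_nonneg _) (norm_B_le s x c η) 2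
  -- pointwise comparison of the weights
  have hw : ∀ η : ℂ, Real.exp (-(π / 2 * (‖η‖ - r) ^ 2)) ≤
      Real.exp (π / 2) * ((1 + r * σ) / 2) *
        ∫ θ in (-8 : ℝ)..8, Real.exp (-(π * l * ‖η - Complex.exp (θ * Complex.I) * ξ‖ ^ 2)) := by
    intro η
    have h1 := hC ξ η (1 / (1 + r * σ)) (π * l) (by positivity)
      (by rw [div_le_one hq]; nlinarith [mul_nonneg hr0 hσ.le]) hpl.le
    rw [← hr] at h1
    have h3 : 1 / (1 + r * σ) * r ≤ 1 / σ := by
      rw [one_div_mul_eq_div, div_le_div_iff₀ hq hσ]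
      linarith
    have h3' : 0 ≤ 1 / (1 + r * σ) * r := by positivity
    have h4 : π * l * (1 / (1 + r * σ) * r + |‖η‖ - r|) ^ 2 ≤ π / 2 * (‖η‖ - r) ^ 2 + π / 2 := by
      have h5 : (1 / (1 + r * σ) * r + |‖η‖ - r|) ^ 2 ≤ 2 * (1 / σ) ^ 2 + 2 * (‖η‖ - r) ^ 2 := by
        have h6 : (1 / (1 + r * σ) * r) ^ 2 ≤ (1 / σ) ^ 2 := pow_le_pow_left₀ h3' h3 2
        have h7 : |‖η‖ - r| ^ 2 = (‖η‖ - r) ^ 2 := sq_abs _
        nlinarith [sq_nonneg (1 / (1 + r * σ) * r - |‖η‖ - r|)]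
      have h8 : π * l * (2 * (1 / σ) ^ 2 + 2 * (‖η‖ - r) ^ 2) ≤ π / 2 * (‖η‖ - r) ^ 2 + π / 2 := by
        have h9 : π * l * (2 * (1 / σ) ^ 2) = π / 2 := by
          rw [hl]; field_simp; norm_num
        have h10 : π * l * (2 * (‖η‖ - r) ^ 2) ≤ π / 2 * (‖η‖ - r) ^ 2 := by
          have h11 : l ≤ 1 / 4 := by
            rw [hl]
            have : σ ^ 2 ≤ 1 := pow_le_one₀ hσ.le hσ1
            linarith
          have h12 : 0 ≤ π * (‖η‖ - r) ^ 2 := by positivity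
          nlinarith
        rw [mul_add]
        linarith
      exact (mul_le_mul_of_nonneg_left h5 hpl.le).trans h8
    have h2 : Real.exp (-(π / 2 * (‖η‖ - r) ^ 2)) * Real.exp (-(π / 2)) ≤
        Real.exp (-(π * l * (1 / (1 + r * σ) * r + |‖η‖ - r|) ^ 2)) := by
      rw [← Real.exp_add]
      apply Real.exp_le_exp.mpr
      linarith
    have h13 : Real.exp (-(π / 2 * (‖η‖ - r) ^ 2)) * Real.exp (-(π / 2)) ≤ (1 + r * σ) / 2 *
        ∫ θ in (-8 : ℝ)..8, Real.exp (-(π * l * ‖η - Complex.exp (θ * Complex.I) * ξ‖ ^ 2)) := by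
      refine h2.trans ?_
      have h14 : Real.exp (-(π * l * (1 / (1 + r * σ) * r + |‖η‖ - r|) ^ 2)) = (1 + r * σ) / 2 *
          (2 * (1 / (1 + r * σ)) *
            Real.exp (-(π * l * (1 / (1 + r * σ) * r + |‖η‖ - r|) ^ 2))) := by
        field_simp
      rw [h14]
      exact mul_le_mul_of_nonneg_left h1 (by positivity)
    have h15 : Real.exp (-(π / 2 * (‖η‖ - r) ^ 2)) = Real.exp (π / 2) *
        (Real.exp (-(π / 2 * (‖η‖ - r) ^ 2)) * Real.exp (-(π / 2))) := by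
      rw [mul_comm (Real.exp (-(π / 2 * (‖η‖ - r) ^ 2))), ← mul_assoc, ← Real.exp_add]
      simp
    rw [h15, mul_assoc]
    exact mul_le_mul_of_nonneg_left h13 (Real.exp_nonneg _)
  -- integrate
  have hint := integrable_inner hpl ξ hF hFM
  have h20 : ∫ η : ℂ, Real.exp (-(π / 2 * (‖η‖ - r) ^ 2)) * ‖B s x c η‖ ^ 2 ≤
      ∫ η : ℂ, Real.exp (π / 2) * ((1 + r * σ) / 2) *
        ∫ θ in (-8 : ℝ)..8, rotf (π * l) ξ (fun η => ‖B s x c η‖ ^ 2) (θ, η) := by
    refine integral_mono_of_nonneg (Filter.Eventually.of_forall fun _ => by positivity)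
      (hint.const_mul _) (Filter.Eventually.of_forall fun η => ?_)
    show Real.exp (-(π / 2 * (‖η‖ - r) ^ 2)) * ‖B s x c η‖ ^ 2 ≤ Real.exp (π / 2) *
      ((1 + r * σ) / 2) * ∫ θ in (-8 : ℝ)..8, rotf (π * l) ξ (fun η => ‖B s x c η‖ ^ 2) (θ, η)
    have e1 : ∫ θ in (-8 : ℝ)..8, rotf (π * l) ξ (fun η => ‖B s x c η‖ ^ 2) (θ, η) =
        (∫ θ in (-8 : ℝ)..8, Real.exp (-(π * l * ‖η - Complex.exp (θ * Complex.I) * ξ‖ ^ 2))) *
          ‖B s x c η‖ ^ 2 := by
      rw [← intervalIntegral.integral_mul_const]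
      rfl
    rw [e1, ← mul_assoc]
    exact mul_le_mul_of_nonneg_right (hw η) (by positivity)
  have h21 : ∀ θ : ℝ, ∫ η : ℂ, rotf (π * l) ξ (fun η => ‖B s x c η‖ ^ 2) (θ, η) ≤
      20 * Real.exp (2 * π) * K * (s.card : ℝ) ^ 2 := by
    intro θ
    have h22 := hG ι s x c l (Complex.exp (θ * Complex.I) * ξ) hl0
    have h23 := hS ι s x 2 K σ l hx hH (by norm_num) le_rfl hK hσ hσ1 hl0
    have h24 : ∑ p ∈ s, ∑ q ∈ s, |c p * c q| * Real.exp (-(π * ‖x p - x q‖ ^ 2 / l)) ≤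
        Real.exp (2 * π) * G s x l := by
      unfold G
      rw [mul_sum]
      refine sum_le_sum fun p hp => ?_
      rw [mul_sum]
      refine sum_le_sum fun q hq => ?_
      refine mul_le_mul_of_nonneg_right ?_ (Real.exp_nonneg _)
      rw [abs_of_nonneg (by positivity), hc, ← Real.exp_add]
      apply Real.exp_le_exp.mpr
      have h25 : ‖x p‖ ^ 2 ≤ 1 := pow_le_one₀ (norm_nonneg _) (hx p hp)
      have h26 : ‖x q‖ ^ 2 ≤ 1 := pow_le_one₀ (norm_nonneg _) (hx q hq)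
      nlinarith [Real.pi_pos]
    have h27 : l ^ ((2 : ℝ) / 2) + σ ^ (2 : ℝ) = 5 * l := by
      rw [div_self (two_ne_zero), Real.rpow_one, Real.rpow_two, hl]; ring
    rw [h27] at h23
    calc ∫ η : ℂ, rotf (π * l) ξ (fun η => ‖B s x c η‖ ^ 2) (θ, η)
        ≤ 1 / l * ∑ p ∈ s, ∑ q ∈ s, |c p * c q| * Real.exp (-(π * ‖x p - x q‖ ^ 2 / l)) := h22
      _ ≤ 1 / l * (Real.exp (2 * π) * (4 * K * (s.card : ℝ) ^ 2 * (5 * l))) :=
          mul_le_mul_of_nonneg_left (h24.trans (mul_le_mul_of_nonneg_left h23 (Real.exp_nonneg _)))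
            (by positivity)
      _ = 20 * Real.exp (2 * π) * K * (s.card : ℝ) ^ 2 := by
          field_simp; ring
  have h28 : ∫ θ in (-8 : ℝ)..8, ∫ η : ℂ, rotf (π * l) ξ (fun η => ‖B s x c η‖ ^ 2) (θ, η) ≤
      16 * (20 * Real.exp (2 * π) * K * (s.card : ℝ) ^ 2) := by
    have h29 := intervalIntegral.norm_integral_le_of_norm_le_const (a := (-8 : ℝ)) (b := 8)
      (f := fun θ : ℝ => ∫ η : ℂ, rotf (π * l) ξ (fun η => ‖B s x c η‖ ^ 2) (θ, η))
      (C := 20 * Real.exp (2 * π) * K * (s.card : ℝ) ^ 2) (fun θ _ => by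
        rw [Real.norm_eq_abs, abs_of_nonneg (integral_nonneg fun η => by
          show 0 ≤ rotf (π * l) ξ (fun η => ‖B s x c η‖ ^ 2) (θ, η)
          unfold rotf
          positivity)]
        exact h21 θ)
    have h30 : |(8 : ℝ) - -8| = 16 := by norm_num
    rw [h30] at h29
    exact (le_abs_self _).trans (h29.trans (le_of_eq (mul_comm _ _)))
  rw [integral_const_mul, swap_rotf hpl ξ hF hFM] at h20
  refine h20.trans ((mul_le_mul_of_nonneg_left h28 (by positivity)).trans (le_of_eq ?_))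
  rw [show 5 * π / 2 = π / 2 + 2 * π by ring, Real.exp_add]
  ring

end Pool.Agent.Lib.MP_cd3201_co.Dense.RingM
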