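import Mathlib
import Pool.Agent.Lib.MP_cd3201_co.Dense.Spec

/-!
# Lemma 2: many near right triples
-/

open Finset
open scoped Real

namespace Pool.Agent.Lib.MP_cd3201_co.Dense.RowsM

/-- first coordinate in the direction `(1, θ)` -/
def ca (θ : ℝ) (u : ℂ) : ℝ := u.re + θ * u.im

/-- coordinate in the direction `(-θ, 1)` -/
def cb (θ : ℝ) (u : ℂ) : ℝ := u.im - θ * u.re

lemma ca_sub (θ : ℝ) (u v : ℂ) : ca θ (u - v) = ca θ u - ca θ v := by simp [ca]; ring
lemma cb_sub (θ : ℝ) (u v : ℂ) : cb θ (u - v) = cb θ u - cb θ v := by simp [cb]; ring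

lemma norm_sq_re_im (u : ℂ) : ‖u‖ ^ 2 = u.re ^ 2 + u.im ^ 2 := by
  rw [← Complex.normSq_eq_norm_sq, Complex.normSq_apply]; ring

lemma ca_sq_add (θ : ℝ) (u : ℂ) : ca θ u ^ 2 + cb θ u ^ 2 = (1 + θ ^ 2) * ‖u‖ ^ 2 := by
  rw [norm_sq_re_im]; simp only [ca, cb]; ring

lemma abs_ca_le (θ : ℝ) (u : ℂ) : |ca θ u| ≤ (1 + θ ^ 2) * ‖u‖ := by
  apply abs_le_of_sq_le_sq _ (by positivity)
  have h := ca_sq_add θ u
  nlinarith [sq_nonneg (cb θ u), sq_nonneg ‖u‖, mul_nonneg (sq_nonneg θ) (sq_nonneg ‖u‖),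
    mul_nonneg (mul_nonneg (sq_nonneg θ) (sq_nonneg θ)) (sq_nonneg ‖u‖)]

lemma abs_cb_le (θ : ℝ) (u : ℂ) : |cb θ u| ≤ (1 + θ ^ 2) * ‖u‖ := by
  apply abs_le_of_sq_le_sq _ (by positivity)
  have h := ca_sq_add θ u
  nlinarith [sq_nonneg (ca θ u), sq_nonneg ‖u‖, mul_nonneg (sq_nonneg θ) (sq_nonneg ‖u‖),
    mul_nonneg (mul_nonneg (sq_nonneg θ) (sq_nonneg θ)) (sq_nonneg ‖u‖)]

/-- **(2a)** -/
lemma ip_le {θ η L : ℝ} {u v : ℂ} (hL : 0 < L) (hη : 0 < η) (hu : |cb θ u| < η) (hv : |ca θ v| < η)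
    (huL : L ≤ ‖u‖) (hvL : L ≤ ‖v‖) : |ip u v| ≤ 2 * η / L * ‖u‖ * ‖v‖ := by
  have h1 : ip u v * (1 + θ ^ 2) = ca θ u * ca θ v + cb θ u * cb θ v := by
    simp only [ip, ca, cb]; ring
  have h2 : |ip u v| * (1 + θ ^ 2) ≤ (1 + θ ^ 2) * ‖u‖ * η + η * ((1 + θ ^ 2) * ‖v‖) := by
    calc |ip u v| * (1 + θ ^ 2) = |ca θ u * ca θ v + cb θ u * cb θ v| := by
          rw [← h1, abs_mul, abs_of_pos (show (0 : ℝ) < 1 + θ ^ 2 by positivity)]
      _ ≤ |ca θ u| * |ca θ v| + |cb θ u| * |cb θ v| := by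
          rw [← abs_mul, ← abs_mul]; exact abs_add_le _ _
      _ ≤ (1 + θ ^ 2) * ‖u‖ * η + η * ((1 + θ ^ 2) * ‖v‖) := by
          gcongr
          · exact abs_ca_le θ u
          · exact abs_cb_le θ v
  have h3 : |ip u v| ≤ η * (‖u‖ + ‖v‖) := by
    have hp : 0 < 1 + θ ^ 2 := by positivity
    have : |ip u v| * (1 + θ ^ 2) ≤ η * (‖u‖ + ‖v‖) * (1 + θ ^ 2) := by linarith
    exact le_of_mul_le_mul_right this hp
  refine h3.trans ?_
  have h4 : ‖u‖ * L ≤ ‖u‖ * ‖v‖ := mul_le_mul_of_nonneg_left hvL (norm_nonneg _)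
  have h5 : L * ‖v‖ ≤ ‖u‖ * ‖v‖ := mul_le_mul_of_nonneg_right huL (norm_nonneg _)
  rw [show 2 * η / L * ‖u‖ * ‖v‖ = η * (2 * (‖u‖ * ‖v‖)) / L by ring, le_div_iff₀ hL]
  have : η * (‖u‖ + ‖v‖) * L = η * (‖u‖ * L + L * ‖v‖) := by ring
  rw [this]
  gcongr
  linarith

/-- **(2b)** -/
lemma norm_lt_of_two {η L τ : ℝ} {k l J : ℕ} {u : ℂ} (hL : 0 < L) (hη : 0 < η) (hηL : η ≤ L / 100)
    (hτ : τ = 5 * η / L) (hJ : (J : ℝ) * τ ≤ 1) (hk : k < J) (hkl : k ≠ l)
    (h1 : |cb (k * τ) u| < η) (h2 : |cb (l * τ) u| < η) : ‖u‖ < L := by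
  have hτ0 : 0 < τ := by rw [hτ]; positivity
  have h3 : |u.re| * τ < 2 * η := by
    have e1 : cb (l * τ) u - cb (k * τ) u = ((k : ℝ) - l) * τ * u.re := by simp only [cb]; ring
    have e2 : |((k : ℝ) - l) * τ * u.re| < 2 * η := by
      rw [← e1]
      calc |cb (l * τ) u - cb (k * τ) u| ≤ |cb (l * τ) u| + |cb (k * τ) u| := abs_sub _ _
        _ < 2 * η := by linarith
    have e3 : (1 : ℝ) ≤ |(k : ℝ) - l| := by
      have h : ((k : ℤ) - l) ≠ 0 := by
        intro h; apply hkl; omega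
      have h' := Int.one_le_abs h
      have : ((1 : ℤ) : ℝ) ≤ ((|(k : ℤ) - l| : ℤ) : ℝ) := by exact_mod_cast h'
      simpa using this
    rw [abs_mul, abs_mul, abs_of_pos hτ0] at e2
    have : 1 * (τ * |u.re|) ≤ |(k : ℝ) - l| * (τ * |u.re|) :=
      mul_le_mul_of_nonneg_right e3 (by positivity)
    nlinarith
  have h4 : |u.re| < 2 * L / 5 := by
    have : τ * L = 5 * η := by rw [hτ]; field_simp
    have h5 : |u.re| * (τ * L) < 2 * η * L := by nlinarith
    rw [this] at h5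
    have : η * (5 * |u.re|) < η * (2 * L) := by linarith
    have := lt_of_mul_lt_mul_left this hη.le
    linarith
  have h5 : (k : ℝ) * τ ≤ 1 := by
    have : (k : ℝ) ≤ J := by exact_mod_cast hk.le
    nlinarith
  have h6 : |u.im| < η + |u.re| := by
    have e1 : u.im = cb (k * τ) u + (k * τ) * u.re := by simp only [cb]; ring
    have e2 : |u.im| ≤ |cb (k * τ) u| + (k * τ) * |u.re| := by
      calc |u.im| = |cb (k * τ) u + (k * τ) * u.re| := by rw [← e1]
        _ ≤ |cb (k * τ) u| + |(k * τ) * u.re| := abs_add_le _ _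
        _ = _ := by rw [abs_mul, abs_of_nonneg (by positivity : (0 : ℝ) ≤ k * τ)]
    nlinarith [abs_nonneg u.re]
  have h7 := Complex.norm_le_abs_re_add_abs_im u
  linarith

lemma norm_lt_of_two' {η L τ : ℝ} {k l J : ℕ} {u : ℂ} (hL : 0 < L) (hη : 0 < η) (hηL : η ≤ L / 100)
    (hτ : τ = 5 * η / L) (hJ : (J : ℝ) * τ ≤ 1) (hk : k < J) (h : ¬ (k = l))
    (h1 : |cb (k * τ) u| < η) (h2 : |cb (l * τ) u| < η) : ‖u‖ < L :=
  norm_lt_of_two hL hη hηL hτ hJ hk h h1 h2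

/-- a set of natural numbers with small differences is small -/
lemma card_le_of_diff {S : Finset ℕ} {R : ℝ} (hR : 0 ≤ R)
    (h : ∀ k ∈ S, ∀ l ∈ S, |(k : ℝ) - l| ≤ R) : (S.card : ℝ) ≤ R + 1 := by
  rcases S.eq_empty_or_nonempty with rfl | hne
  · simp; linarith
  · let m := S.min' hne
    have hsub : S ⊆ Finset.Icc m (m + ⌊R⌋₊) := by
      intro k hk
      rw [Finset.mem_Icc]
      have h1 : m ≤ k := S.min'_le k hk
      refine ⟨h1, ?_⟩
      have h2 := h k hk m (S.min'_mem hne)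
      have h3 : ((k - m : ℕ) : ℝ) ≤ R := by
        rw [Nat.cast_sub h1]
        exact (le_abs_self _).trans h2
      have h4 := Nat.le_floor h3
      omega
    have h1 := Finset.card_le_card hsub
    rw [Nat.card_Icc] at h1
    have h2 : S.card ≤ ⌊R⌋₊ + 1 := by omega
    have h3 : (S.card : ℝ) ≤ (⌊R⌋₊ : ℝ) + 1 := by exact_mod_cast h2
    linarith [Nat.floor_le hR]

/-- **(2c)** -/
lemma count_dir {α β ℓ η L τ : ℝ} {J : ℕ} (hL : 0 < L) (hη : 0 < η) (hτ : τ = 5 * η / L)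
    (hJ : (J : ℝ) * τ ≤ 1) (hℓ : 0 < ℓ) (hℓL : ℓ ≤ L) (hab : α ^ 2 + β ^ 2 = ℓ ^ 2) :
    (((range J).filter (fun k : ℕ => |α - k * τ * β| < η)).card : ℝ) ≤ 3 * L / ℓ := by
  have hτ0 : 0 < τ := by rw [hτ]; positivity
  have hτL : τ * L = 5 * η := by rw [hτ]; field_simp
  set S := (range J).filter (fun k : ℕ => |α - k * τ * β| < η) with hS
  have h1L : 1 ≤ L / ℓ := by rw [le_div_iff₀ hℓ]; linarith
  by_cases hβ : ℓ / 3 ≤ |β|
  · have hβ0 : 0 < |β| := by linarith [div_pos hℓ (show (0 : ℝ) < 3 by norm_num)]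
    have h1 : ∀ k ∈ S, ∀ l ∈ S, |(k : ℝ) - l| ≤ 6 / 5 * (L / ℓ) := by
      intro k hk l hl
      have hk' := (mem_filter.mp hk).2
      have hl' := (mem_filter.mp hl).2
      have e1 : |((k : ℝ) - l) * τ * β| < 2 * η := by
        have : ((k : ℝ) - l) * τ * β = (α - l * τ * β) - (α - k * τ * β) := by ring
        rw [this]
        calc |(α - l * τ * β) - (α - k * τ * β)| ≤ |α - l * τ * β| + |α - k * τ * β| := abs_sub _ _
          _ < 2 * η := by linarith
      rw [abs_mul, abs_mul, abs_of_pos hτ0] at e1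
      have e2 : |(k : ℝ) - l| * τ * (ℓ / 3) < 2 * η :=
        lt_of_le_of_lt (mul_le_mul_of_nonneg_left hβ (by positivity)) e1
      rw [show 6 / 5 * (L / ℓ) = 6 / 5 * L / ℓ by ring, le_div_iff₀ hℓ]
      have e3 : |(k : ℝ) - l| * ℓ * (τ * L) ≤ 6 * η * L := by nlinarith
      rw [hτL] at e3
      have e4 : η * (|(k : ℝ) - l| * ℓ * 5) ≤ η * (6 * L) := by linarith
      have := le_of_mul_le_mul_left e4 hη
      linarith
    have h2 := card_le_of_diff (by positivity) h1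
    have : 3 * L / ℓ = 3 * (L / ℓ) := by ring
    rw [this]
    linarith
  · push Not at hβ
    rcases S.eq_empty_or_nonempty with h0 | ⟨k, hk⟩
    · rw [h0]; simp; positivity
    · have hkJ : k < J := mem_range.mp (mem_filter.mp hk).1
      have hk' := (mem_filter.mp hk).2
      have h5 : (k : ℝ) * τ ≤ 1 := by
        have : (k : ℝ) ≤ J := by exact_mod_cast hkJ.le
        nlinarith
      have h6 : |α| < η + ℓ / 3 := by
        have e2 : |α| ≤ |α - k * τ * β| + (k * τ) * |β| := by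
          calc |α| = |(α - k * τ * β) + (k * τ) * β| := by congr 1; ring
            _ ≤ |α - k * τ * β| + |(k * τ) * β| := abs_add_le _ _
            _ = _ := by rw [abs_mul, abs_of_nonneg (by positivity : (0 : ℝ) ≤ k * τ)]
        nlinarith [abs_nonneg β]
      have h7 : 9 / 10 * ℓ < |α| := by
        by_contra hcon
        push Not at hcon
        have e1 : α ^ 2 ≤ (9 / 10 * ℓ) ^ 2 := by
          rw [← sq_abs α]; exact pow_le_pow_left₀ (abs_nonneg _) hcon 2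
        have e2 : β ^ 2 ≤ (ℓ / 3) ^ 2 := by
          rw [← sq_abs β]; exact pow_le_pow_left₀ (abs_nonneg _) hβ.le 2
        nlinarith [sq_pos_of_pos hℓ]
      have h8 : ℓ / 2 < η := by linarith
      have h9 : (S.card : ℝ) ≤ J := by
        have := card_filter_le (range J) (fun k : ℕ => |α - k * τ * β| < η)
        rw [card_range] at this
        exact_mod_cast this
      have h10 : (S.card : ℝ) * τ ≤ 1 := by nlinarith
      rw [le_div_iff₀ hℓ]
      have h11 : (S.card : ℝ) * (τ * L) ≤ L := by nlinarith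
      rw [hτL] at h11
      have h12 : (S.card : ℝ) * ℓ ≤ (S.card : ℝ) * (2 * η) :=
        mul_le_mul_of_nonneg_left (by linarith) (by positivity)
      nlinarith

lemma half_le {y : ℝ} (h0 : 0 < y) (h1 : y ≤ 1) : y / 2 ≤ 1 - (1 / 2 : ℝ) ^ y := by
  have h := rpow_one_add_le_one_add_mul_self (s := -(1 / 2)) (by norm_num) h0.le h1
  norm_num at h
  norm_num
  linarith

variable {ι : Type}

lemma cnt_eq [DecidableEq ι] (s : Finset ι) (x : ι → ℂ) (y : ℂ) (ρ : ℝ)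
    [DecidablePred (fun p => ‖x p - y‖ ≤ ρ)] :
    cnt s x y ρ = (s.filter (fun p => ‖x p - y‖ ≤ ρ)).card := by
  unfold cnt
  congr!

/-- layer cake sum of the inverse distances -/
lemma sum_inv_le {s : Finset ι} {x : ι → ℂ} {t K σ L : ℝ} (hH : H s x t K σ) (ht1 : 1 < t)
    (ht2 : t ≤ 2) (hK : 1 ≤ K) (hσ : 0 < σ) (hL : 0 < L) (hL1 : L ≤ 1) (y : ℂ)
    [DecidablePred (fun p => σ < ‖x p - y‖ ∧ ‖x p - y‖ < L)] :
    ∑ p ∈ s.filter (fun p => σ < ‖x p - y‖ ∧ ‖x p - y‖ < L), 1 / ‖x p - y‖ ≤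
      4 * K * s.card * L ^ (t - 1) / (t - 1) := by
  classical
  obtain ⟨m, hm⟩ := pow_unbounded_of_one_lt (L / σ) (show (1 : ℝ) < 2 by norm_num)
  set J0 := (range m).filter (fun j : ℕ => (2 : ℝ) ^ j ≤ L / σ) with hJ0
  set S := s.filter (fun p => σ < ‖x p - y‖ ∧ ‖x p - y‖ < L) with hS
  set q : ℝ := (1 / 2 : ℝ) ^ (t - 1) with hq
  have hq0 : 0 < q := Real.rpow_pos_of_pos (by norm_num) _
  have hq1 : (t - 1) / 2 ≤ 1 - q := half_le (by linarith) (by linarith)
  -- pointwise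
  have h1 : ∀ p ∈ S, 1 / ‖x p - y‖ ≤
      ∑ j ∈ J0, (2 : ℝ) ^ (j + 1) / L * (if ‖x p - y‖ ≤ L / 2 ^ j then 1 else 0) := by
    intro p hp
    obtain ⟨hp1, hp2⟩ := (mem_filter.mp hp).2
    have hℓ : 0 < ‖x p - y‖ := hσ.trans hp1
    obtain ⟨j, hj1, hj2⟩ := exists_nat_pow_near (x := L / ‖x p - y‖) (y := (2 : ℝ))
      (by rw [le_div_iff₀ hℓ]; linarith) (by norm_num)
    have hjL : (2 : ℝ) ^ j ≤ L / σ := hj1.trans (by gcongr)
    have hjm : j < m := by
      by_contra hcon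
      push Not at hcon
      have := pow_le_pow_right₀ (show (1 : ℝ) ≤ 2 by norm_num) hcon
      linarith
    have hjJ : j ∈ J0 := mem_filter.mpr ⟨mem_range.mpr hjm, hjL⟩
    have hle : ‖x p - y‖ ≤ L / 2 ^ j := by
      rw [le_div_iff₀ (by positivity)]
      rw [le_div_iff₀ hℓ] at hj1
      linarith
    have h2 : 1 / ‖x p - y‖ ≤ (2 : ℝ) ^ (j + 1) / L * (if ‖x p - y‖ ≤ L / 2 ^ j then 1 else 0) := by
      rw [if_pos hle, mul_one, div_le_div_iff₀ hℓ hL, one_mul]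
      rw [div_lt_iff₀ hℓ] at hj2
      exact hj2.le
    refine h2.trans ?_
    exact single_le_sum (f := fun j => (2 : ℝ) ^ (j + 1) / L *
      (if ‖x p - y‖ ≤ L / 2 ^ j then 1 else 0)) (fun i _ => by positivity) hjJ
  have h2 : ∀ j ∈ J0, ∑ p ∈ S, (2 : ℝ) ^ (j + 1) / L * (if ‖x p - y‖ ≤ L / 2 ^ j then (1 : ℝ) else 0)
      ≤ 2 * K * s.card * L ^ (t - 1) * q ^ j := by
    intro j hj
    have hjL := (mem_filter.mp hj).2
    have e1 : σ ≤ L / 2 ^ j := by
      rw [le_div_iff₀ (by positivity)]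
      rw [le_div_iff₀ hσ] at hjL
      linarith
    have e2 : L / 2 ^ j ≤ 1 := by
      rw [div_le_iff₀ (by positivity)]
      have := one_le_pow₀ (show (1 : ℝ) ≤ 2 by norm_num) (n := j)
      linarith
    have e3 := hH y (L / 2 ^ j) e1 e2
    rw [← mul_sum]
    have e4 : ∑ p ∈ S, (if ‖x p - y‖ ≤ L / 2 ^ j then (1 : ℝ) else 0) ≤ K * (L / 2 ^ j) ^ t * s.card := by
      rw [← sum_filter, sum_const, nsmul_eq_mul, mul_one]
      refine le_trans ?_ e3
      rw [cnt_eq]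
      exact_mod_cast card_le_card (fun p hp => by
        rw [mem_filter] at hp ⊢
        exact ⟨(mem_filter.mp hp.1).1, hp.2⟩)
    have e5 : (L / 2 ^ j) ^ t = (L / 2 ^ j) * (L ^ (t - 1) * q ^ j) := by
      have hpos : 0 < L / 2 ^ j := by positivity
      have : (L / 2 ^ j) ^ t = (L / 2 ^ j) ^ (1 + (t - 1)) := by congr 1; ring
      rw [this, Real.rpow_add hpos, Real.rpow_one]
      congr 1
      rw [show L / 2 ^ j = L * (1 / 2) ^ j by rw [one_div, inv_pow]; rfl,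
        Real.mul_rpow hL.le (by positivity), hq, ← Real.rpow_natCast ((1 / 2 : ℝ) ^ (t - 1)),
        ← Real.rpow_natCast (1 / 2 : ℝ), ← Real.rpow_mul (by norm_num),
        ← Real.rpow_mul (by norm_num)]
      congr 2
      ring
    calc (2 : ℝ) ^ (j + 1) / L * ∑ p ∈ S, (if ‖x p - y‖ ≤ L / 2 ^ j then (1 : ℝ) else 0) ≤
          (2 : ℝ) ^ (j + 1) / L * (K * (L / 2 ^ j) ^ t * s.card) := by gcongr
      _ = 2 * K * s.card * L ^ (t - 1) * q ^ j := by
          rw [e5, pow_succ]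
          field_simp
  calc ∑ p ∈ S, 1 / ‖x p - y‖ ≤ ∑ p ∈ S, ∑ j ∈ J0, (2 : ℝ) ^ (j + 1) / L *
        (if ‖x p - y‖ ≤ L / 2 ^ j then 1 else 0) := sum_le_sum h1
    _ = ∑ j ∈ J0, ∑ p ∈ S, (2 : ℝ) ^ (j + 1) / L * (if ‖x p - y‖ ≤ L / 2 ^ j then (1 : ℝ) else 0) :=
        sum_comm
    _ ≤ ∑ j ∈ J0, 2 * K * s.card * L ^ (t - 1) * q ^ j := sum_le_sum h2
    _ ≤ ∑ j ∈ range m, 2 * K * s.card * L ^ (t - 1) * q ^ j :=
        sum_le_sum_of_subset_of_nonneg (filter_subset _ _) (fun i _ _ => by positivity)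
    _ = 2 * K * s.card * L ^ (t - 1) * ∑ j ∈ range m, q ^ j := by rw [mul_sum]
    _ ≤ 2 * K * s.card * L ^ (t - 1) * (2 / (t - 1)) := by
        gcongr
        have h3 : (∑ j ∈ range m, q ^ j) * (1 - q) ≤ 1 := by
          rw [geom_sum_mul_neg]
          have := pow_pos hq0 m
          linarith
        have h4 : 0 ≤ ∑ j ∈ range m, q ^ j := sum_nonneg (fun i _ => by positivity)
        rw [le_div_iff₀ (by linarith)]
        nlinarith
    _ = 4 * K * s.card * L ^ (t - 1) / (t - 1) := by ring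

/-- **(2d)** -/
lemma near_total {s : Finset ι} {x : ι → ℂ} {t K σ L η τ : ℝ} {J : ℕ} (hH : H s x t K σ)
    (ht1 : 1 < t) (ht2 : t ≤ 2) (hK : 1 ≤ K) (hσ : 0 < σ) (hσ1 : σ ≤ 1) (hL : 0 < L) (hL1 : L ≤ 1)
    (hη : 0 < η) (hLt : L ^ (t - 1) ≤ (t - 1) / (144000 * K)) (hσt : σ ^ t ≤ η / (4800 * K))
    (hτ : τ = 5 * η / L) (hJ : (J : ℝ) * τ ≤ 1) (f : ℕ → ℂ → ℝ)
    (hf : ∀ u : ℂ, u ≠ 0 → ‖u‖ ≤ L →
      (((range J).filter (fun k : ℕ => |f k u| < η)).card : ℝ) ≤ 3 * L / ‖u‖) (y : ℂ)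
    [∀ k, DecidablePred (fun p => |f k (x p - y)| < η ∧ ‖x p - y‖ < L)] :
    ∑ k ∈ range J, ((s.filter (fun p => |f k (x p - y)| < η ∧ ‖x p - y‖ < L)).card : ℝ) ≤
      L * s.card / 8000 := by
  classical
  have hτL : τ * L = 5 * η := by rw [hτ]; field_simp
  have hJL : (J : ℝ) * (5 * η) ≤ L := by rw [← hτL]; nlinarith
  -- double counting
  have e1 : ∑ k ∈ range J, ((s.filter (fun p => |f k (x p - y)| < η ∧ ‖x p - y‖ < L)).card : ℝ) =
      ∑ p ∈ s.filter (fun p => ‖x p - y‖ < L),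
        (((range J).filter (fun k => |f k (x p - y)| < η)).card : ℝ) := by
    have : ∀ k ∈ range J, ((s.filter (fun p => |f k (x p - y)| < η ∧ ‖x p - y‖ < L)).card : ℝ) =
        ∑ p ∈ s.filter (fun p => ‖x p - y‖ < L), (if |f k (x p - y)| < η then (1 : ℝ) else 0) := by
      intro k _
      rw [← sum_filter, sum_const, nsmul_eq_mul, mul_one, filter_filter]
      congr 2
      ext p
      simp only [mem_filter]
      tauto
    rw [sum_congr rfl this, sum_comm]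
    refine sum_congr rfl fun p _ => ?_
    rw [← sum_filter, sum_const, nsmul_eq_mul, mul_one]
  rw [e1]
  have hsplit : ∀ p ∈ s.filter (fun p => ‖x p - y‖ < L),
      (((range J).filter (fun k => |f k (x p - y)| < η)).card : ℝ) ≤
        (if ‖x p - y‖ ≤ σ then (J : ℝ) else 0) +
          (if σ < ‖x p - y‖ ∧ ‖x p - y‖ < L then 3 * L * (1 / ‖x p - y‖) else 0) := by
    intro p hp
    have hp2 := (mem_filter.mp hp).2
    by_cases h : ‖x p - y‖ ≤ σ
    · rw [if_pos h, if_neg (by intro h'; exact absurd h'.1 (not_lt.mpr h)), add_zero]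
      have := card_filter_le (range J) (fun k => |f k (x p - y)| < η)
      rw [card_range] at this
      exact_mod_cast this
    · push Not at h
      rw [if_neg (not_le.mpr h), if_pos ⟨h, hp2⟩, zero_add]
      have hne : x p - y ≠ 0 := by
        intro h0; rw [h0, norm_zero] at h; linarith
      have := hf _ hne hp2.le
      rw [show 3 * L * (1 / ‖x p - y‖) = 3 * L / ‖x p - y‖ by ring]
      convert this using 3
  refine (sum_le_sum hsplit).trans ?_
  rw [sum_add_distrib]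
  have h1 : ∑ p ∈ s.filter (fun p => ‖x p - y‖ < L), (if ‖x p - y‖ ≤ σ then (J : ℝ) else 0) ≤
      L * s.card / 24000 := by
    rw [← sum_filter, sum_const, nsmul_eq_mul]
    have e2 : (((s.filter (fun p => ‖x p - y‖ < L)).filter (fun p => ‖x p - y‖ ≤ σ)).card : ℝ) ≤
        K * σ ^ t * s.card := by
      refine le_trans ?_ (hH y σ le_rfl hσ1)
      rw [cnt_eq]
      exact_mod_cast card_le_card (fun p hp => by
        rw [mem_filter] at hp ⊢
        exact ⟨(mem_filter.mp hp.1).1, hp.2⟩)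
    calc _ ≤ K * σ ^ t * s.card * J := by gcongr
      _ ≤ K * (η / (4800 * K)) * s.card * J := by gcongr
      _ = (J * (5 * η)) * s.card / 24000 := by field_simp; ring
      _ ≤ L * s.card / 24000 := by gcongr
  have h2 : ∑ p ∈ s.filter (fun p => ‖x p - y‖ < L),
      (if σ < ‖x p - y‖ ∧ ‖x p - y‖ < L then 3 * L * (1 / ‖x p - y‖) else 0) ≤
      L * s.card / 12000 := by
    rw [← sum_filter, ← mul_sum]
    have e3 : (s.filter (fun p => ‖x p - y‖ < L)).filter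
        (fun p => σ < ‖x p - y‖ ∧ ‖x p - y‖ < L) =
        s.filter (fun p => σ < ‖x p - y‖ ∧ ‖x p - y‖ < L) := by
      ext p
      simp only [mem_filter]
      tauto
    rw [e3]
    have ht0 : 0 < t - 1 := by linarith
    calc 3 * L * ∑ p ∈ s.filter (fun p => σ < ‖x p - y‖ ∧ ‖x p - y‖ < L), 1 / ‖x p - y‖ ≤
          3 * L * (4 * K * s.card * L ^ (t - 1) / (t - 1)) := by
          gcongr
          exact sum_inv_le hH ht1 ht2 hK hσ hL hL1 y
      _ ≤ 3 * L * (4 * K * s.card * ((t - 1) / (144000 * K)) / (t - 1)) := by gcongr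
      _ = L * s.card / 12000 := by
          have hK0 : K ≠ 0 := by linarith
          field_simp
          ring
  have h3 : L * (s.card : ℝ) / 24000 + L * s.card / 12000 = L * s.card / 8000 := by ring
  linarith

/-- rows contain on average many points -/
lemma poor_le [DecidableEq ι] {s : Finset ι} (g : ι → ℤ) {lam b : ℝ} (hlam : 0 ≤ lam)
    (hb : ((s.image g).card : ℝ) * lam ≤ b)
    [DecidablePred (fun a => ((s.filter (fun c => g c = g a)).card : ℝ) < lam)] :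
    ((s.filter (fun a => ((s.filter (fun c => g c = g a)).card : ℝ) < lam)).card : ℝ) ≤ b := by
  set A := s.filter (fun a => ((s.filter (fun c => g c = g a)).card : ℝ) < lam) with hA
  have hmaps : ∀ a ∈ A, g a ∈ s.image g := fun a ha =>
    mem_image_of_mem g (mem_filter.mp ha).1
  rw [card_eq_sum_card_fiberwise hmaps]
  push_cast
  calc ∑ r ∈ s.image g, ((A.filter (fun a => g a = r)).card : ℝ) ≤ ∑ r ∈ s.image g, lam := by
        refine sum_le_sum fun r _ => ?_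
        rcases (A.filter (fun a => g a = r)).eq_empty_or_nonempty with h0 | ⟨a, ha⟩
        · rw [h0]; simpa using hlam
        · rw [mem_filter] at ha
          have h1 := (mem_filter.mp ha.1).2
          refine le_trans ?_ h1.le
          exact_mod_cast card_le_card (fun c hc => by
            rw [mem_filter] at hc ⊢
            exact ⟨(mem_filter.mp hc.1).1, hc.2.trans ha.2.symm⟩)
    _ = ((s.image g).card : ℝ) * lam := by rw [sum_const, nsmul_eq_mul]
    _ ≤ b := hb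

/-- the number of rows -/
lemma image_card_le [DecidableEq ι] {s : Finset ι} (v : ι → ℝ) {η : ℝ} (hη : 0 < η)
    (hη1 : η ≤ 1 / 100) (hv : ∀ p ∈ s, |v p| ≤ 142 / 100) :
    ((s.image (fun p => ⌊v p / η⌋)).card : ℝ) ≤ 3 / η := by
  have hsub : s.image (fun p => ⌊v p / η⌋) ⊆ Finset.Icc ⌊-(142 / 100 / η)⌋ ⌊142 / 100 / η⌋ := by
    intro r hr
    rw [mem_image] at hr
    obtain ⟨p, hp, rfl⟩ := hr
    have h := abs_le.mp (hv p hp)
    rw [Finset.mem_Icc]
    constructor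
    · apply Int.floor_le_floor
      rw [← neg_div]
      gcongr
      exact h.1
    · apply Int.floor_le_floor
      gcongr
      exact h.2
  have h1 := card_le_card hsub
  rw [Int.card_Icc] at h1
  have h2 : ((s.image (fun p => ⌊v p / η⌋)).card : ℝ) ≤
      ((⌊142 / 100 / η⌋ + 1 - ⌊-(142 / 100 / η)⌋ : ℤ) : ℝ) := by
    have h3 : (0 : ℤ) ≤ ⌊142 / 100 / η⌋ + 1 - ⌊-(142 / 100 / η)⌋ := by
      have : ⌊-(142 / 100 / η)⌋ ≤ ⌊142 / 100 / η⌋ := by
        apply Int.floor_le_floor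
        have : 0 < 142 / 100 / η := by positivity
        linarith
      omega
    have h4 : ((s.image (fun p => ⌊v p / η⌋)).card : ℤ) ≤
        ⌊142 / 100 / η⌋ + 1 - ⌊-(142 / 100 / η)⌋ := by
      have := Int.toNat_of_nonneg h3
      omega
    exact_mod_cast h4
  refine h2.trans ?_
  push_cast
  have h5 := Int.floor_le (142 / 100 / η)
  have h6 := Int.lt_floor_add_one (-(142 / 100 / η))
  have h7 : (⌊142 / 100 / η⌋ : ℝ) + 1 - ⌊-(142 / 100 / η)⌋ ≤ 2 * (142 / 100 / η) + 2 := by linarith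
  refine h7.trans ?_
  rw [show 2 * (142 / 100 / η) + 2 = (284 / 100 + 2 * η) / η by field_simp; ring]
  gcongr
  linarith

/-- Markov's inequality for finite sums -/
lemma markov {α : Type*} {U : Finset α} (f : α → ℝ) {lam b : ℝ} (hlam : 0 < lam)
    (hf : ∀ a ∈ U, 0 ≤ f a) (hs : ∑ a ∈ U, f a ≤ b * lam) [DecidablePred (fun a => lam < f a)] :
    ((U.filter (fun a => lam < f a)).card : ℝ) ≤ b := by
  have h1 : ((U.filter (fun a => lam < f a)).card : ℝ) * lam ≤ ∑ a ∈ U, f a := by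
    calc ((U.filter (fun a => lam < f a)).card : ℝ) * lam =
          ∑ a ∈ U.filter (fun a => lam < f a), lam := by rw [sum_const, nsmul_eq_mul]
      _ ≤ ∑ a ∈ U.filter (fun a => lam < f a), f a :=
          sum_le_sum fun a ha => (mem_filter.mp ha).2.le
      _ ≤ ∑ a ∈ U, f a := sum_le_sum_of_subset_of_nonneg (filter_subset _ _) fun a ha _ => hf a ha
  exact le_of_mul_le_mul_right (h1.trans hs) hlam

lemma abs_coord_le {θ : ℝ} (h1 : θ ≤ 1) {u : ℂ} (hu : ‖u‖ ≤ 1) :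
    |u.im| + θ * |u.re| ≤ 142 / 100 ∧ |u.re| + θ * |u.im| ≤ 142 / 100 := by
  have h2 : u.re ^ 2 + u.im ^ 2 ≤ 1 := by
    rw [← norm_sq_re_im]; exact pow_le_one₀ (norm_nonneg _) hu
  have h3 : (|u.re| + |u.im|) ^ 2 ≤ 2 := by
    have := sq_abs u.re
    have := sq_abs u.im
    nlinarith [sq_nonneg (|u.re| - |u.im|)]
  have h4 : |u.re| + |u.im| ≤ 142 / 100 := by
    by_contra hcon
    push Not at hcon
    nlinarith
  have h5 : θ * |u.re| ≤ |u.re| := by nlinarith [abs_nonneg u.re]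
  have h6 : θ * |u.im| ≤ |u.im| := by nlinarith [abs_nonneg u.im]
  constructor <;> linarith

lemma fib_card_le {s : Finset ι} {J : ℕ} (P : ℕ × ι → Prop) [DecidablePred P] {b : ℝ}
    (hb : ∀ k ∈ range J, ((s.filter (fun a => P (k, a))).card : ℝ) ≤ b) :
    (((range J ×ˢ s).filter P).card : ℝ) ≤ J * b := by
  have h1 : (((range J ×ˢ s).filter P).card : ℝ) =
      ∑ k ∈ range J, ((s.filter (fun a => P (k, a))).card : ℝ) := by
    rw [card_filter, sum_product]
    push_cast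
    refine sum_congr rfl fun k _ => ?_
    rw [card_filter]
    push_cast
    rfl
  rw [h1]
  calc _ ≤ ∑ k ∈ range J, b := sum_le_sum hb
    _ = J * b := by rw [sum_const, card_range, nsmul_eq_mul]

lemma good_pairs [DecidableEq ι] {s : Finset ι} {J : ℕ} {lam b' : ℝ} (hlam : 0 < lam)
    (cr cc nr nc : ℕ → ι → ℝ)
    (h1 : ∀ k ∈ range J, ((s.filter (fun a => cr k a < lam)).card : ℝ) ≤ (s.card : ℝ) / 10)
    (h2 : ∀ k ∈ range J, ((s.filter (fun a => cc k a < lam)).card : ℝ) ≤ (s.card : ℝ) / 10)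
    (h3 : ∀ a ∈ s, ∑ k ∈ range J, nr k a ≤ b') (h4 : ∀ a ∈ s, ∑ k ∈ range J, nc k a ≤ b')
    (h3' : ∀ k a, 0 ≤ nr k a) (h4' : ∀ k a, 0 ≤ nc k a)
    (hb : (s.card : ℝ) * b' ≤ J * ((s.card : ℝ) / 10) * (lam / 2)) :
    6 / 10 * (J * (s.card : ℝ)) ≤ (((range J ×ˢ s).filter (fun a => lam ≤ cr a.1 a.2 ∧
      lam ≤ cc a.1 a.2 ∧ nr a.1 a.2 ≤ lam / 2 ∧ nc a.1 a.2 ≤ lam / 2)).card : ℝ) := by
  obtain ⟨n, hn⟩ : ∃ n : ℝ, n = (s.card : ℝ) := ⟨_, rfl⟩
  obtain ⟨U, hU⟩ : ∃ U : Finset (ℕ × ι), U = range J ×ˢ s := ⟨_, rfl⟩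
  have hUc : (U.card : ℝ) = J * n := by rw [hU, card_product, card_range, hn]; push_cast; rfl
  have c1 : ((U.filter (fun a => cr a.1 a.2 < lam)).card : ℝ) ≤ J * (n / 10) := by
    rw [hU, hn]; exact fib_card_le (fun a : ℕ × ι => cr a.1 a.2 < lam) h1
  have c2 : ((U.filter (fun a => cc a.1 a.2 < lam)).card : ℝ) ≤ J * (n / 10) := by
    rw [hU, hn]; exact fib_card_le (fun a : ℕ × ι => cc a.1 a.2 < lam) h2
  have c3 : ((U.filter (fun a => lam / 2 < nr a.1 a.2)).card : ℝ) ≤ J * (n / 10) := by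
    have e1 : ∑ a ∈ U, nr a.1 a.2 ≤ J * (n / 10) * (lam / 2) := by
      rw [hn]
      refine le_trans ?_ hb
      rw [hU, sum_product_right]
      calc ∑ a ∈ s, ∑ k ∈ range J, nr k a ≤ ∑ a ∈ s, b' := sum_le_sum h3
        _ = s.card * b' := by rw [sum_const, nsmul_eq_mul]
    exact markov (U := U) (fun a : ℕ × ι => nr a.1 a.2) (half_pos hlam) (fun a _ => h3' _ _) e1
  have c4 : ((U.filter (fun a => lam / 2 < nc a.1 a.2)).card : ℝ) ≤ J * (n / 10) := by
    have e1 : ∑ a ∈ U, nc a.1 a.2 ≤ J * (n / 10) * (lam / 2) := by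
      rw [hn]
      refine le_trans ?_ hb
      rw [hU, sum_product_right]
      calc ∑ a ∈ s, ∑ k ∈ range J, nc k a ≤ ∑ a ∈ s, b' := sum_le_sum h4
        _ = s.card * b' := by rw [sum_const, nsmul_eq_mul]
    exact markov (U := U) (fun a : ℕ × ι => nc a.1 a.2) (half_pos hlam) (fun a _ => h4' _ _) e1
  rw [← hU, ← hn]
  obtain ⟨A1, hA1⟩ : ∃ A, A = U.filter (fun a => cr a.1 a.2 < lam) := ⟨_, rfl⟩
  obtain ⟨A2, hA2⟩ : ∃ A, A = U.filter (fun a => cc a.1 a.2 < lam) := ⟨_, rfl⟩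
  obtain ⟨A3, hA3⟩ : ∃ A, A = U.filter (fun a => lam / 2 < nr a.1 a.2) := ⟨_, rfl⟩
  obtain ⟨A4, hA4⟩ : ∃ A, A = U.filter (fun a => lam / 2 < nc a.1 a.2) := ⟨_, rfl⟩
  obtain ⟨Gd, hGd⟩ : ∃ A, A = U.filter (fun a => lam ≤ cr a.1 a.2 ∧ lam ≤ cc a.1 a.2 ∧
    nr a.1 a.2 ≤ lam / 2 ∧ nc a.1 a.2 ≤ lam / 2) := ⟨_, rfl⟩
  rw [← hA1] at c1
  rw [← hA2] at c2
  rw [← hA3] at c3
  rw [← hA4] at c4
  rw [← hGd]
  have e1 : U.card ≤ Gd.card + (A1.card + A2.card + A3.card + A4.card) := by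
    have e2 : U.card ≤ (Gd ∪ (A1 ∪ A2 ∪ A3 ∪ A4)).card := by
      apply card_le_card
      intro a ha
      rw [hGd, hA1, hA2, hA3, hA4]
      simp only [mem_union, mem_filter]
      by_cases g1 : cr a.1 a.2 < lam
      · exact Or.inr (Or.inl (Or.inl (Or.inl ⟨ha, g1⟩)))
      by_cases g2 : cc a.1 a.2 < lam
      · exact Or.inr (Or.inl (Or.inl (Or.inr ⟨ha, g2⟩)))
      by_cases g3 : lam / 2 < nr a.1 a.2
      · exact Or.inr (Or.inl (Or.inr ⟨ha, g3⟩))
      by_cases g4 : lam / 2 < nc a.1 a.2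
      · exact Or.inr (Or.inr ⟨ha, g4⟩)
      exact Or.inl ⟨ha, not_lt.mp g1, not_lt.mp g2, not_lt.mp g3, not_lt.mp g4⟩
    have e3 := card_union_le Gd (A1 ∪ A2 ∪ A3 ∪ A4)
    have e4 := card_union_le (A1 ∪ A2 ∪ A3) A4
    have e5 := card_union_le (A1 ∪ A2) A3
    have e6 := card_union_le A1 A2
    omega
  have e2 : (U.card : ℝ) ≤ Gd.card + (A1.card + A2.card + A3.card + A4.card) := by
    exact_mod_cast e1
  rw [hUc] at e2
  linarith

/-- **Lemma 2**: many near right triples. -/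
theorem specRows : SpecRows := by
  intro ι s x t K σ L η hx hH ht1 ht2 hK hσ hσ1 hL hL1 hη hηL hLt hσt
  classical
  rcases s.eq_empty_or_nonempty with hs0 | hsne
  · rw [hs0]; simp
  have hn : 0 < (s.card : ℝ) := by exact_mod_cast card_pos.mpr hsne
  set n : ℝ := (s.card : ℝ) with hnd
  obtain ⟨τ, hτ⟩ : ∃ τ : ℝ, τ = 5 * η / L := ⟨_, rfl⟩
  have hτ0 : 0 < τ := by rw [hτ]; positivity
  have hτL : τ * L = 5 * η := by rw [hτ]; field_simp
  obtain ⟨J, hJd⟩ : ∃ J : ℕ, J = ⌊L / (5 * η)⌋₊ := ⟨_, rfl⟩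
  have hJ1 : (J : ℝ) ≤ L / (5 * η) := by rw [hJd]; exact Nat.floor_le (by positivity)
  have hJ2 : L / (10 * η) ≤ J := by
    have h1 := Nat.lt_floor_add_one (L / (5 * η))
    rw [← hJd] at h1
    have h2 : 20 ≤ L / (5 * η) := by rw [le_div_iff₀ (by positivity)]; linarith
    have h3 : L / (10 * η) = L / (5 * η) / 2 := by field_simp; norm_num
    rw [h3]; linarith
  have hJτ : (J : ℝ) * τ ≤ 1 := by
    rw [hτ]
    rw [le_div_iff₀ (by positivity)] at hJ1
    rw [← mul_div_assoc, div_le_iff₀ hL]; linarith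
  have hη1 : η ≤ 1 / 100 := by linarith
  have hkτ : ∀ k ∈ range J, 0 ≤ (k : ℝ) * τ ∧ (k : ℝ) * τ ≤ 1 := by
    intro k hk
    have hk' : (k : ℝ) ≤ J := by exact_mod_cast (mem_range.mp hk).le
    exact ⟨by positivity, by nlinarith⟩
  -- rows and columns
  let row : ℕ → ι → ℤ := fun k p => ⌊cb (k * τ) (x p) / η⌋
  let col : ℕ → ι → ℤ := fun k p => ⌊ca (k * τ) (x p) / η⌋
  have hrow : ∀ k p q, row k p = row k q → |cb (k * τ) (x p - x q)| < η := by
    intro k p q h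
    have h1 := Int.abs_sub_lt_one_of_floor_eq_floor h
    rw [← sub_div, ← cb_sub, abs_div, abs_of_pos hη, div_lt_one hη] at h1
    exact h1
  have hcol : ∀ k p q, col k p = col k q → |ca (k * τ) (x p - x q)| < η := by
    intro k p q h
    have h1 := Int.abs_sub_lt_one_of_floor_eq_floor h
    rw [← sub_div, ← ca_sub, abs_div, abs_of_pos hη, div_lt_one hη] at h1
    exact h1
  have hrowcard : ∀ k ∈ range J, ((s.image (row k)).card : ℝ) ≤ 3 / η := by
    intro k hk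
    refine image_card_le (fun p => cb (k * τ) (x p)) hη hη1 fun p hp => ?_
    have h1 := (abs_coord_le (hkτ k hk).2 (hx p hp)).1
    refine le_trans ?_ h1
    simp only [cb]
    calc |(x p).im - k * τ * (x p).re| ≤ |(x p).im| + |k * τ * (x p).re| := abs_sub _ _
      _ = _ := by rw [abs_mul, abs_of_nonneg (hkτ k hk).1]
  have hcolcard : ∀ k ∈ range J, ((s.image (col k)).card : ℝ) ≤ 3 / η := by
    intro k hk
    refine image_card_le (fun p => ca (k * τ) (x p)) hη hη1 fun p hp => ?_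
    have h1 := (abs_coord_le (hkτ k hk).2 (hx p hp)).2
    refine le_trans ?_ h1
    simp only [ca]
    calc |(x p).re + k * τ * (x p).im| ≤ |(x p).re| + |k * τ * (x p).im| := abs_add_le _ _
      _ = _ := by rw [abs_mul, abs_of_nonneg (hkτ k hk).1]
  -- near counts
  obtain ⟨nr, hnrd⟩ : ∃ nr : ℕ → ι → ℝ, ∀ k a, nr k a =
    ((s.filter (fun p => |cb (k * τ) (x p - x a)| < η ∧ ‖x p - x a‖ < L)).card : ℝ) :=
    ⟨_, fun _ _ => rfl⟩
  obtain ⟨nc, hncd⟩ : ∃ nc : ℕ → ι → ℝ, ∀ k a, nc k a =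
    ((s.filter (fun p => |ca (k * τ) (x p - x a)| < η ∧ ‖x p - x a‖ < L)).card : ℝ) :=
    ⟨_, fun _ _ => rfl⟩
  have hnr0 : ∀ k a, 0 ≤ nr k a := fun k a => by rw [hnrd]; positivity
  have hnc0 : ∀ k a, 0 ≤ nc k a := fun k a => by rw [hncd]; positivity
  have hnr : ∀ a, ∑ k ∈ range J, nr k a ≤ L * n / 8000 := by
    intro a
    simp only [hnrd]
    refine near_total hH ht1 ht2 hK hσ hσ1 hL hL1 hη hLt hσt hτ hJτ (fun k u => cb (k * τ) u) ?_ (x a)
    intro u hu huL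
    exact count_dir (α := u.im) (β := u.re) hL hη hτ hJτ (norm_pos_iff.mpr hu) huL
      (by rw [norm_sq_re_im]; ring)
  have hnc : ∀ a, ∑ k ∈ range J, nc k a ≤ L * n / 8000 := by
    intro a
    simp only [hncd]
    refine near_total hH ht1 ht2 hK hσ hσ1 hL hL1 hη hLt hσt hτ hJτ (fun k u => ca (k * τ) u) ?_ (x a)
    intro u hu huL
    have h1 := count_dir (α := u.re) (β := -u.im) hL hη hτ hJτ (norm_pos_iff.mpr hu) huL
      (by rw [norm_sq_re_im]; ring)
    refine le_trans (le_of_eq ?_) h1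
    congr 2
    ext k
    simp only [mem_filter, ca]
    rw [show u.re - k * τ * -u.im = u.re + k * τ * u.im by ring]
  -- the good pairs
  obtain ⟨lam, hlam⟩ : ∃ lam : ℝ, lam = n * η / 30 := ⟨_, rfl⟩
  have hlam0 : 0 < lam := by rw [hlam]; positivity
  have hMk : n * (L * n / 8000) ≤ J * (n / 10) * (lam / 2) := by
    have h5 : L / (10 * η) * (n / 10) * (lam / 2) ≤ J * (n / 10) * (lam / 2) := by gcongr
    refine le_trans ?_ h5
    have h6 : L / (10 * η) * (n / 10) * (lam / 2) = L * n * n / 6000 := by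
      rw [hlam]; field_simp; norm_num
    rw [h6]
    have h7 : 0 ≤ L * n * n := by positivity
    linarith
  have hpr : ∀ k ∈ range J, ((s.filter (fun a =>
      ((s.filter (fun c => row k c = row k a)).card : ℝ) < lam)).card : ℝ) ≤ n / 10 := by
    intro k hk
    refine poor_le (row k) hlam0.le ?_
    calc ((s.image (row k)).card : ℝ) * lam ≤ 3 / η * lam := by gcongr; exact hrowcard k hk
      _ = n / 10 := by rw [hlam]; field_simp; norm_num
  have hpc : ∀ k ∈ range J, ((s.filter (fun a =>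
      ((s.filter (fun c => col k c = col k a)).card : ℝ) < lam)).card : ℝ) ≤ n / 10 := by
    intro k hk
    refine poor_le (col k) hlam0.le ?_
    calc ((s.image (col k)).card : ℝ) * lam ≤ 3 / η * lam := by gcongr; exact hcolcard k hk
      _ = n / 10 := by rw [hlam]; field_simp; norm_num
  have hGc := good_pairs (s := s) (J := J) hlam0
    (fun k a => ((s.filter (fun c => row k c = row k a)).card : ℝ))
    (fun k a => ((s.filter (fun c => col k c = col k a)).card : ℝ)) nr nc hpr hpc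
    (fun a _ => hnr a) (fun a _ => hnc a) (fun k a => hnr0 k a) (fun k a => hnc0 k a) hMk
  obtain ⟨Gd, hGd⟩ : ∃ A, A = (range J ×ˢ s).filter (fun a =>
    lam ≤ ((s.filter (fun c => row a.1 c = row a.1 a.2)).card : ℝ) ∧
    lam ≤ ((s.filter (fun c => col a.1 c = col a.1 a.2)).card : ℝ) ∧
    nr a.1 a.2 ≤ lam / 2 ∧ nc a.1 a.2 ≤ lam / 2) := ⟨_, rfl⟩
  rw [← hGd, ← hnd] at hGc
  -- the far points
  let fr : ℕ → ι → Finset ι := fun k a => s.filter (fun p => row k p = row k a ∧ L ≤ ‖x p - x a‖)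
  let fc : ℕ → ι → Finset ι := fun k a => s.filter (fun p => col k p = col k a ∧ L ≤ ‖x p - x a‖)
  have hfar : ∀ a ∈ Gd, lam / 2 ≤ ((fr a.1 a.2).card : ℝ) ∧ lam / 2 ≤ ((fc a.1 a.2).card : ℝ) := by
    intro a ha
    rw [hGd, mem_filter] at ha
    obtain ⟨haU, c1, c2, c3, c4⟩ := ha
    constructor
    · have e1 : (s.filter (fun c => row a.1 c = row a.1 a.2)).card ≤
          (fr a.1 a.2).card +
            (s.filter (fun p => |cb (a.1 * τ) (x p - x a.2)| < η ∧ ‖x p - x a.2‖ < L)).card := by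
        refine le_trans (card_le_card ?_) (card_union_le _ _)
        intro c hc
        rw [mem_filter] at hc
        rw [mem_union, mem_filter, mem_filter]
        by_cases h : L ≤ ‖x c - x a.2‖
        · exact Or.inl ⟨hc.1, hc.2, h⟩
        · exact Or.inr ⟨hc.1, hrow _ _ _ hc.2, not_le.mp h⟩
      have e2 : ((s.filter (fun c => row a.1 c = row a.1 a.2)).card : ℝ) ≤
          (fr a.1 a.2).card + nr a.1 a.2 := by rw [hnrd]; exact_mod_cast e1
      linarith
    · have e1 : (s.filter (fun c => col a.1 c = col a.1 a.2)).card ≤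
          (fc a.1 a.2).card +
            (s.filter (fun p => |ca (a.1 * τ) (x p - x a.2)| < η ∧ ‖x p - x a.2‖ < L)).card := by
        refine le_trans (card_le_card ?_) (card_union_le _ _)
        intro c hc
        rw [mem_filter] at hc
        rw [mem_union, mem_filter, mem_filter]
        by_cases h : L ≤ ‖x c - x a.2‖
        · exact Or.inl ⟨hc.1, hc.2, h⟩
        · exact Or.inr ⟨hc.1, hcol _ _ _ hc.2, not_le.mp h⟩
      have e2 : ((s.filter (fun c => col a.1 c = col a.1 a.2)).card : ℝ) ≤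
          (fc a.1 a.2).card + nc a.1 a.2 := by rw [hncd]; exact_mod_cast e1
      linarith
  -- the injection
  let S : Finset (Σ _ : ℕ × ι, ι × ι) := Gd.sigma (fun a => fr a.1 a.2 ×ˢ fc a.1 a.2)
  have hSc : (Gd.card : ℝ) * (lam / 2 * (lam / 2)) ≤ (S.card : ℝ) := by
    rw [card_sigma]
    push_cast
    calc (Gd.card : ℝ) * (lam / 2 * (lam / 2)) = ∑ a ∈ Gd, lam / 2 * (lam / 2) := by
          rw [sum_const, nsmul_eq_mul]
      _ ≤ ∑ a ∈ Gd, (((fr a.1 a.2 ×ˢ fc a.1 a.2).card : ℕ) : ℝ) := by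
          refine sum_le_sum fun a ha => ?_
          rw [card_product]
          push_cast
          obtain ⟨c1, c2⟩ := hfar a ha
          exact mul_le_mul c1 c2 (by positivity) (by positivity)
  have hinj : S.card ≤ (NR s x L (2 * η / L)).card := by
    refine card_le_card_of_injOn (fun b => (b.1.2, b.2.1, b.2.2)) ?_ ?_
    · intro b hb
      rw [mem_coe, mem_sigma, mem_product, mem_filter, mem_filter] at hb
      obtain ⟨hb1, ⟨hb2, hb3, hb4⟩, ⟨hb5, hb6, hb7⟩⟩ := hb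
      rw [hGd, mem_filter] at hb1
      have hbU := mem_product.mp hb1.1
      rw [mem_coe]
      unfold NR
      rw [mem_filter, mem_product, mem_product]
      refine ⟨⟨hbU.2, hb2, hb5⟩, hb4, hb7, ?_⟩
      exact ip_le hL hη (hrow _ _ _ hb3) (hcol _ _ _ hb6) hb4 hb7
    · rintro ⟨⟨k, a⟩, ⟨p, q⟩⟩ hb ⟨⟨k', a'⟩, ⟨p', q'⟩⟩ hb' heq
      simp only [Prod.mk.injEq] at heq
      obtain ⟨rfl, rfl, rfl⟩ := heq
      rw [mem_coe, mem_sigma, mem_product, mem_filter, mem_filter] at hb hb'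
      have hkk : k = k' := by
        by_contra hne
        have hb1 := hb.1
        rw [hGd, mem_filter] at hb1
        have hk := (mem_product.mp hb1.1).1
        have h5 := norm_lt_of_two' hL hη hηL hτ hJτ (mem_range.mp hk) hne
          (hrow _ _ _ hb.2.1.2.1) (hrow _ _ _ hb'.2.1.2.1)
        exact absurd hb.2.1.2.2 (not_le.mpr h5)
      subst hkk
      rfl
  have hfin : (s.card : ℝ) ^ 3 * L * η / 60000 ≤ (S.card : ℝ) := by
    refine le_trans ?_ hSc
    calc (s.card : ℝ) ^ 3 * L * η / 60000 =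
          6 / 10 * (L / (10 * η) * n) * (lam / 2 * (lam / 2)) := by
          rw [hlam, ← hnd]; field_simp; ring
      _ ≤ 6 / 10 * (J * n) * (lam / 2 * (lam / 2)) := by gcongr
      _ ≤ Gd.card * (lam / 2 * (lam / 2)) := by gcongr
  exact hfin.trans (by exact_mod_cast hinj)

end Pool.Agent.Lib.MP_cd3201_co.Dense.RowsM
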