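import Mathlib
import Pool.Agent.Lib.MP_cd3201_co.Dense.Spec

/-!
# Distinct circumradii, module Theta: steps (5e), (5f)

The number of pairs of nearly equal distances is bounded by a Gaussian integral of `N` against its
rotations.
-/

open Finset MeasureTheory
open scoped Real

namespace Pool.Agent.Lib.MP_cd3201_co.Dense.ThetaM

variable {ι : Type}

/-- the four-fold expansion of `N ξ * N (e^{iθ} ξ)` -/
lemma prod_expand (s : Finset ι) (x : ι → ℂ) (θ : ℝ) (ξ : ℂ) :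
    ((N s x ξ * N s x (Complex.exp (θ * Complex.I) * ξ) : ℝ) : ℂ) =
      ∑ a ∈ (s ×ˢ s) ×ˢ (s ×ˢ s), e (ip ξ ((x a.1.1 - x a.1.2) +
        Complex.exp (-θ * Complex.I) * (x a.2.1 - x a.2.2))) := by
  have h1 : ∀ ζ : ℂ, ((N s x ζ : ℝ) : ℂ) = ∑ b ∈ s ×ˢ s, e (ip (x b.1 - x b.2) ζ) := by
    intro ζ
    unfold N
    rw [sq_norm_B, sum_product]
    simp
  rw [Complex.ofReal_mul, h1, h1, sum_mul_sum]
  conv_rhs => rw [sum_product]
  refine sum_congr rfl fun b _ => sum_congr rfl fun b' _ => ?_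
  rw [← e_add]
  congr 1
  rw [ip_add_right, ip_comm ξ, ip_comm ξ]
  congr 1
  rw [ip_comm, ip_rot, ip_comm]

/-- for a fixed angle the Gaussian integral is a sum of Gaussians -/
lemma angle_integral (s : Finset ι) (x : ι → ℂ) (w : ℝ) (hw : 0 < w) (θ : ℝ) :
    2 * w ^ 2 * ∫ ξ : ℂ, Real.exp (-(2 * π * w ^ 2 * ‖ξ‖ ^ 2)) *
      (N s x ξ * N s x (Complex.exp (θ * Complex.I) * ξ)) =
      ∑ a ∈ (s ×ˢ s) ×ˢ (s ×ˢ s), Real.exp (-(π / (2 * w ^ 2) *
        ‖(x a.2.2 - x a.2.1) - Complex.exp (θ * Complex.I) * (x a.1.1 - x a.1.2)‖ ^ 2)) := by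
  have hw2 : (0 : ℝ) < 2 * w ^ 2 := by positivity
  have hpi := Real.pi_pos
  have hint : ∀ y : ℂ, Integrable (fun v : ℂ =>
      (Real.exp (-(π * (2 * w ^ 2) * ‖v‖ ^ 2)) : ℂ) * e (ip v y)) := by
    intro y
    have h := integrable_gauss_mulC (a := π * (2 * w ^ 2)) (by positivity) 0
      (f := fun v => e (ip v y)) (continuous_e.comp (continuous_ip_left y)) (C := 1)
      (fun v => by rw [norm_e])
    simpa using h
  have key : (((∫ ξ : ℂ, Real.exp (-(2 * π * w ^ 2 * ‖ξ‖ ^ 2)) *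
      (N s x ξ * N s x (Complex.exp (θ * Complex.I) * ξ)) : ℝ)) : ℂ) =
      ∑ a ∈ (s ×ˢ s) ×ˢ (s ×ˢ s), ((1 / (2 * w ^ 2) * Real.exp (-(π * ‖(x a.1.1 - x a.1.2) +
        Complex.exp (-θ * Complex.I) * (x a.2.1 - x a.2.2)‖ ^ 2 / (2 * w ^ 2))) : ℝ) : ℂ) := by
    rw [← integral_complex_ofReal]
    have h2 : ∀ ξ : ℂ, ((Real.exp (-(2 * π * w ^ 2 * ‖ξ‖ ^ 2)) *
        (N s x ξ * N s x (Complex.exp (θ * Complex.I) * ξ)) : ℝ) : ℂ) =
        ∑ a ∈ (s ×ˢ s) ×ˢ (s ×ˢ s), (Real.exp (-(π * (2 * w ^ 2) * ‖ξ‖ ^ 2)) : ℂ) *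
          e (ip ξ ((x a.1.1 - x a.1.2) +
            Complex.exp (-θ * Complex.I) * (x a.2.1 - x a.2.2))) := by
      intro ξ
      rw [Complex.ofReal_mul, prod_expand, mul_sum]
      refine sum_congr rfl fun a _ => ?_
      congr 3
      ring
    simp_rw [h2]
    rw [integral_finsetSum _ (fun a _ => hint _)]
    refine sum_congr rfl fun a _ => ?_
    exact gauss_fourier hw2 _
  have key2 : ∫ ξ : ℂ, Real.exp (-(2 * π * w ^ 2 * ‖ξ‖ ^ 2)) *
      (N s x ξ * N s x (Complex.exp (θ * Complex.I) * ξ)) =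
      ∑ a ∈ (s ×ˢ s) ×ˢ (s ×ˢ s), (1 / (2 * w ^ 2) * Real.exp (-(π * ‖(x a.1.1 - x a.1.2) +
        Complex.exp (-θ * Complex.I) * (x a.2.1 - x a.2.2)‖ ^ 2 / (2 * w ^ 2)))) := by
    have := key
    rw [← Complex.ofReal_sum] at this
    exact Complex.ofReal_injective this
  rw [key2, mul_sum]
  refine sum_congr rfl fun a _ => ?_
  have h3 : ‖(x a.2.2 - x a.2.1) - Complex.exp (θ * Complex.I) * (x a.1.1 - x a.1.2)‖ =
      ‖(x a.1.1 - x a.1.2) + Complex.exp (-θ * Complex.I) * (x a.2.1 - x a.2.2)‖ := by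
    have h4 : (x a.2.2 - x a.2.1) - Complex.exp (θ * Complex.I) * (x a.1.1 - x a.1.2) =
        -(Complex.exp (θ * Complex.I) * ((x a.1.1 - x a.1.2) +
          Complex.exp (-θ * Complex.I) * (x a.2.1 - x a.2.2))) := by
      have h5 : Complex.exp (θ * Complex.I) * Complex.exp (-θ * Complex.I) = 1 := by
        rw [← Complex.exp_add]; simp
      linear_combination (x a.2.1 - x a.2.2) * h5
    rw [h4, norm_neg, norm_mul, Complex.norm_exp_ofReal_mul_I, one_mul]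
  rw [h3, ← mul_assoc, mul_one_div_cancel hw2.ne', one_mul]
  congr 1
  ring

theorem specTheta (hC : SpecCirc) : SpecTheta := by
  intro ι s x w hx hw hw1
  have hpi := Real.pi_pos
  have hw2 : (0 : ℝ) < 2 * w ^ 2 := by positivity
  -- Fubini
  set f : ℂ → ℝ → ℝ := fun ξ θ => Real.exp (-(2 * π * w ^ 2 * ‖ξ‖ ^ 2)) *
    (N s x ξ * N s x (Complex.exp (θ * Complex.I) * ξ)) with hf
  have hrot : Continuous fun z : ℂ × ℝ => Complex.exp (z.2 * Complex.I) * z.1 := by fun_prop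
  have hNc := continuous_N s x
  have hfc : Continuous (Function.uncurry f) := by
    have h1 : Continuous fun z : ℂ × ℝ => N s x z.1 := hNc.comp continuous_fst
    have h2 : Continuous fun z : ℂ × ℝ => N s x (Complex.exp (z.2 * Complex.I) * z.1) :=
      hNc.comp hrot
    have h3 : Continuous fun z : ℂ × ℝ => Real.exp (-(2 * π * w ^ 2 * ‖z.1‖ ^ 2)) := by fun_prop
    exact h3.mul (h1.mul h2)
  set μ : Measure ℝ := volume.restrict (Set.Ioc (-8 : ℝ) 8) with hμ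
  have : IsFiniteMeasure μ := by
    rw [hμ]; infer_instance
  have hfi : Integrable (Function.uncurry f) ((volume : Measure ℂ).prod μ) := by
    have hg : Integrable (fun v : ℂ => Real.exp (-(2 * π * w ^ 2 * ‖v‖ ^ 2))) :=
      integrable_gauss (by positivity)
    have h1 : Integrable (fun z : ℂ × ℝ => Real.exp (-(2 * π * w ^ 2 * ‖z.1‖ ^ 2)) * (1 : ℝ))
        ((volume : Measure ℂ).prod μ) := hg.mul_prod (integrable_const 1)
    have h2 : Integrable (fun z : ℂ × ℝ => Real.exp (-(2 * π * w ^ 2 * ‖z.1‖ ^ 2)))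
        ((volume : Measure ℂ).prod μ) := by simpa using h1
    have h3 : Continuous fun z : ℂ × ℝ => N s x z.1 * N s x (Complex.exp (z.2 * Complex.I) * z.1) :=
      (hNc.comp continuous_fst).mul (hNc.comp hrot)
    refine h2.mul_bdd (c := (s.card : ℝ) ^ 2 * (s.card : ℝ) ^ 2) h3.aestronglyMeasurable ?_
    refine Filter.Eventually.of_forall fun z => ?_
    rw [Real.norm_eq_abs, abs_of_nonneg (mul_nonneg (N_nonneg _ _ _) (N_nonneg _ _ _))]
    exact mul_le_mul (N_le _ _ _) (N_le _ _ _) (N_nonneg _ _ _) (by positivity)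
  have hL : ∫ ξ : ℂ, Real.exp (-(2 * π * w ^ 2 * ‖ξ‖ ^ 2)) *
      (N s x ξ * ∫ θ in (-8 : ℝ)..8, N s x (Complex.exp (θ * Complex.I) * ξ)) =
      ∫ θ in (-8 : ℝ)..8, ∫ ξ : ℂ, f ξ θ := by
    have h1 : ∀ ξ : ℂ, Real.exp (-(2 * π * w ^ 2 * ‖ξ‖ ^ 2)) *
        (N s x ξ * ∫ θ in (-8 : ℝ)..8, N s x (Complex.exp (θ * Complex.I) * ξ)) =
        ∫ θ, f ξ θ ∂μ := by
      intro ξ
      rw [hμ, ← intervalIntegral.integral_of_le (by norm_num), hf]
      rw [intervalIntegral.integral_const_mul, intervalIntegral.integral_const_mul]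
    simp_rw [h1]
    rw [integral_integral_swap hfi, intervalIntegral.integral_of_le (by norm_num), hμ]
  rw [hL, ← intervalIntegral.integral_const_mul]
  have h4 : ∀ θ : ℝ, 2 * w ^ 2 * ∫ ξ : ℂ, f ξ θ =
      ∑ a ∈ (s ×ˢ s) ×ˢ (s ×ˢ s), Real.exp (-(π / (2 * w ^ 2) *
        ‖(x a.2.2 - x a.2.1) - Complex.exp (θ * Complex.I) * (x a.1.1 - x a.1.2)‖ ^ 2)) :=
    fun θ => angle_integral s x w hw θ
  simp_rw [h4]
  have hTc : ∀ a : (ι × ι) × (ι × ι), Continuous fun θ : ℝ => Real.exp (-(π / (2 * w ^ 2) *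
        ‖(x a.2.2 - x a.2.1) - Complex.exp (θ * Complex.I) * (x a.1.1 - x a.1.2)‖ ^ 2)) := by
    intro a; fun_prop
  rw [intervalIntegral.integral_finsetSum (fun a _ => (hTc a).intervalIntegrable _ _)]
  -- restrict the sum to the quadruples
  classical
  have hq : quad s x w = (((s ×ˢ s) ×ˢ (s ×ˢ s)).filter
      (fun a => |‖x a.1.1 - x a.1.2‖ - ‖x a.2.1 - x a.2.2‖| ≤ w)).card := by
    unfold quad
    congr!
  rw [hq]
  have h5 : ∀ a ∈ ((s ×ˢ s) ×ˢ (s ×ˢ s)).filter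
      (fun a => |‖x a.1.1 - x a.1.2‖ - ‖x a.2.1 - x a.2.2‖| ≤ w),
      w * Real.exp (-(2 * π)) ≤ ∫ θ in (-8 : ℝ)..8, Real.exp (-(π / (2 * w ^ 2) *
        ‖(x a.2.2 - x a.2.1) - Complex.exp (θ * Complex.I) * (x a.1.1 - x a.1.2)‖ ^ 2)) := by
    intro a ha
    simp only [mem_filter, mem_product] at ha
    obtain ⟨⟨⟨h11, h12⟩, h21, h22⟩, hd⟩ := ha
    have hA : 0 ≤ π / (2 * w ^ 2) := by positivity
    have h6 := hC (x a.1.1 - x a.1.2) (x a.2.2 - x a.2.1) (w / 2) (π / (2 * w ^ 2)) (by positivity)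
      (by linarith) hA
    refine le_trans ?_ h6
    rw [show 2 * (w / 2) = w by ring]
    refine mul_le_mul_of_nonneg_left ?_ hw.le
    apply Real.exp_le_exp.mpr
    have h7 : ‖x a.1.1 - x a.1.2‖ ≤ 2 := by
      refine (norm_sub_le _ _).trans ?_
      linarith [hx _ h11, hx _ h12]
    have h8 : |‖x a.2.2 - x a.2.1‖ - ‖x a.1.1 - x a.1.2‖| ≤ w := by
      rw [norm_sub_rev (x a.2.2), abs_sub_comm]; exact hd
    have h9 : w / 2 * ‖x a.1.1 - x a.1.2‖ + |‖x a.2.2 - x a.2.1‖ - ‖x a.1.1 - x a.1.2‖| ≤ 2 * w := by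
      have := mul_le_mul_of_nonneg_left h7 (by positivity : (0 : ℝ) ≤ w / 2)
      linarith
    have h10 : (w / 2 * ‖x a.1.1 - x a.1.2‖ + |‖x a.2.2 - x a.2.1‖ - ‖x a.1.1 - x a.1.2‖|) ^ 2 ≤
        (2 * w) ^ 2 := pow_le_pow_left₀ (by positivity) h9 2
    have h11 := mul_le_mul_of_nonneg_left h10 hA
    have h12 : π / (2 * w ^ 2) * (2 * w) ^ 2 = 2 * π := by
      field_simp
      try ring
    linarith
  set S := ((s ×ˢ s) ×ˢ (s ×ˢ s)).filter
      (fun a => |‖x a.1.1 - x a.1.2‖ - ‖x a.2.1 - x a.2.2‖| ≤ w) with hS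
  calc (S.card : ℝ) * (w * Real.exp (-(2 * π)))
      = ∑ _a ∈ S, w * Real.exp (-(2 * π)) := by
        rw [sum_const, nsmul_eq_mul]
    _ ≤ ∑ a ∈ S, ∫ θ in (-8 : ℝ)..8, Real.exp (-(π / (2 * w ^ 2) *
        ‖(x a.2.2 - x a.2.1) - Complex.exp (θ * Complex.I) * (x a.1.1 - x a.1.2)‖ ^ 2)) :=
        sum_le_sum h5
    _ ≤ _ := by
        refine sum_le_sum_of_subset_of_nonneg (filter_subset _ _) fun a _ _ => ?_
        exact intervalIntegral.integral_nonneg (by norm_num) fun θ _ => (Real.exp_pos _).le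

end Pool.Agent.Lib.MP_cd3201_co.Dense.ThetaM
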