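import Pool.Agent.Lib.MP_cd3201_co.Dense.Spec

/-!
# Module Trans: translation of `Spread` into `H`
-/

open Finset MeasureTheory
open scoped Real

namespace Pool.Agent.Lib.MP_cd3201_co.Dense.TransM

/-- the point of the plane with normalised coordinate `y` -/
noncomputable def back (z : Plane) (D : ℝ) (y : ℂ) : Plane :=
  WithLp.toLp 2 ![z 0 + D * y.re, z 1 + D * y.im]

theorem norm_emb_sub (z : Plane) (D : ℝ) (hD : 0 < D) (p : Plane) (y : ℂ) :
    ‖emb z D p - y‖ = dist p (back z D y) / D := by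
  have h1 : dist p (back z D y) =
      √((p 0 - (z 0 + D * y.re)) ^ 2 + (p 1 - (z 1 + D * y.im)) ^ 2) := by
    rw [EuclideanSpace.dist_eq, Fin.sum_univ_two]
    simp [back, Real.dist_eq, sq_abs]
  have h2 : ‖emb z D p - y‖ = √(((p 0 - z 0) / D - y.re) ^ 2 + ((p 1 - z 1) / D - y.im) ^ 2) := by
    rw [← Complex.dist_eq, Complex.dist_eq_re_im]
    rfl
  rw [h1, h2]
  have h3 : ((p 0 - z 0) / D - y.re) ^ 2 + ((p 1 - z 1) / D - y.im) ^ 2 =
      ((p 0 - (z 0 + D * y.re)) ^ 2 + (p 1 - (z 1 + D * y.im)) ^ 2) / D ^ 2 := by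
    field_simp
    ring
  rw [h3, Real.sqrt_div' _ (by positivity), Real.sqrt_sq hD.le]

theorem back_zero (z : Plane) (D : ℝ) : back z D 0 = z := by
  ext i
  fin_cases i <;> simp [back]

/-- **Trans.** -/
theorem specTrans : SpecTrans := by
  intro P z D t K σ hD hS
  constructor
  · intro p hp
    have h := norm_emb_sub z D hD p 0
    rw [sub_zero, back_zero] at h
    rw [h, div_le_one hD]
    exact hS.1 p hp
  · intro y ρ h1 h2
    have h3 := hS.2 (back z D y) ρ h1 h2
    unfold cnt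
    refine h3 _ (filter_subset _ _) fun p hp => ?_
    have h4 := (mem_filter.1 hp).2
    rwa [norm_emb_sub z D hD p y, div_le_iff₀ hD] at h4

end Pool.Agent.Lib.MP_cd3201_co.Dense.TransM
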