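import Pool.Agent.Lib.MP_cd3201_co.Dense.Spec

/-!
# Distinct circumradii, dimension larger than one: modules Two, Triv
-/

set_option autoImplicit false

open Finset

namespace Pool.Agent.Lib.MP_cd3201_co.Dense.TwoM

theorem specTwo : SpecTwo := by
  classical
  intro P hP p hp q hq hpq r S hS h
  by_contra hcard
  push Not at hcard
  obtain ⟨s1, h1, s2, h2, s3, h3, h12, h13, h23⟩ := (Finset.two_lt_card).1 hcard
  obtain ⟨n1p, n1q, c1, hc1⟩ := h s1 h1
  obtain ⟨n2p, n2q, c2, hc2⟩ := h s2 h2
  obtain ⟨n3p, n3q, c3, hc3⟩ := h s3 h3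
  -- two equal centres give four concyclic points
  have key : ∀ s ∈ S, ∀ s' ∈ S, s ≠ s' → s ≠ p → s ≠ q → s' ≠ p → s' ≠ q → ∀ c : Plane,
      (∀ x ∈ ({p, q, s} : Finset Plane), dist x c = r) →
      (∀ x ∈ ({p, q, s'} : Finset Plane), dist x c = r) → False := by
    intro s hs s' hs' hne hsp hsq hsp' hsq' c hc hc'
    refine hP.2 {p, q, s, s'} ?_ ?_ ⟨c, r, ?_⟩
    · intro x hx
      simp only [mem_insert, mem_singleton] at hx
      rcases hx with rfl | rfl | rfl | rfl
      · exact hp
      · exact hq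
      · exact hS hs
      · exact hS hs'
    · rw [card_insert_of_notMem, card_insert_of_notMem, card_insert_of_notMem, card_singleton]
      · simpa using hne
      · simp only [mem_insert, mem_singleton, not_or]
        exact ⟨hsq.symm, hsq'.symm⟩
      · simp only [mem_insert, mem_singleton, not_or]
        exact ⟨hpq, hsp.symm, hsp'.symm⟩
    · intro x hx
      simp only [coe_insert, coe_singleton, Set.mem_insert_iff, Set.mem_singleton_iff] at hx
      rcases hx with rfl | rfl | rfl | rfl
      · exact hc _ (by simp)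
      · exact hc _ (by simp)
      · exact hc _ (by simp)
      · exact hc' _ (by simp)
  have e12 : c1 ≠ c2 := by
    rintro rfl
    exact key s1 h1 s2 h2 h12 n1p n1q n2p n2q c1 hc1 hc2
  have e13 : c3 ≠ c1 := by
    rintro rfl
    exact key s1 h1 s3 h3 h13 n1p n1q n3p n3q c3 hc1 hc3
  have e23 : c3 ≠ c2 := by
    rintro rfl
    exact key s2 h2 s3 h3 h23 n2p n2q n3p n3q c3 hc2 hc3
  have hf : ∀ c s, (∀ x ∈ ({p, q, s} : Finset Plane), dist x c = r) →
      dist c p = r ∧ dist c q = r := by
    intro c s hc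
    constructor
    · rw [dist_comm]
      exact hc p (by simp)
    · rw [dist_comm]
      exact hc q (by simp)
  have := EuclideanGeometry.eq_of_dist_eq_of_dist_eq_of_finrank_eq_two finrank_plane
    (c₁ := p) (c₂ := q) (p₁ := c1) (p₂ := c2) (p := c3) hpq e12
    (hf _ _ hc1).1 (hf _ _ hc2).1 (hf _ _ hc3).1 (hf _ _ hc1).2 (hf _ _ hc2).2 (hf _ _ hc3).2
  rcases this with h4 | h4
  · exact e13 h4
  · exact e23 h4

theorem specTriv (hT : SpecTwo) : SpecTriv := by
  classical
  intro P hP hcard
  obtain ⟨p, hp, q, hq, hpq⟩ := (Finset.one_lt_card).1 (lt_of_lt_of_le (by norm_num) hcard)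
  set S := (P.erase p).erase q with hS
  have hSP : S ⊆ P := (erase_subset _ _).trans (erase_subset _ _)
  have hSc : P.card = S.card + 2 := by
    have h1 : q ∈ P.erase p := mem_erase.2 ⟨hpq.symm, hq⟩
    have h2 := card_erase_of_mem h1
    have h3 := card_erase_of_mem hp
    have h4 : S.card = (P.erase p).card - 1 := h2
    omega
  have hmem : ∀ s ∈ S, s ≠ p ∧ s ≠ q ∧ s ∈ P := by
    intro s hs
    rw [hS, mem_erase, mem_erase] at hs
    exact ⟨hs.2.1, hs.1, hs.2.2⟩
  have hex : ∀ s ∈ S, ∃ r, IsCircumradius {p, q, s} r := by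
    intro s hs
    obtain ⟨h1, h2, h3⟩ := hmem s hs
    have hc3 : ({p, q, s} : Finset Plane).card = 3 := by
      rw [card_eq_three]
      exact ⟨p, q, s, hpq, h1.symm, h2.symm, rfl⟩
    refine exists_circumradius hc3 (hP.1 _ ?_ hc3)
    intro x hx
    simp only [mem_insert, mem_singleton] at hx
    rcases hx with rfl | rfl | rfl
    · exact hp
    · exact hq
    · exact h3
  let f : Plane → ℝ := fun s => if h : ∃ r, IsCircumradius {p, q, s} r then h.choose else 0
  have hf : ∀ s ∈ S, IsCircumradius {p, q, s} (f s) := by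
    intro s hs
    simp only [f]
    rw [dif_pos (hex s hs)]
    exact (hex s hs).choose_spec
  have hfin := radii_finite P
  have hmaps : ∀ s ∈ S, f s ∈ hfin.toFinset := by
    intro s hs
    obtain ⟨h1, h2, h3⟩ := hmem s hs
    rw [Set.Finite.mem_toFinset]
    refine ⟨{p, q, s}, ?_, ?_, hf s hs⟩
    · intro x hx
      simp only [mem_insert, mem_singleton] at hx
      rcases hx with rfl | rfl | rfl
      · exact hp
      · exact hq
      · exact h3
    · rw [card_eq_three]
      exact ⟨p, q, s, hpq, h1.symm, h2.symm, rfl⟩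
  have hle := Finset.card_le_mul_card_image_of_maps_to hmaps 2 (by
    intro r _
    refine hT P hP p hp q hq hpq r _ ((filter_subset _ _).trans hSP) ?_
    intro s hs
    rw [mem_filter] at hs
    obtain ⟨h1, h2, h3⟩ := hmem s hs.1
    refine ⟨h1, h2, ?_⟩
    have := hf s hs.1
    rwa [hs.2] at this)
  rw [← Set.ncard_eq_toFinset_card _ hfin] at hle
  have h1 : (P.card : ℝ) ≤ 2 * (radii P).ncard + 2 := by
    have : P.card ≤ 2 * (radii P).ncard + 2 := by omega
    exact_mod_cast this
  have h2 : (3 : ℝ) ≤ P.card := by exact_mod_cast hcard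
  linarith

end Pool.Agent.Lib.MP_cd3201_co.Dense.TwoM
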