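import Pool.Agent.Lib.MP_cd3201_co.Dense.Spec

/-!
# Module Window: the window bound for `1 < t < 3/2`
-/

open Finset MeasureTheory
open scoped Real

namespace Pool.Agent.Lib.MP_cd3201_co.Dense.WindowM

/-- The number of scales. -/
lemma exists_m {σ : ℝ} (h0 : 0 < σ) (h1 : σ ≤ 1) :
    ∃ m : ℕ, 1 / σ ≤ (2 : ℝ) ^ m ∧ (2 : ℝ) ^ m ≤ 2 / σ := by
  classical
  have hex : ∃ m : ℕ, 1 / σ ≤ (2 : ℝ) ^ m := by
    obtain ⟨m, hm⟩ := pow_unbounded_of_one_lt (1 / σ) (one_lt_two (α := ℝ))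
    exact ⟨m, hm.le⟩
  refine ⟨Nat.find hex, Nat.find_spec hex, ?_⟩
  rcases Nat.eq_zero_or_pos (Nat.find hex) with h | h
  · rw [h, pow_zero, le_div_iff₀ h0]
    linarith
  · have h2 : ¬ 1 / σ ≤ (2 : ℝ) ^ (Nat.find hex - 1) := Nat.find_min hex (by omega)
    push Not at h2
    have h3 : (2 : ℝ) ^ (Nat.find hex) = 2 * 2 ^ (Nat.find hex - 1) := by
      rw [← pow_succ']
      congr 1
      omega
    rw [h3]
    calc 2 * (2 : ℝ) ^ (Nat.find hex - 1) ≤ 2 * (1 / σ) := by linarith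
      _ = 2 / σ := by ring

/-- The integral at one scale. -/
lemma int_scale (h3 : SpecGB) (h4 : SpecGS) {ι : Type} {s : Finset ι} {x : ι → ℂ} {t K σ : ℝ}
    (hx : ∀ p ∈ s, ‖x p‖ ≤ 1) (hH : H s x t K σ) (ht0 : 0 < t) (ht2 : t ≤ 2) (hK : 1 ≤ K)
    (hσ : 0 < σ) (hσ1 : σ ≤ 1) (j : ℕ) (hj : (2 : ℝ) ^ j ≤ 2 / σ) :
    ∫ ξ : ℂ, Real.exp (-(π * ‖ξ‖ ^ 2 / 4 ^ j)) * N s x ξ ≤
      (4 : ℝ) ^ j * (20 * K * (s.card : ℝ) ^ 2 * (1 / (2 : ℝ) ^ j) ^ t) := by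
  have h4j : (0 : ℝ) < 4 ^ j := by positivity
  have h2j : (0 : ℝ) < 2 ^ j := by positivity
  have hg := h3 ι s x (fun _ => 1) (1 / 4 ^ j) 0 (by positivity)
  have e1 : ∀ ξ : ℂ, Real.exp (-(π * ‖ξ‖ ^ 2 / 4 ^ j)) * N s x ξ =
      Real.exp (-(π * (1 / 4 ^ j) * ‖ξ - 0‖ ^ 2)) * ‖B s x (fun _ => 1) ξ‖ ^ 2 := by
    intro ξ
    rw [sub_zero]
    unfold N
    congr 2
    ring
  have e2 : ∫ ξ : ℂ, Real.exp (-(π * ‖ξ‖ ^ 2 / 4 ^ j)) * N s x ξ =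
      ∫ ξ : ℂ, Real.exp (-(π * (1 / 4 ^ j) * ‖ξ - 0‖ ^ 2)) * ‖B s x (fun _ => 1) ξ‖ ^ 2 :=
    integral_congr_ae (Filter.Eventually.of_forall e1)
  rw [e2]
  refine hg.trans ?_
  have e3 : ∑ p ∈ s, ∑ q ∈ s, |(1 : ℝ) * 1| * Real.exp (-(π * ‖x p - x q‖ ^ 2 / (1 / 4 ^ j))) =
      G s x (1 / 4 ^ j) := by
    unfold G
    simp
  rw [e3]
  have hG := h4 ι s x t K σ (1 / 4 ^ j) hx hH ht0 ht2 hK hσ hσ1 (by positivity)
  have e4 : (1 / (4 : ℝ) ^ j) ^ (t / 2) = (1 / (2 : ℝ) ^ j) ^ t := by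
    have e5 : (1 / (4 : ℝ) ^ j) = (1 / (2 : ℝ) ^ j) ^ (2 : ℝ) := by
      rw [Real.rpow_two, div_pow, one_pow, ← pow_mul, mul_comm, pow_mul]
      norm_num
    rw [e5, ← Real.rpow_mul (by positivity)]
    congr 1
    ring
  have h5 : σ ^ t ≤ 4 * (1 / (2 : ℝ) ^ j) ^ t := by
    have h6 : σ ≤ 2 * (1 / (2 : ℝ) ^ j) := by
      rw [le_div_iff₀ hσ] at hj
      rw [mul_one_div, le_div_iff₀ h2j]
      linarith
    calc σ ^ t ≤ (2 * (1 / (2 : ℝ) ^ j)) ^ t := Real.rpow_le_rpow hσ.le h6 ht0.le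
      _ = 2 ^ t * (1 / (2 : ℝ) ^ j) ^ t := Real.mul_rpow (by norm_num) (by positivity)
      _ ≤ 4 * (1 / (2 : ℝ) ^ j) ^ t := by
        apply mul_le_mul_of_nonneg_right _ (by positivity)
        calc (2 : ℝ) ^ t ≤ 2 ^ (2 : ℝ) := Real.rpow_le_rpow_of_exponent_le (by norm_num) ht2
          _ = 4 := by rw [Real.rpow_two]; norm_num
  rw [e4] at hG
  have h7 : G s x (1 / 4 ^ j) ≤ 20 * K * (s.card : ℝ) ^ 2 * (1 / (2 : ℝ) ^ j) ^ t := by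
    refine hG.trans ?_
    calc 4 * K * (s.card : ℝ) ^ 2 * ((1 / (2 : ℝ) ^ j) ^ t + σ ^ t)
        ≤ 4 * K * (s.card : ℝ) ^ 2 * ((1 / (2 : ℝ) ^ j) ^ t + 4 * (1 / (2 : ℝ) ^ j) ^ t) := by
          gcongr
      _ = 20 * K * (s.card : ℝ) ^ 2 * (1 / (2 : ℝ) ^ j) ^ t := by ring
  have e6 : (1 : ℝ) / (1 / 4 ^ j) = 4 ^ j := by rw [one_div_one_div]
  rw [e6]
  exact mul_le_mul_of_nonneg_left h7 h4j.le

/-- The powers at one scale. -/
lemma term_eq (t : ℝ) (j : ℕ) :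
    1 / √((2 : ℝ) ^ j) * ((4 : ℝ) ^ j * (1 / (2 : ℝ) ^ j) ^ t) = ((2 : ℝ) ^ (3 / 2 - t)) ^ j := by
  have hb : (0 : ℝ) < 2 ^ j := by positivity
  have e1 : (4 : ℝ) ^ j = ((2 : ℝ) ^ j) ^ (2 : ℝ) := by
    rw [Real.rpow_two, ← pow_mul, mul_comm, pow_mul]
    norm_num
  have e2 : 1 / √((2 : ℝ) ^ j) = ((2 : ℝ) ^ j) ^ (-(1 / 2) : ℝ) := by
    rw [Real.rpow_neg hb.le, ← Real.sqrt_eq_rpow, one_div]
  have e3 : (1 / (2 : ℝ) ^ j) ^ t = ((2 : ℝ) ^ j) ^ (-t) := by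
    rw [Real.rpow_neg hb.le, one_div, Real.inv_rpow hb.le]
  rw [e1, e2, e3, ← Real.rpow_add hb, ← Real.rpow_add hb, ← Real.rpow_natCast 2 j,
    ← Real.rpow_mul (by norm_num), ← Real.rpow_natCast ((2 : ℝ) ^ (3 / 2 - t)) j,
    ← Real.rpow_mul (by norm_num)]
  congr 1
  ring

/-- The geometric sum. -/
lemma geom_le {θ σ : ℝ} (hθ : 0 < θ) (hσ : 0 < σ) {m : ℕ} (hm : (2 : ℝ) ^ m ≤ 2 / σ) :
    ∑ j ∈ range (m + 1), ((2 : ℝ) ^ θ) ^ j ≤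
      (2 : ℝ) ^ θ * (2 : ℝ) ^ θ / ((2 : ℝ) ^ θ - 1) * σ ^ (-θ) := by
  have hq : 1 < (2 : ℝ) ^ θ := Real.one_lt_rpow (by norm_num) hθ
  set q : ℝ := (2 : ℝ) ^ θ with hqd
  have hq1 : 0 < q - 1 := by linarith
  have h1 : q ^ m ≤ q * σ ^ (-θ) := by
    have e1 : q ^ m = ((2 : ℝ) ^ m) ^ θ := by
      rw [hqd, ← Real.rpow_natCast, ← Real.rpow_natCast, ← Real.rpow_mul (by norm_num),
        ← Real.rpow_mul (by norm_num), mul_comm]
    rw [e1]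
    calc ((2 : ℝ) ^ m) ^ θ ≤ (2 / σ) ^ θ := Real.rpow_le_rpow (by positivity) hm hθ.le
      _ = q * σ ^ (-θ) := by
        rw [Real.div_rpow (by norm_num) hσ.le, Real.rpow_neg hσ.le]
        rfl
  rw [geom_sum_eq hq.ne', div_le_iff₀ hq1]
  have h2 : q * q / (q - 1) * σ ^ (-θ) * (q - 1) = q * (q * σ ^ (-θ)) := by
    field_simp
  rw [h2, pow_succ, mul_comm (q ^ m) q]
  have h3 : q * q ^ m ≤ q * (q * σ ^ (-θ)) := mul_le_mul_of_nonneg_left h1 (by linarith)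
  linarith

theorem specWindow (h1 : SpecWinInt) (h2 : SpecMajor) (h3 : SpecGB) (h4 : SpecGS) :
    SpecWindow := by
  intro t K L ht1 ht2 hK hL hL1
  obtain ⟨C₁, hC₁, hw⟩ := h1 L hL hL1
  set θ : ℝ := 3 / 2 - t with hθd
  have hθ : 0 < θ := by rw [hθd]; linarith
  have hq : 1 < (2 : ℝ) ^ θ := Real.one_lt_rpow (by norm_num) hθ
  have hq1 : 0 < (2 : ℝ) ^ θ - 1 := by linarith
  have hK0 : 0 < K := by linarith
  refine ⟨C₁ * (√2 * Real.exp π * (20 * K *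
    ((2 : ℝ) ^ θ * (2 : ℝ) ^ θ / ((2 : ℝ) ^ θ - 1)))), by positivity, ?_⟩
  intro ι s x σ ρ hx hσ hσ1 hH hρ hρ4
  obtain ⟨m, hm1, hm2⟩ := exists_m hσ hσ1
  have hmj : ∀ j ∈ range (m + 1), (2 : ℝ) ^ j ≤ 2 / σ := by
    intro j hj
    rw [mem_range] at hj
    exact (pow_le_pow_right₀ (by norm_num) (by omega)).trans hm2
  have hint : ∀ j : ℕ, Integrable (fun ξ : ℂ => Real.exp (-(π * ‖ξ‖ ^ 2 / 4 ^ j)) * N s x ξ) := by
    intro j
    have hj := integrable_gauss_mul (a := π / 4 ^ j) (by positivity) 0 (continuous_N s x)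
      (C := (s.card : ℝ) ^ 2) (fun v => by
        rw [abs_of_nonneg (N_nonneg s x v)]
        exact N_le s x v)
    refine hj.congr (Filter.Eventually.of_forall fun v => ?_)
    simp only [sub_zero]
    congr 2
    ring
  have hmain : ∫ ξ : ℂ, 1 / √(1 + ‖ξ‖) * Real.exp (-(2 * π * σ ^ 2 * ‖ξ‖ ^ 2)) * N s x ξ ≤
      √2 * Real.exp π * (20 * K * (s.card : ℝ) ^ 2 *
        ∑ j ∈ range (m + 1), ((2 : ℝ) ^ θ) ^ j) := by
    calc ∫ ξ : ℂ, 1 / √(1 + ‖ξ‖) * Real.exp (-(2 * π * σ ^ 2 * ‖ξ‖ ^ 2)) * N s x ξ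
        ≤ ∫ ξ : ℂ, √2 * Real.exp π * ∑ j ∈ range (m + 1),
            (1 / √((2 : ℝ) ^ j)) * (Real.exp (-(π * ‖ξ‖ ^ 2 / 4 ^ j)) * N s x ξ) := by
          refine integral_mono_of_nonneg (Filter.Eventually.of_forall fun ξ => ?_) ?_
            (Filter.Eventually.of_forall fun ξ => ?_)
          · show 0 ≤ 1 / √(1 + ‖ξ‖) * Real.exp (-(2 * π * σ ^ 2 * ‖ξ‖ ^ 2)) * N s x ξ
            have := N_nonneg s x ξ
            positivity
          · refine Integrable.const_mul ?_ _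
            exact integrable_finsetSum _ fun j _ => (hint j).const_mul _
          · show 1 / √(1 + ‖ξ‖) * Real.exp (-(2 * π * σ ^ 2 * ‖ξ‖ ^ 2)) * N s x ξ ≤
              √2 * Real.exp π * ∑ j ∈ range (m + 1),
                (1 / √((2 : ℝ) ^ j)) * (Real.exp (-(π * ‖ξ‖ ^ 2 / 4 ^ j)) * N s x ξ)
            have h5 := mul_le_mul_of_nonneg_right
              (h2 σ ‖ξ‖ m hσ (norm_nonneg ξ) hm1) (N_nonneg s x ξ)
            refine h5.trans (le_of_eq ?_)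
            rw [mul_assoc, Finset.sum_mul]
            congr 1
            refine Finset.sum_congr rfl fun j _ => ?_
            ring
      _ = √2 * Real.exp π * ∑ j ∈ range (m + 1),
            (1 / √((2 : ℝ) ^ j)) * ∫ ξ : ℂ, Real.exp (-(π * ‖ξ‖ ^ 2 / 4 ^ j)) * N s x ξ := by
          rw [integral_const_mul, integral_finsetSum _ fun j _ => (hint j).const_mul _]
          congr 1
          refine Finset.sum_congr rfl fun j _ => ?_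
          rw [integral_const_mul]
      _ ≤ √2 * Real.exp π * ∑ j ∈ range (m + 1), (1 / √((2 : ℝ) ^ j)) *
            ((4 : ℝ) ^ j * (20 * K * (s.card : ℝ) ^ 2 * (1 / (2 : ℝ) ^ j) ^ t)) := by
          refine mul_le_mul_of_nonneg_left ?_ (by positivity)
          refine Finset.sum_le_sum fun j hj => ?_
          refine mul_le_mul_of_nonneg_left ?_ (by positivity)
          exact int_scale h3 h4 hx hH (by linarith) (by linarith) hK hσ hσ1 j (hmj j hj)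
      _ = √2 * Real.exp π * (20 * K * (s.card : ℝ) ^ 2 *
            ∑ j ∈ range (m + 1), ((2 : ℝ) ^ θ) ^ j) := by
          rw [Finset.mul_sum (s := range (m + 1)) (a := 20 * K * (s.card : ℝ) ^ 2)]
          congr 1
          refine Finset.sum_congr rfl fun j _ => ?_
          rw [hθd, ← term_eq t j]
          ring
  have hgeo := geom_le hθ hσ hm2
  have hσθ : σ * σ ^ (-θ) = σ ^ (t - 1 / 2) := by
    conv_lhs => rw [← Real.rpow_one σ]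
    rw [← Real.rpow_mul hσ.le, one_mul, ← Real.rpow_add hσ, hθd]
    congr 1
    ring
  calc (win s x ρ σ : ℝ)
      ≤ C₁ * σ * ∫ ξ : ℂ, 1 / √(1 + ‖ξ‖) * Real.exp (-(2 * π * σ ^ 2 * ‖ξ‖ ^ 2)) * N s x ξ :=
        hw ι s x σ ρ hσ hσ1 hρ hρ4
    _ ≤ C₁ * σ * (√2 * Real.exp π * (20 * K * (s.card : ℝ) ^ 2 *
          ((2 : ℝ) ^ θ * (2 : ℝ) ^ θ / ((2 : ℝ) ^ θ - 1) * σ ^ (-θ)))) := by
        refine mul_le_mul_of_nonneg_left (hmain.trans ?_) (by positivity)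
        refine mul_le_mul_of_nonneg_left ?_ (by positivity)
        exact mul_le_mul_of_nonneg_left hgeo (by positivity)
    _ = C₁ * (√2 * Real.exp π * (20 * K * ((2 : ℝ) ^ θ * (2 : ℝ) ^ θ / ((2 : ℝ) ^ θ - 1)))) *
          (s.card : ℝ) ^ 2 * (σ * σ ^ (-θ)) := by ring
    _ = _ := by rw [hσθ]

end Pool.Agent.Lib.MP_cd3201_co.Dense.WindowM
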