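import Mathlib
import Pool.Agent.Lib.MP_cd3201_co.Dense.Spec
import Pool.Agent.Lib.MP_cd3201_co.Dense.Fold
import Pool.Agent.Lib.MP_cd3201_co.Dense.Two
import Pool.Agent.Lib.MP_cd3201_co.Dense.Count
import Pool.Agent.Lib.MP_cd3201_co.Dense.Rows
import Pool.Agent.Lib.MP_cd3201_co.Dense.GB
import Pool.Agent.Lib.MP_cd3201_co.Dense.GS
import Pool.Agent.Lib.MP_cd3201_co.Dense.Circ
import Pool.Agent.Lib.MP_cd3201_co.Dense.Bessel
import Pool.Agent.Lib.MP_cd3201_co.Dense.Major
import Pool.Agent.Lib.MP_cd3201_co.Dense.WinInt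
import Pool.Agent.Lib.MP_cd3201_co.Dense.Window
import Pool.Agent.Lib.MP_cd3201_co.Dense.NB
import Pool.Agent.Lib.MP_cd3201_co.Dense.Inner
import Pool.Agent.Lib.MP_cd3201_co.Dense.Ring
import Pool.Agent.Lib.MP_cd3201_co.Dense.Mean
import Pool.Agent.Lib.MP_cd3201_co.Dense.Theta
import Pool.Agent.Lib.MP_cd3201_co.Dense.Quad
import Pool.Agent.Lib.MP_cd3201_co.Dense.Ann
import Pool.Agent.Lib.MP_cd3201_co.Dense.Trans
import Pool.Agent.Lib.MP_cd3201_co.Dense.One
import Pool.Agent.Lib.MP_cd3201_co.Dense.Dim2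
import Pool.Agent.Lib.MP_cd3201_co.Dense.Dense

/-!
# Distinct circumradii of sets of dimension larger than one: assembly of the modules
-/

namespace Pool.Agent.Lib.MP_cd3201_co.Dense

theorem thmTwo : SpecTwo := TwoM.specTwo
theorem thmFold : SpecFold := FoldM.specFold
theorem thmTriv : SpecTriv := TwoM.specTriv thmTwo
theorem thmCirc : SpecCirc := CircM.specCirc
theorem thmGB : SpecGB := GBM.specGB
theorem thmGS : SpecGS := GSM.specGS
theorem thmRows : SpecRows := RowsM.specRows
theorem thmTrans : SpecTrans := TransM.specTrans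
theorem thmWinInt : SpecWinInt := WinIntM.specWinInt thmCirc BesselM.specBessel
theorem thmWindow : SpecWindow := WindowM.specWindow thmWinInt MajorM.specMajor thmGB thmGS
theorem thmRing : SpecRing := RingM.specRing thmCirc thmGB thmGS
theorem thmMean : SpecMean := MeanM.specMean NBM.specNB InnerM.specInner thmRing
theorem thmTheta : SpecTheta := ThetaM.specTheta thmCirc
theorem thmQuad : SpecQuad := QuadM.specQuad thmTheta thmMean thmGB thmGS
theorem thmThird : SpecThird := AnnM.specThird AnnM.specAnn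

theorem thmOne : SpecOne :=
  OneM.specOne thmTriv (CountM.specA thmFold thmTwo) thmRows thmWindow thmTrans

theorem thmDim2 : SpecDim2 :=
  Dim2M.specDim2 thmTriv (CountM.specB thmFold thmTwo) thmRows thmQuad thmThird thmTrans

theorem thmDense : SpecDense := DenseM.specDense thmDim2

end Pool.Agent.Lib.MP_cd3201_co.Dense
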