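import Pool.Agent.Lib.MP_cd3201_co.Dense.Spec

/-!
# (4c), first half: the window count is at most a weighted integral of `N` (helper31)
-/

open Finset MeasureTheory
open scoped Real

namespace Pool.Agent.Lib.MP_cd3201_co.Dense.WinIntM

variable {ι : Type}

/-- the point `ρ e^{iθ}` -/
noncomputable def cp (ρ θ : ℝ) : ℂ := Complex.exp (θ * Complex.I) * (ρ : ℂ)

lemma cp_re (ρ θ : ℝ) : (cp ρ θ).re = ρ * Real.cos θ := by
  unfold cp
  rw [Complex.re_mul_ofReal, Complex.exp_ofReal_mul_I_re, mul_comm]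

lemma cp_im (ρ θ : ℝ) : (cp ρ θ).im = ρ * Real.sin θ := by
  unfold cp
  rw [Complex.im_mul_ofReal, Complex.exp_ofReal_mul_I_im, mul_comm]

lemma continuous_cp (ρ : ℝ) : Continuous (cp ρ) := by
  unfold cp
  fun_prop

lemma ip_cp (ξ : ℂ) (ρ θ : ℝ) : ip ξ (cp ρ θ) = ρ * ‖ξ‖ * Real.cos (θ - Complex.arg ξ) := by
  rw [ip, cp_re, cp_im, Real.cos_sub, ← Complex.norm_mul_cos_arg ξ, ← Complex.norm_mul_sin_arg ξ]
  ring

/-- the inner integral over the circle -/
lemma inner_bound {C : ℝ} (hC0 : 0 < C)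
    (hC : ∀ l φ : ℝ, 0 < l → |φ| ≤ 7 → ‖∫ θ in (-8 : ℝ)..8, e (l * Real.cos (θ + φ))‖ ≤ C / √l)
    {L ρ : ℝ} (hL : 0 < L) (hρ : L / 2 ≤ ρ) (ξ : ℂ) :
    ‖∫ θ in (-8 : ℝ)..8, e (-(ip ξ (cp ρ θ)))‖ ≤ (32 + 2 * C / √L) / √(1 + ‖ξ‖) := by
  have hn : 0 ≤ ‖ξ‖ := norm_nonneg ξ
  have hs : 0 < √(1 + ‖ξ‖) := by positivity
  have hsL : 0 < √L := by positivity
  have hCL : 0 ≤ 2 * C / √L := by positivity
  rcases le_or_gt ‖ξ‖ 1 with h1 | h1
  · have ht : ‖∫ θ in (-8 : ℝ)..8, e (-(ip ξ (cp ρ θ)))‖ ≤ 1 * |8 - (-8)| :=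
      intervalIntegral.norm_integral_le_of_norm_le_const fun θ _ => (norm_e _).le
    have h16 : |(8 : ℝ) - (-8)| = 16 := by norm_num
    rw [h16] at ht
    refine ht.trans ?_
    rw [le_div_iff₀ hs]
    have h2 : √(1 + ‖ξ‖) ≤ 2 := by
      rw [Real.sqrt_le_left (by norm_num)]
      linarith
    nlinarith
  · have hρ0 : 0 < ρ := by linarith
    have hl : 0 < ρ * ‖ξ‖ := by positivity
    have hφ : |π - Complex.arg ξ| ≤ 7 := by
      have a1 := Complex.neg_pi_lt_arg ξ
      have a2 := Complex.arg_le_pi ξ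
      have a3 := Real.pi_lt_d2
      rw [abs_le]
      constructor <;> linarith
    have key := hC (ρ * ‖ξ‖) (π - Complex.arg ξ) hl hφ
    have heq : ∀ θ : ℝ, e (-(ip ξ (cp ρ θ))) = e (ρ * ‖ξ‖ * Real.cos (θ + (π - Complex.arg ξ))) := by
      intro θ
      rw [ip_cp, show θ + (π - Complex.arg ξ) = (θ - Complex.arg ξ) + π by ring, Real.cos_add_pi]
      congr 1
      ring
    simp_rw [heq]
    refine key.trans ?_
    have h3 : √L * √(1 + ‖ξ‖) ≤ 2 * √(ρ * ‖ξ‖) := by
      rw [← Real.sqrt_mul hL.le, show (2 : ℝ) = √4 by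
        rw [show (4 : ℝ) = 2 ^ 2 by norm_num, Real.sqrt_sq (by norm_num)], ← Real.sqrt_mul (by norm_num)]
      apply Real.sqrt_le_sqrt
      nlinarith
    have h4 : C / √(ρ * ‖ξ‖) ≤ 2 * C / √L / √(1 + ‖ξ‖) := by
      rw [div_div, div_le_div_iff₀ (Real.sqrt_pos.mpr hl) (by positivity)]
      nlinarith
    refine h4.trans ?_
    gcongr
    linarith

/-- a Gaussian at one difference, as an integral -/
lemma gauss_at {l : ℝ} (hl : 0 < l) (u c : ℂ) :
    ((Real.exp (-(π * ‖u - c‖ ^ 2 / l)) : ℝ) : ℂ) =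
      l * ∫ v : ℂ, ((Real.exp (-(π * l * ‖v‖ ^ 2)) : ℝ) : ℂ) * (e (ip u v) * e (-(ip v c))) := by
  have h := gauss_fourier hl (u - c)
  have h2 : ∀ v : ℂ, ((Real.exp (-(π * l * ‖v‖ ^ 2)) : ℝ) : ℂ) * (e (ip u v) * e (-(ip v c))) =
      (Real.exp (-(π * l * ‖v‖ ^ 2)) : ℂ) * e (ip v (u - c)) := by
    intro v
    rw [ip_sub_right, sub_eq_add_neg, e_add, ip_comm u v]
  simp_rw [h2]
  rw [h]
  push_cast
  have : (l : ℂ) ≠ 0 := by exact_mod_cast hl.ne'
  field_simp

/-- the sum over all pairs as an integral -/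
lemma sum_eq {l : ℝ} (hl : 0 < l) (s : Finset ι) (x : ι → ℂ) (c : ℂ) :
    ((∑ p ∈ s, ∑ q ∈ s, Real.exp (-(π * ‖(x p - x q) - c‖ ^ 2 / l)) : ℝ) : ℂ) =
      l * ∫ v : ℂ, ((Real.exp (-(π * l * ‖v‖ ^ 2)) : ℝ) : ℂ) * ((N s x v : ℂ) * e (-(ip v c))) := by
  rw [Complex.ofReal_sum]
  simp_rw [Complex.ofReal_sum]
  simp_rw [gauss_at hl]
  simp_rw [← mul_sum]
  congr 1
  have hpl : 0 < π * l := by positivity
  have hint : ∀ p q : ι, Integrable (fun v : ℂ => ((Real.exp (-(π * l * ‖v‖ ^ 2)) : ℝ) : ℂ) *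
        (e (ip (x p - x q) v) * e (-(ip v c)))) := by
    intro p q
    have := integrable_gauss_mulC hpl 0 (f := fun v => e (ip (x p - x q) v) * e (-(ip v c)))
      ((continuous_e.comp (continuous_ip_right _)).mul
        (continuous_e.comp (continuous_ip_left _).neg)) (C := 1)
      (fun v => by rw [norm_mul, norm_e, norm_e, one_mul])
    simpa using this
  simp_rw [← integral_finsetSum s (fun q _ => hint _ q)]
  rw [← integral_finsetSum s (fun p _ => integrable_finsetSum s (fun q _ => hint p q))]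
  congr 1
  ext v
  rw [N, sq_norm_B]
  rw [sum_mul, mul_sum]
  refine sum_congr rfl fun p _ => ?_
  rw [sum_mul, mul_sum]
  refine sum_congr rfl fun q _ => ?_
  simp

/-- Fubini -/
lemma fubini {l : ℝ} (hl : 0 < l) (s : Finset ι) (x : ι → ℂ) (ρ : ℝ) :
    ∫ θ in (-8 : ℝ)..8, (∫ v : ℂ, ((Real.exp (-(π * l * ‖v‖ ^ 2)) : ℝ) : ℂ) *
        ((N s x v : ℂ) * e (-(ip v (cp ρ θ))))) =
      ∫ v : ℂ, ((Real.exp (-(π * l * ‖v‖ ^ 2)) : ℝ) : ℂ) *
        ((N s x v : ℂ) * ∫ θ in (-8 : ℝ)..8, e (-(ip v (cp ρ θ)))) := by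
  have hpl : 0 < π * l := by positivity
  have hc : Continuous (fun z : ℝ × ℂ => e (-(ip z.2 (cp ρ z.1)))) := by
    refine continuous_e.comp ?_
    unfold ip
    have h1 : Continuous (fun z : ℝ × ℂ => cp ρ z.1) := (continuous_cp ρ).comp continuous_fst
    fun_prop
  have hg : Integrable (fun v : ℂ => (s.card : ℝ) ^ 2 * Real.exp (-(π * l * ‖v‖ ^ 2))) := by
    have := (integrable_gauss hpl).const_mul ((s.card : ℝ) ^ 2)
    simpa using this
  rw [intervalIntegral_integral_swap]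
  · congr 1
    ext v
    rw [intervalIntegral.integral_const_mul, intervalIntegral.integral_const_mul]
  · have : IsFiniteMeasure (volume.restrict (Set.uIoc (-8 : ℝ) 8)) := by
      rw [Set.uIoc_of_le (by norm_num)]
      infer_instance
    have hdom : Integrable (fun z : ℝ × ℂ => (s.card : ℝ) ^ 2 * Real.exp (-(π * l * ‖z.2‖ ^ 2)))
        ((volume.restrict (Set.uIoc (-8 : ℝ) 8)).prod volume) := hg.comp_snd _
    refine hdom.mono' ?_ ?_
    · refine Continuous.aestronglyMeasurable ?_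
      have h2 : Continuous (fun z : ℝ × ℂ => (N s x z.2 : ℂ)) :=
        Complex.continuous_ofReal.comp ((continuous_N s x).comp continuous_snd)
      have h3 : Continuous (fun z : ℝ × ℂ => ((Real.exp (-(π * l * ‖z.2‖ ^ 2)) : ℝ) : ℂ)) := by
        fun_prop
      exact h3.mul (h2.mul hc)
    · refine Filter.Eventually.of_forall fun z => ?_
      simp only [Function.uncurry]
      rw [norm_mul, norm_mul, norm_e, mul_one, Complex.norm_real, Complex.norm_real, Real.norm_eq_abs,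
        Real.norm_eq_abs, abs_of_nonneg (Real.exp_pos _).le, abs_of_nonneg (N_nonneg s x _), mul_comm]
      exact mul_le_mul_of_nonneg_right (N_le s x _) (Real.exp_pos _).le

theorem specWinInt (hC : SpecCirc) (hB : SpecBessel) : SpecWinInt := by
  classical
  intro L hL _
  obtain ⟨C, hC0, hCb⟩ := hB
  set C' : ℝ := 32 + 2 * C / √L with hC'
  have hsL : 0 < √L := by positivity
  have hC'0 : 0 < C' := by positivity
  refine ⟨4 * Real.exp (2 * π) * C', by positivity, ?_⟩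
  intro ι s x w ρ hw hw1 hρL hρ4
  have hρ0 : 0 < ρ := by linarith
  set l : ℝ := 2 * w ^ 2 with hldef
  have hl : 0 < l := by positivity
  have hpl : 0 < π * l := by positivity
  set F : ℝ → ℝ := fun θ => ∑ p ∈ s, ∑ q ∈ s, Real.exp (-(π * ‖(x p - x q) - cp ρ θ‖ ^ 2 / l)) with hF
  have hterm : ∀ p q : ι, Continuous (fun θ => Real.exp (-(π * ‖(x p - x q) - cp ρ θ‖ ^ 2 / l))) := by
    intro p q
    have := continuous_cp ρ
    fun_prop
  -- lower bound
  have hlow : (win s x ρ w : ℝ) * (w / 2 * Real.exp (-(2 * π))) ≤ ∫ θ in (-8 : ℝ)..8, F θ := by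
    have hsum : ∫ θ in (-8 : ℝ)..8, F θ =
        ∑ a ∈ s ×ˢ s, ∫ θ in (-8 : ℝ)..8, Real.exp (-(π * ‖(x a.1 - x a.2) - cp ρ θ‖ ^ 2 / l)) := by
      rw [hF]
      simp only []
      rw [intervalIntegral.integral_finsetSum
        (fun p _ => (continuous_finsetSum s fun q _ => hterm p q).intervalIntegrable _ _)]
      rw [sum_product]
      refine sum_congr rfl fun p _ => ?_
      rw [intervalIntegral.integral_finsetSum (fun q _ => (hterm p q).intervalIntegrable _ _)]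
    rw [hsum]
    have hwin : (win s x ρ w : ℝ) * (w / 2 * Real.exp (-(2 * π))) =
        ∑ a ∈ (s ×ˢ s).filter (fun a => |‖x a.1 - x a.2‖ - ρ| ≤ w), (w / 2 * Real.exp (-(2 * π))) := by
      rw [sum_const, nsmul_eq_mul]
      unfold win
      congr!
    rw [hwin]
    refine (sum_le_sum ?_).trans (sum_le_sum_of_subset_of_nonneg (filter_subset _ _) ?_)
    · intro a ha
      have ha2 := (mem_filter.mp ha).2
      have h := hC (ρ : ℂ) (x a.1 - x a.2) (w / 4) (π / l) (by positivity) (by linarith) (by positivity)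
      have hnρ : ‖(ρ : ℂ)‖ = ρ := by
        rw [Complex.norm_real, Real.norm_eq_abs, abs_of_pos hρ0]
      rw [hnρ] at h
      have hsq : π / l * (w / 4 * ρ + |‖x a.1 - x a.2‖ - ρ|) ^ 2 ≤ 2 * π := by
        have h1 : w / 4 * ρ + |‖x a.1 - x a.2‖ - ρ| ≤ 2 * w := by nlinarith
        have h2 : 0 ≤ w / 4 * ρ + |‖x a.1 - x a.2‖ - ρ| := by positivity
        have h3 : (w / 4 * ρ + |‖x a.1 - x a.2‖ - ρ|) ^ 2 ≤ (2 * w) ^ 2 := pow_le_pow_left₀ h2 h1 2
        calc π / l * (w / 4 * ρ + |‖x a.1 - x a.2‖ - ρ|) ^ 2 ≤ π / l * (2 * w) ^ 2 := by gcongr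
          _ = 2 * π := by rw [hldef]; field_simp
      calc w / 2 * Real.exp (-(2 * π)) = 2 * (w / 4) * Real.exp (-(2 * π)) := by ring
        _ ≤ 2 * (w / 4) * Real.exp (-(π / l * (w / 4 * ρ + |‖x a.1 - x a.2‖ - ρ|) ^ 2)) := by
            gcongr
        _ ≤ _ := h
        _ = _ := by
            congr 1
            ext θ
            congr 1
            unfold cp
            ring
    · intro a _ _
      exact intervalIntegral.integral_nonneg (by norm_num) fun θ _ => (Real.exp_pos _).le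
  -- upper bound
  have hup : ∫ θ in (-8 : ℝ)..8, F θ ≤ l * (C' *
      ∫ ξ : ℂ, 1 / √(1 + ‖ξ‖) * Real.exp (-(2 * π * w ^ 2 * ‖ξ‖ ^ 2)) * N s x ξ) := by
    have hcast : ((∫ θ in (-8 : ℝ)..8, F θ : ℝ) : ℂ) = l * ∫ v : ℂ,
        ((Real.exp (-(π * l * ‖v‖ ^ 2)) : ℝ) : ℂ) *
        ((N s x v : ℂ) * ∫ θ in (-8 : ℝ)..8, e (-(ip v (cp ρ θ)))) := by
      rw [← fubini hl s x ρ, ← intervalIntegral.integral_const_mul, ← intervalIntegral.integral_ofReal]
      congr 1
      ext θ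
      exact sum_eq hl s x (cp ρ θ)
    have hnn : 0 ≤ ∫ θ in (-8 : ℝ)..8, F θ :=
      intervalIntegral.integral_nonneg (by norm_num) fun θ _ =>
        sum_nonneg fun p _ => sum_nonneg fun q _ => (Real.exp_pos _).le
    have habs : ∫ θ in (-8 : ℝ)..8, F θ = ‖((∫ θ in (-8 : ℝ)..8, F θ : ℝ) : ℂ)‖ := by
      rw [Complex.norm_real, Real.norm_eq_abs, abs_of_nonneg hnn]
    rw [habs, hcast, norm_mul, Complex.norm_real, Real.norm_eq_abs, abs_of_pos hl]
    refine mul_le_mul_of_nonneg_left ?_ hl.le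
    rw [← integral_const_mul]
    refine (norm_integral_le_integral_norm _).trans ?_
    refine integral_mono_of_nonneg (Filter.Eventually.of_forall fun v => norm_nonneg _) ?_ ?_
    · have hcont : Continuous (fun v : ℂ => 1 / √(1 + ‖v‖) * N s x v) := by
        refine Continuous.mul ?_ (continuous_N s x)
        refine continuous_const.div (by fun_prop) fun v => ?_
        have : 0 < √(1 + ‖v‖) := by positivity
        exact this.ne'
      have hb : ∀ v : ℂ, |1 / √(1 + ‖v‖) * N s x v| ≤ (s.card : ℝ) ^ 2 := by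
        intro v
        have h1 : 1 ≤ √(1 + ‖v‖) := by
          rw [Real.one_le_sqrt]
          linarith [norm_nonneg v]
        have h2 : 1 / √(1 + ‖v‖) ≤ 1 := by
          rw [div_le_one (by positivity)]
          exact h1
        have h3 : 0 ≤ 1 / √(1 + ‖v‖) := by positivity
        rw [abs_of_nonneg (mul_nonneg h3 (N_nonneg s x v))]
        calc 1 / √(1 + ‖v‖) * N s x v ≤ 1 * (s.card : ℝ) ^ 2 :=
              mul_le_mul h2 (N_le s x v) (N_nonneg s x v) (by norm_num)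
          _ = _ := by ring
      have := (integrable_gauss_mul hpl 0 hcont hb).const_mul C'
      refine this.congr (Filter.Eventually.of_forall fun v => ?_)
      simp only [sub_zero]
      rw [show π * l * ‖v‖ ^ 2 = 2 * π * w ^ 2 * ‖v‖ ^ 2 by rw [hldef]; ring]
      ring
    · refine Filter.Eventually.of_forall fun v => ?_
      simp only []
      rw [norm_mul, norm_mul, Complex.norm_real, Complex.norm_real, Real.norm_eq_abs,
        Real.norm_eq_abs, abs_of_nonneg (Real.exp_pos _).le, abs_of_nonneg (N_nonneg s x _)]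
      have hin := inner_bound hC0 hCb hL hρL v
      have he : Real.exp (-(π * l * ‖v‖ ^ 2)) = Real.exp (-(2 * π * w ^ 2 * ‖v‖ ^ 2)) := by
        congr 1
        rw [hldef]
        ring
      rw [he]
      calc Real.exp (-(2 * π * w ^ 2 * ‖v‖ ^ 2)) *
            (N s x v * ‖∫ θ in (-8 : ℝ)..8, e (-(ip v (cp ρ θ)))‖) ≤
          Real.exp (-(2 * π * w ^ 2 * ‖v‖ ^ 2)) * (N s x v * (C' / √(1 + ‖v‖))) := by
            refine mul_le_mul_of_nonneg_left ?_ (Real.exp_pos _).le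
            exact mul_le_mul_of_nonneg_left hin (N_nonneg s x v)
        _ = _ := by ring
  have hfin := hlow.trans hup
  set I : ℝ := ∫ ξ : ℂ, 1 / √(1 + ‖ξ‖) * Real.exp (-(2 * π * w ^ 2 * ‖ξ‖ ^ 2)) * N s x ξ with hI
  have he1 : Real.exp (-(2 * π)) * Real.exp (2 * π) = 1 := by
    rw [← Real.exp_add]; simp
  have hpos : 0 < w / 2 * Real.exp (-(2 * π)) := by positivity
  have hgoal : 4 * Real.exp (2 * π) * C' * w * I * (w / 2 * Real.exp (-(2 * π))) = l * (C' * I) := by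
    rw [hldef]
    calc 4 * Real.exp (2 * π) * C' * w * I * (w / 2 * Real.exp (-(2 * π))) =
        2 * w ^ 2 * (C' * I) * (Real.exp (-(2 * π)) * Real.exp (2 * π)) := by ring
      _ = _ := by rw [he1]; ring
  rw [← hgoal] at hfin
  exact le_of_mul_le_mul_right hfin hpos

end Pool.Agent.Lib.MP_cd3201_co.Dense.WinIntM
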